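import Pool.Agent.W_52423g_h30.ADet
import Pool.Agent.W_52423f_h30.EvB

/-!
# The functions and their polynomial approximations
-/

namespace Pool.Agent.PTwistG

open MvPolynomial Pool.Agent.PTwist

variable {K : Type*} [NontriviallyNormedField K] [CompleteSpace K] [IsUltrametricDist K] {r : ℕ}

/-- the function `f(∑ u i v i) ^ l 0 * ∏ f(v i) ^ l (i + 1)` -/
noncomputable def phi (f : PowerSeries K) (u : Fin r → K) (l : Fin (r + 1) → ℕ) (v : Fin r → K) :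
    K :=
  ev f (∑ i, u i * v i) ^ l 0 * ∏ i : Fin r, ev f (v i) ^ l i.succ

section aux

variable {K : Type*} [NormedField K] [IsUltrametricDist K] {r : ℕ}

theorem AApp_sum {ι : Type*} (s : Finset ι) {f : ι → K} {d : ℝ} (hd : 0 ≤ d)
    (h : ∀ i ∈ s, ‖f i‖ ≤ d) : ‖∑ i ∈ s, f i‖ ≤ d := by
  classical
  induction s using Finset.induction_on with
  | empty => simpa using hd
  | insert a s ha ih =>
    rw [Finset.sum_insert ha]
    exact (IsUltrametricDist.norm_add_le_max _ _).trans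
      (max_le (h a (Finset.mem_insert_self _ _))
        (ih fun i hi => h i (Finset.mem_insert_of_mem hi)))

theorem AApp_MBd_sum {ι : Type*} (s : Finset ι) {ρ : ℝ} (hρ : 0 ≤ ρ)
    {q : ι → MvPolynomial (Fin r) K} (h : ∀ i ∈ s, MBd ρ (q i)) : MBd ρ (∑ i ∈ s, q i) := by
  intro α
  rw [coeff_sum]
  exact AApp_sum s (by positivity) fun i hi => h i hi α

/-- a linear form -/
noncomputable def linU (u : Fin r → K) : MvPolynomial (Fin r) K := ∑ i, C (u i) * X i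

theorem linU_hom (u : Fin r → K) : (linU u).IsHomogeneous 1 := by
  refine IsHomogeneous.sum _ _ _ fun i _ => ?_
  exact isHomogeneous_C_mul_X (u i) i

theorem linU_bd {u : Fin r → K} (hu : ∀ i, ‖u i‖ ≤ 1) : MBd 1 (linU u) := by
  refine AApp_MBd_sum _ zero_le_one fun i _ => ?_
  intro α
  rw [one_pow, coeff_C_mul, coeff_X]
  split_ifs
  · rw [mul_one]
    exact hu i
  · rw [mul_zero, norm_zero]
    exact zero_le_one

theorem linU_pow {u : Fin r → K} (hu : ∀ i, ‖u i‖ ≤ 1) {ρ : ℝ} (hρ : 0 ≤ ρ) (k : ℕ) {a : K}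
    (ha : ‖a‖ ≤ ρ ^ k) : MBd ρ (C a * linU u ^ k) := by
  intro α
  rw [coeff_C_mul]
  by_cases h : α.degree = k
  · have h1 := MBd.pow zero_le_one (linU_bd hu) k α
    rw [one_pow] at h1
    have h2 : ∑ i, α i = k := by
      rw [← h, Finsupp.degree_eq_sum]
    rw [norm_mul, h2]
    calc ‖a‖ * ‖coeff α (linU u ^ k)‖ ≤ ρ ^ k * 1 :=
          mul_le_mul ha h1 (norm_nonneg _) (by positivity)
      _ = ρ ^ k := mul_one _
  · have h1 : (linU u ^ k).IsHomogeneous (1 * k) := (linU_hom u).pow k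
    rw [one_mul] at h1
    rw [h1.coeff_eq_zero h, mul_zero, norm_zero]
    positivity

theorem linU_eval (u v : Fin r → K) : eval v (linU u) = ∑ i, u i * v i := by
  unfold linU
  rw [map_sum]
  refine Finset.sum_congr rfl fun i _ => ?_
  rw [map_mul, eval_C, eval_X]

theorem AApp_mul {a a' b b' : K} {δ : ℝ} (ha : ‖a‖ ≤ 1) (hb' : ‖b'‖ ≤ 1)
    (h : ‖a - b‖ ≤ δ) (h' : ‖a' - b'‖ ≤ δ) (hδ : 0 ≤ δ) : ‖a * a' - b * b'‖ ≤ δ := by
  have h1 : a * a' - b * b' = a * (a' - b') + (a - b) * b' := by ring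
  rw [h1]
  refine (IsUltrametricDist.norm_add_le_max _ _).trans (max_le ?_ ?_)
  · rw [norm_mul]
    calc ‖a‖ * ‖a' - b'‖ ≤ 1 * δ := mul_le_mul ha h' (norm_nonneg _) zero_le_one
      _ = δ := one_mul _
  · rw [norm_mul]
    calc ‖a - b‖ * ‖b'‖ ≤ δ * 1 := mul_le_mul h hb' (norm_nonneg _) hδ
      _ = δ := mul_one _

theorem AApp_pow {a b : K} {δ : ℝ} (ha : ‖a‖ ≤ 1) (hb : ‖b‖ ≤ 1)
    (h : ‖a - b‖ ≤ δ) (hδ : 0 ≤ δ) (n : ℕ) : ‖a ^ n - b ^ n‖ ≤ δ := by
  induction n with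
  | zero => simpa using hδ
  | succ n ih =>
    rw [pow_succ, pow_succ]
    refine AApp_mul ?_ hb ih h hδ
    rw [norm_pow]
    exact pow_le_one₀ (norm_nonneg _) ha

theorem AApp_prod {ι : Type*} (s : Finset ι) {a b : ι → K} {δ : ℝ} (ha : ∀ i, ‖a i‖ ≤ 1)
    (hb : ∀ i, ‖b i‖ ≤ 1) (h : ∀ i, ‖a i - b i‖ ≤ δ) (hδ : 0 ≤ δ) :
    ‖∏ i ∈ s, a i - ∏ i ∈ s, b i‖ ≤ δ := by
  classical
  induction s using Finset.induction_on with
  | empty => simpa using hδ
  | insert i s hi ih =>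
    rw [Finset.prod_insert hi, Finset.prod_insert hi]
    refine AApp_mul (ha i) ?_ (h i) ih hδ
    rw [norm_prod]
    exact Finset.prod_le_one (fun _ _ => norm_nonneg _) fun j _ => hb j

end aux

/-- the truncation of the series at a linear form: let `T = ∑ k < N, a k X ^ k` and
`q = T(∑ i, u i X i)`; the coefficients of `(∑ i, u i X i) ^ k` have norm `≤ 1` and degree `k`. -/
theorem AApp_one {f : PowerSeries K} {ρ R : ℝ} (hρ : 0 ≤ ρ) (hf : Bd ρ 1 f) (hR : 0 ≤ R)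
    (hρR : ρ * R < 1) {u : Fin r → K} (hu : ∀ i, ‖u i‖ ≤ 1) (N : ℕ) :
    ∃ q : MvPolynomial (Fin r) K, MBd ρ q ∧ ∀ v : Fin r → K, (∀ i, ‖v i‖ ≤ R) →
      ‖ev f (∑ i, u i * v i) - eval v q‖ ≤ (ρ * R) ^ N ∧ ‖eval v q‖ ≤ 1 := by
  refine ⟨∑ k ∈ Finset.range N, C (PowerSeries.coeff k f) * linU u ^ k, ?_, ?_⟩
  · refine AApp_MBd_sum _ hρ fun k _ => linU_pow hu hρ k ?_
    have := hf k
    rwa [one_mul] at this
  · intro v hv
    obtain ⟨w, hw⟩ : ∃ w, w = ∑ i, u i * v i := ⟨_, rfl⟩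
    have hwR : ‖w‖ ≤ R := by
      rw [hw]
      refine AApp_sum _ hR fun i _ => ?_
      rw [norm_mul]
      calc ‖u i‖ * ‖v i‖ ≤ 1 * R := mul_le_mul (hu i) (hv i) (norm_nonneg _) zero_le_one
        _ = R := one_mul _
    have hρw : ρ * ‖w‖ ≤ ρ * R := mul_le_mul_of_nonneg_left hwR hρ
    have hρw1 : ρ * ‖w‖ < 1 := lt_of_le_of_lt hρw hρR
    have hρR0 : 0 ≤ ρ * R := mul_nonneg hρ hR
    have hterm : ∀ k, ‖PowerSeries.coeff k f * w ^ k‖ ≤ (ρ * R) ^ k := by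
      intro k
      have h1 := EvB_term (z := w) hf k
      rw [one_mul] at h1
      exact h1.trans (pow_le_pow_left₀ (by positivity) hρw k)
    have hev : eval v (∑ k ∈ Finset.range N, C (PowerSeries.coeff k f) * linU u ^ k) =
        ∑ k ∈ Finset.range N, PowerSeries.coeff k f * w ^ k := by
      rw [map_sum]
      refine Finset.sum_congr rfl fun k _ => ?_
      rw [map_mul, map_pow, eval_C, linU_eval, hw]
    rw [← hw, hev]
    refine ⟨?_, ?_⟩
    · have hs : Summable fun n => PowerSeries.coeff n f * w ^ n := (hf.summable hρ hρw1).of_norm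
      have h1 := hs.sum_add_tsum_nat_add N
      have h2 : ev f w - ∑ k ∈ Finset.range N, PowerSeries.coeff k f * w ^ k =
          ∑' k, PowerSeries.coeff (k + N) f * w ^ (k + N) := by
        unfold ev
        rw [← h1]
        ring
      rw [h2]
      refine IsUltrametricDist.norm_tsum_le_of_forall_le_of_nonneg (by positivity) fun k => ?_
      refine (hterm (k + N)).trans ?_
      exact pow_le_pow_of_le_one hρR0 hρR.le (by omega)
    · refine AApp_sum _ zero_le_one fun k _ => ?_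
      exact (hterm k).trans (pow_le_one₀ hρR0 hρR.le)

theorem norm_phi_le {f : PowerSeries K} {ρ R : ℝ} (hρ : 0 ≤ ρ) (hf : Bd ρ 1 f) (hR : 0 ≤ R)
    (hρR : ρ * R < 1) {u : Fin r → K} (hu : ∀ i, ‖u i‖ ≤ 1) (l : Fin (r + 1) → ℕ)
    {v : Fin r → K} (hv : ∀ i, ‖v i‖ ≤ R) : ‖phi f u l v‖ ≤ 1 := by
  have h0 : ∀ w : K, ‖w‖ ≤ R → ‖ev f w‖ ≤ 1 := fun w hw =>
    norm_ev_le hρ hf (lt_of_le_of_lt (mul_le_mul_of_nonneg_left hw hρ) hρR)
  have hw : ‖∑ i, u i * v i‖ ≤ R := by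
    refine AApp_sum _ hR fun i _ => ?_
    rw [norm_mul]
    calc ‖u i‖ * ‖v i‖ ≤ 1 * R := mul_le_mul (hu i) (hv i) (norm_nonneg _) zero_le_one
      _ = R := one_mul _
  unfold phi
  rw [norm_mul, norm_pow, norm_prod]
  refine mul_le_one₀ (pow_le_one₀ (norm_nonneg _) (h0 _ hw))
    (Finset.prod_nonneg fun _ _ => norm_nonneg _) ?_
  refine Finset.prod_le_one (fun _ _ => norm_nonneg _) fun i _ => ?_
  rw [norm_pow]
  exact pow_le_one₀ (norm_nonneg _) (h0 _ (hv i))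

/-- `AApp_one` for the linear form `∑ u i v i` and for the coordinates `v i`
(`u = Pi.single i 1`), `MBd.mul`, `MBd.pow`, `MBd.prod`; differences of products of elements of norm
`≤ 1` by telescoping. -/
theorem AApp_phi {f : PowerSeries K} {ρ R : ℝ} (hρ : 0 ≤ ρ) (hf : Bd ρ 1 f) (hR : 0 ≤ R)
    (hρR : ρ * R < 1) {u : Fin r → K} (hu : ∀ i, ‖u i‖ ≤ 1) (l : Fin (r + 1) → ℕ) (N : ℕ) :
    ∃ q : MvPolynomial (Fin r) K, MBd ρ q ∧ ∀ v : Fin r → K, (∀ i, ‖v i‖ ≤ R) →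
      ‖phi f u l v - eval v q‖ ≤ (ρ * R) ^ N ∧ ‖eval v q‖ ≤ 1 := by
  classical
  obtain ⟨q₀, hq₀, h₀⟩ := AApp_one hρ hf hR hρR hu N
  have hsing : ∀ i j : Fin r, ‖(Pi.single i (1 : K) : Fin r → K) j‖ ≤ 1 := by
    intro i j
    rw [Pi.single_apply]
    split_ifs
    · rw [norm_one]
    · rw [norm_zero]
      exact zero_le_one
  choose q hq h₁ using fun i : Fin r => AApp_one hρ hf hR hρR (hsing i) N
  have hsum : ∀ (i : Fin r) (v : Fin r → K), ∑ j, (Pi.single i (1 : K) : Fin r → K) j * v j = v i := by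
    intro i v
    rw [Finset.sum_eq_single i]
    · rw [Pi.single_eq_same, one_mul]
    · intro j _ hj
      rw [Pi.single_eq_of_ne hj, zero_mul]
    · intro h
      exact absurd (Finset.mem_univ i) h
  have hδ : 0 ≤ (ρ * R) ^ N := by positivity
  have hev1 : ∀ w : K, ‖w‖ ≤ R → ‖ev f w‖ ≤ 1 := fun w hw =>
    norm_ev_le hρ hf (lt_of_le_of_lt (mul_le_mul_of_nonneg_left hw hρ) hρR)
  refine ⟨q₀ ^ l 0 * ∏ i : Fin r, q i ^ l i.succ, ?_, ?_⟩
  · exact (MBd.pow hρ hq₀ _).mul hρ (MBd.prod hρ _ fun i _ => MBd.pow hρ (hq i) _)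
  · intro v hv
    have hw : ‖∑ i, u i * v i‖ ≤ R := by
      refine AApp_sum _ hR fun i _ => ?_
      rw [norm_mul]
      calc ‖u i‖ * ‖v i‖ ≤ 1 * R := mul_le_mul (hu i) (hv i) (norm_nonneg _) zero_le_one
        _ = R := one_mul _
    obtain ⟨a1, a2⟩ := h₀ v hv
    have b1 : ∀ i, ‖ev f (v i) - eval v (q i)‖ ≤ (ρ * R) ^ N := by
      intro i
      have := (h₁ i v hv).1
      rwa [hsum i v] at this
    have b2 : ∀ i, ‖eval v (q i)‖ ≤ 1 := fun i => (h₁ i v hv).2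
    have e : eval v (q₀ ^ l 0 * ∏ i : Fin r, q i ^ l i.succ) =
        eval v q₀ ^ l 0 * ∏ i : Fin r, eval v (q i) ^ l i.succ := by
      rw [map_mul, map_pow, map_prod]
      congr 1
      exact Finset.prod_congr rfl fun i _ => map_pow _ _ _
    have c1 : ‖∏ i : Fin r, eval v (q i) ^ l i.succ‖ ≤ 1 := by
      rw [norm_prod]
      refine Finset.prod_le_one (fun _ _ => norm_nonneg _) fun i _ => ?_
      rw [norm_pow]
      exact pow_le_one₀ (norm_nonneg _) (b2 i)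
    rw [e]
    refine ⟨?_, ?_⟩
    · unfold phi
      refine AApp_mul ?_ c1 (AApp_pow (hev1 _ hw) a2 a1 hδ _) ?_ hδ
      · rw [norm_pow]
        exact pow_le_one₀ (norm_nonneg _) (hev1 _ hw)
      · refine AApp_prod _ (fun i => ?_) (fun i => ?_) (fun i => ?_) hδ
        · rw [norm_pow]
          exact pow_le_one₀ (norm_nonneg _) (hev1 _ (hv i))
        · rw [norm_pow]
          exact pow_le_one₀ (norm_nonneg _) (b2 i)
        · exact AApp_pow (hev1 _ (hv i)) (b2 i) (b1 i) hδ _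
    · rw [norm_mul, norm_pow]
      exact mul_le_one₀ (pow_le_one₀ (norm_nonneg _) a2) (norm_nonneg _) c1

/-- `det_bound` for the approximations with `N = Θ`, `det_sub_le`. -/
theorem det_phi_le {L : Type*} [Fintype L] [DecidableEq L] {f : PowerSeries K} {ρ R : ℝ}
    (hρ : 0 ≤ ρ) (hf : Bd ρ 1 f) (hR : 0 ≤ R) (hρR : ρ * R < 1) {u : Fin r → K}
    (hu : ∀ i, ‖u i‖ ≤ 1) (l : L → Fin (r + 1) → ℕ) (v : L → Fin r → K)
    (hv : ∀ μ i, ‖v μ i‖ ≤ R) (Θ : ℕ)
    (hΘ : ∀ α : L → (Fin r →₀ ℕ), Function.Injective α → Θ ≤ ∑ l, ∑ i, α l i) :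
    ‖(Matrix.of fun a μ => phi f u (l a) (v μ)).det‖ ≤ (ρ * R) ^ Θ := by
  choose q hq h using fun a : L => AApp_phi hρ hf hR hρR hu (l a) Θ
  have hδ : 0 ≤ (ρ * R) ^ Θ := by positivity
  have h1 := det_sub_le (Matrix.of fun a μ => phi f u (l a) (v μ))
    (Matrix.of fun a μ => eval (v μ) (q a)) hδ
    (fun a μ => norm_phi_le hρ hf hR hρR hu (l a) (hv μ)) (fun a μ => (h a (v μ) (hv μ)).2)
    (fun a μ => (h a (v μ) (hv μ)).1)
  have h2 := det_bound hρ hR hρR.le q hq v hv Θ hΘ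
  have h3 : (Matrix.of fun a μ => phi f u (l a) (v μ)).det =
      ((Matrix.of fun a μ => phi f u (l a) (v μ)).det -
        (Matrix.of fun a μ => eval (v μ) (q a)).det) +
      (Matrix.of fun a μ => eval (v μ) (q a)).det := by ring
  rw [h3]
  exact (IsUltrametricDist.norm_add_le_max _ _).trans (max_le h1 h2)

end Pool.Agent.PTwistG
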