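import Mathlib

/-!
# Counting multi-indices, existence of a nonvanishing minor
-/

namespace Pool.Agent.PTwistG

/-- Let `D = 2 Q ^ r` and `T = D Q`.  At most `T ^ r = D ^ r Q ^ r = D ^ (r + 1) / 2` multi-indices
in `ℕ ^ r` have degree `< T` (all their entries are `< T`), so at least half of the `α l` have degree
`≥ T`. -/
theorem count_degree {r Q : ℕ} (hQ : 1 ≤ Q) {L : Type*} [Fintype L]
    (hL : Fintype.card L = (2 * Q ^ r) ^ (r + 1)) (α : L → (Fin r →₀ ℕ))
    (hα : Function.Injective α) :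
    Fintype.card L * (2 * Q ^ r * Q) ≤ 2 * ∑ l, ∑ i, α l i := by
  classical
  obtain ⟨D, hD⟩ : ∃ D : ℕ, D = 2 * Q ^ r := ⟨_, rfl⟩
  obtain ⟨S, hS⟩ : ∃ S : Finset L, S = Finset.univ.filter fun l => ∑ i, α l i < D * Q := ⟨_, rfl⟩
  have h1 : S.card ≤ (D * Q) ^ r := by
    have h2 : S.card ≤ (Fintype.piFinset fun _ : Fin r => Finset.range (D * Q)).card := by
      refine Finset.card_le_card_of_injOn (fun l => (α l : Fin r → ℕ)) ?_ ?_
      · intro l hl
        rw [hS] at hl
        have h3 := (Finset.mem_filter.1 (Finset.mem_coe.1 hl)).2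
        rw [Finset.mem_coe, Fintype.mem_piFinset]
        intro i
        rw [Finset.mem_range]
        exact lt_of_le_of_lt (Finset.single_le_sum (f := fun i => α l i)
          (fun _ _ => Nat.zero_le _) (Finset.mem_univ i)) h3
      · intro l _ l' _ hll
        exact hα (DFunLike.coe_injective hll)
    rw [Fintype.card_piFinset] at h2
    simpa using h2
  have h2 : 2 * (D * Q) ^ r = Fintype.card L := by
    rw [hL, ← hD, mul_pow]
    have h5 : D ^ (r + 1) = D ^ r * (2 * Q ^ r) := by rw [pow_succ, ← hD]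
    rw [h5]
    ring
  have h3 : S.card + Sᶜ.card = Fintype.card L := Finset.card_add_card_compl S
  have h4 : D * Q * Sᶜ.card ≤ ∑ l, ∑ i, α l i := by
    calc D * Q * Sᶜ.card = ∑ _l ∈ Sᶜ, D * Q := by rw [Finset.sum_const, smul_eq_mul, mul_comm]
      _ ≤ ∑ l ∈ Sᶜ, ∑ i, α l i := by
          refine Finset.sum_le_sum fun l hl => ?_
          rw [Finset.mem_compl, hS, Finset.mem_filter, not_and, not_lt] at hl
          exact hl (Finset.mem_univ l)
      _ ≤ ∑ l, ∑ i, α l i := Finset.sum_le_sum_of_subset (Finset.subset_univ _)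
  rw [← hD]
  have h5 : Fintype.card L ≤ 2 * Sᶜ.card := by omega
  calc Fintype.card L * (D * Q) ≤ 2 * Sᶜ.card * (D * Q) := Nat.mul_le_mul_right _ h5
    _ = 2 * (D * Q * Sᶜ.card) := by ring
    _ ≤ 2 * ∑ l, ∑ i, α l i := Nat.mul_le_mul_left _ h4

/-- The matrix with rows `l ∈ L` and columns `a ∈ B` has independent rows, so its rank is `card L`
and some `card L` of its columns are linearly independent. -/
theorem exists_minor {k : Type*} [Field k] {L : Type*} [Fintype L] [DecidableEq L] {α : Type*}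
    (F : L → α → k) (B : Finset α)
    (hind : ∀ g : L → k, (∀ a ∈ B, ∑ l, g l * F l a = 0) → g = 0) :
    ∃ s : L → α, (∀ l, s l ∈ B) ∧ (Matrix.of fun l μ => F l (s μ)).det ≠ 0 := by
  classical
  obtain ⟨s, hs⟩ : ∃ s : Set (L → k), s = (fun a l => F l a) '' (B : Set α) := ⟨_, rfl⟩
  have htop : Submodule.span k s = ⊤ := by
    by_contra hne
    obtain ⟨f, hf0, hf⟩ := Submodule.exists_le_ker_of_lt_top _ (lt_top_iff_ne_top.2 hne)
    apply hf0
    have h1 : (fun l => f (Pi.single l 1)) = 0 := by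
      apply hind
      intro a ha
      have h2 : f (fun l => F l a) = 0 := by
        rw [← LinearMap.mem_ker]
        exact hf (Submodule.subset_span (by rw [hs]; exact ⟨a, ha, rfl⟩))
      rw [← h2, LinearMap.pi_apply_eq_sum_univ f (fun l => F l a)]
      refine Finset.sum_congr rfl fun l _ => ?_
      rw [smul_eq_mul, mul_comm]
      congr 2
      funext j
      rw [Pi.single_apply]
      by_cases h : l = j
      · rw [if_pos h, if_pos h.symm]
      · rw [if_neg h, if_neg (fun h' => h h'.symm)]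
    refine LinearMap.pi_ext' fun l => LinearMap.ext_ring ?_
    simpa using congrFun h1 l
  have hmem : ∀ v ∈ s, ∃ a ∈ B, (fun l => F l a) = v := by
    rw [hs]
    rintro v ⟨a, ha, rfl⟩
    exact ⟨a, ha, rfl⟩
  obtain ⟨f, hf1, -, hf2⟩ := Submodule.exists_fun_fin_finrank_span_eq k s
  have hcard : Module.finrank k (Submodule.span k s) = Fintype.card L := by
    rw [htop, finrank_top, Module.finrank_pi]
  obtain ⟨e⟩ : Nonempty (L ≃ Fin (Module.finrank k (Submodule.span k s))) := by
    rw [hcard]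
    exact ⟨Fintype.equivFin L⟩
  have h3 : ∀ l : L, ∃ a ∈ B, (fun l' => F l' a) = f (e l) := by
    intro l
    exact hmem _ (hf1 (e l))
  choose t ht1 ht2 using h3
  refine ⟨t, ht1, ?_⟩
  have h6 : LinearIndependent k (fun μ => (Matrix.of fun l μ => F l (t μ)).col μ) := by
    have h7 : (fun μ => (Matrix.of fun l μ => F l (t μ)).col μ) = f ∘ e := by
      funext μ
      exact ht2 μ
    rw [h7]
    exact hf2.comp _ e.injective
  have h8 := Matrix.linearIndependent_cols_iff_isUnit.1 h6
  rw [Matrix.isUnit_iff_isUnit_det] at h8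
  exact h8.ne_zero

end Pool.Agent.PTwistG
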