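import Mathlib

/-!
# Upper bound for a determinant of values of polynomials in several variables
-/

namespace Pool.Agent.PTwistG

open MvPolynomial

variable {K : Type*} [NormedField K] [IsUltrametricDist K] {r : ℕ}

/-- `‖coeff α q‖ ≤ ρ ^ |α|` -/
def MBd (ρ : ℝ) (q : MvPolynomial (Fin r) K) : Prop :=
  ∀ α : Fin r →₀ ℕ, ‖coeff α q‖ ≤ ρ ^ (∑ i, α i)

theorem MBd.one {ρ : ℝ} (hρ : 0 ≤ ρ) : MBd ρ (1 : MvPolynomial (Fin r) K) := by
  intro α
  rw [MvPolynomial.coeff_one]
  split_ifs with h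
  · subst h
    simp
  · rw [norm_zero]
    positivity

theorem MBd.mul {ρ : ℝ} (hρ : 0 ≤ ρ) {q q' : MvPolynomial (Fin r) K} (h : MBd ρ q)
    (h' : MBd ρ q') : MBd ρ (q * q') := by
  intro α
  rw [MvPolynomial.coeff_mul]
  apply IsUltrametricDist.norm_sum_le_of_forall_le_of_nonneg (by positivity)
  rintro ⟨a, b⟩ hab
  rw [Finset.HasAntidiagonal.mem_antidiagonal] at hab
  rw [norm_mul, ← hab]
  have : ρ ^ (∑ i, (a + b) i) = ρ ^ (∑ i, a i) * ρ ^ (∑ i, b i) := by
    rw [← pow_add, ← Finset.sum_add_distrib]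
    rfl
  simp only at hab ⊢
  rw [this]
  exact mul_le_mul (h a) (h' b) (norm_nonneg _) (by positivity)

theorem MBd.pow {ρ : ℝ} (hρ : 0 ≤ ρ) {q : MvPolynomial (Fin r) K} (h : MBd ρ q) (n : ℕ) :
    MBd ρ (q ^ n) := by
  induction n with
  | zero => rw [pow_zero]; exact MBd.one hρ
  | succ n ih => rw [pow_succ]; exact MBd.mul hρ ih h

theorem MBd.prod {ρ : ℝ} (hρ : 0 ≤ ρ) {ι : Type*} (t : Finset ι)
    {q : ι → MvPolynomial (Fin r) K} (h : ∀ i ∈ t, MBd ρ (q i)) : MBd ρ (∏ i ∈ t, q i) := by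
  classical
  induction t using Finset.induction_on with
  | empty => rw [Finset.prod_empty]; exact MBd.one hρ
  | insert a s ha ih =>
    rw [Finset.prod_insert ha]
    exact MBd.mul hρ (h a (Finset.mem_insert_self a s))
      (ih fun i hi => h i (Finset.mem_insert_of_mem hi))

/-- differences of products -/
theorem ADet_prod_sub {ι : Type*} (t : Finset ι) (a b : ι → K) {δ : ℝ} (hδ : 0 ≤ δ)
    (ha : ∀ i ∈ t, ‖a i‖ ≤ 1) (hb : ∀ i ∈ t, ‖b i‖ ≤ 1) (h : ∀ i ∈ t, ‖a i - b i‖ ≤ δ) :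
    ‖∏ i ∈ t, a i - ∏ i ∈ t, b i‖ ≤ δ := by
  classical
  induction t using Finset.induction_on with
  | empty => simpa using hδ
  | insert c s hc ih =>
    rw [Finset.prod_insert hc, Finset.prod_insert hc]
    have e : a c * ∏ i ∈ s, a i - b c * ∏ i ∈ s, b i
        = (a c - b c) * ∏ i ∈ s, a i + b c * (∏ i ∈ s, a i - ∏ i ∈ s, b i) := by ring
    rw [e]
    refine (IsUltrametricDist.norm_add_le_max _ _).trans (max_le ?_ ?_)
    · rw [norm_mul, norm_prod]
      have h1 : ∏ i ∈ s, ‖a i‖ ≤ 1 :=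
        Finset.prod_le_one (fun i _ => norm_nonneg _)
          fun i hi => ha i (Finset.mem_insert_of_mem hi)
      calc ‖a c - b c‖ * ∏ i ∈ s, ‖a i‖ ≤ δ * 1 :=
            mul_le_mul (h c (Finset.mem_insert_self c s)) h1
              (Finset.prod_nonneg fun i _ => norm_nonneg _) hδ
        _ = δ := mul_one _
    · rw [norm_mul]
      calc ‖b c‖ * ‖∏ i ∈ s, a i - ∏ i ∈ s, b i‖ ≤ 1 * δ :=
            mul_le_mul (hb c (Finset.mem_insert_self c s))
              (ih (fun i hi => ha i (Finset.mem_insert_of_mem hi))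
                (fun i hi => hb i (Finset.mem_insert_of_mem hi))
                (fun i hi => h i (Finset.mem_insert_of_mem hi))) (norm_nonneg _) zero_le_one
        _ = δ := one_mul _

theorem ADet_unit (x : K) (e : ℤˣ) : ‖((e : ℤ) : K) * x‖ = ‖x‖ := by
  rcases Int.units_eq_one_or e with h | h <;> simp [h]

/-- Determinants over an ultrametric field: if the entries have norm `≤ 1` and differ by at most
`δ` then the determinants differ by at most `δ` (telescoping of the products). -/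
theorem det_sub_le {L : Type*} [Fintype L] [DecidableEq L] (A B : Matrix L L K) {δ : ℝ}
    (hδ : 0 ≤ δ) (hA : ∀ i j, ‖A i j‖ ≤ 1) (hB : ∀ i j, ‖B i j‖ ≤ 1)
    (h : ∀ i j, ‖A i j - B i j‖ ≤ δ) : ‖A.det - B.det‖ ≤ δ := by
  rw [Matrix.det_apply', Matrix.det_apply', ← Finset.sum_sub_distrib]
  apply IsUltrametricDist.norm_sum_le_of_forall_le_of_nonneg hδ
  intro σ _
  rw [← mul_sub, ADet_unit]
  exact ADet_prod_sub _ _ _ hδ (fun i _ => hA _ _) (fun i _ => hB _ _) (fun i _ => h _ _)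

/-- norm of a determinant of monomials -/
theorem ADet_mono {L : Type*} [Fintype L] [DecidableEq L] {R : ℝ} (hR : 0 ≤ R)
    (v : L → Fin r → K) (hv : ∀ μ i, ‖v μ i‖ ≤ R) (α : L → Fin r →₀ ℕ) :
    ‖(Matrix.of fun l μ => ∏ i, v μ i ^ α l i).det‖ ≤ R ^ (∑ l, ∑ i, α l i) := by
  rw [Matrix.det_apply']
  apply IsUltrametricDist.norm_sum_le_of_forall_le_of_nonneg (by positivity)
  intro σ _
  rw [ADet_unit, norm_prod]
  have e : ∑ l, ∑ i, α l i = ∑ l, ∑ i, α (σ l) i :=
    (Equiv.sum_comp σ fun l => ∑ i, α l i).symm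
  rw [e, ← Finset.prod_pow_eq_pow_sum]
  apply Finset.prod_le_prod (fun i _ => norm_nonneg _)
  intro l _
  rw [Matrix.of_apply, norm_prod, ← Finset.prod_pow_eq_pow_sum]
  apply Finset.prod_le_prod (fun i _ => norm_nonneg _)
  intro i _
  rw [norm_pow]
  exact pow_le_pow_left₀ (norm_nonneg _) (hv _ _) _

/-- Expand the determinant multilinearly in the rows,
`row l = ∑ α, coeff α (q l) • (v μ ^ α)_μ`: it is the sum over all maps `α` from `L` to the
multi-indices of `∏ l, coeff (α l) (q l) * det (v μ ^ (α l))`; the last determinant is zero if `α`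
is not injective (two equal rows), and otherwise the term has norm at most
`∏ ρ ^ |α l| R ^ |α l| ≤ (ρ R) ^ Θ`. -/
theorem det_bound {L : Type*} [Fintype L] [DecidableEq L] {ρ R : ℝ} (hρ : 0 ≤ ρ) (hR : 0 ≤ R)
    (hρR : ρ * R ≤ 1) (q : L → MvPolynomial (Fin r) K) (hq : ∀ l, MBd ρ (q l))
    (v : L → Fin r → K) (hv : ∀ μ i, ‖v μ i‖ ≤ R) (Θ : ℕ)
    (hΘ : ∀ α : L → (Fin r →₀ ℕ), Function.Injective α → Θ ≤ ∑ l, ∑ i, α l i) :
    ‖(Matrix.of fun l μ => eval (v μ) (q l)).det‖ ≤ (ρ * R) ^ Θ := by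
  have h0 : (Matrix.of fun l μ => eval (v μ) (q l))
      = fun l => ∑ α ∈ (q l).support, (coeff α (q l)) • (fun μ => ∏ i, v μ i ^ α i) := by
    funext l μ
    rw [Matrix.of_apply, MvPolynomial.eval_eq', Finset.sum_apply]
    rfl
  have h1 : (Matrix.of fun l μ => eval (v μ) (q l)).det
      = ∑ α ∈ Fintype.piFinset (fun l => (q l).support),
        (∏ l, coeff (α l) (q l)) • (Matrix.of fun l μ => ∏ i, v μ i ^ α l i).det := by
    have := (Matrix.detRowAlternating (R := K) (n := L)).toMultilinearMap.map_sum_finset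
      (fun l (α : Fin r →₀ ℕ) => (coeff α (q l)) • (fun μ : L => ∏ i, v μ i ^ α i))
      (fun l => (q l).support)
    rw [h0]
    refine Eq.trans this ?_
    apply Finset.sum_congr rfl
    intro α _
    rw [MultilinearMap.map_smul_univ]
    rfl
  rw [h1]
  apply IsUltrametricDist.norm_sum_le_of_forall_le_of_nonneg (by positivity)
  intro α _
  by_cases hα : Function.Injective α
  · rw [norm_smul, norm_prod]
    have e1 : ∏ l, ‖coeff (α l) (q l)‖ ≤ ρ ^ (∑ l, ∑ i, α l i) := by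
      rw [← Finset.prod_pow_eq_pow_sum]
      exact Finset.prod_le_prod (fun i _ => norm_nonneg _) fun l _ => hq l _
    calc (∏ l, ‖coeff (α l) (q l)‖) * ‖(Matrix.of fun l μ => ∏ i, v μ i ^ α l i).det‖
        ≤ ρ ^ (∑ l, ∑ i, α l i) * R ^ (∑ l, ∑ i, α l i) :=
          mul_le_mul e1 (ADet_mono hR v hv α) (norm_nonneg _) (by positivity)
      _ = (ρ * R) ^ (∑ l, ∑ i, α l i) := by rw [mul_pow]
      _ ≤ (ρ * R) ^ Θ := pow_le_pow_of_le_one (by positivity) hρR (hΘ α hα)
  · have hz : (Matrix.of fun l μ => ∏ i, v μ i ^ α l i).det = 0 := by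
      rw [Function.Injective] at hα
      push Not at hα
      obtain ⟨a, b, hab, hne⟩ := hα
      apply Matrix.det_zero_of_row_eq hne
      funext μ
      rw [Matrix.of_apply, Matrix.of_apply, hab]
    rw [hz, smul_zero, norm_zero]
    positivity

end Pool.Agent.PTwistG
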