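import Pool.Agent.W_52423f_h30.CoreB

/-!
# Lower bound for a determinant of monomials
-/

namespace Pool.Agent.PTwistG

open NumberField Pool.Agent.PTwist

variable {M : Type*} [Field M] [NumberField M]

theorem ALio_house_le {α : M} {B : ℝ} (hB : 0 ≤ B) (h : ∀ τ : M →+* ℂ, ‖τ α‖ ≤ B) :
    house α ≤ B := by
  unfold house
  refine (pi_norm_le_iff_of_nonneg hB).mpr fun τ => ?_
  rw [canonicalEmbedding.apply_at]
  exact h τ

/-- If `b i x i` are integral with natural numbers `b i ≤ H`, and all conjugates of the `x i` are at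
most `H` (`1 ≤ H`), then `(∏ b i) ^ D * ∏ x i ^ l i` (`l i < D`) is integral with house
`≤ H ^ (2 m D)`. -/
theorem ALio_mono {m D : ℕ} {x : Fin m → M} {b : Fin m → ℕ} {H : ℝ} (hH : 1 ≤ H)
    (hb : ∀ i, (b i : ℝ) ≤ H) (hi : ∀ i, IsIntegral ℤ ((b i : M) * x i))
    (hx : ∀ i, ∀ τ : M →+* ℂ, ‖τ (x i)‖ ≤ H) {l : Fin m → ℕ} (hl : ∀ i, l i < D) :
    IsIntegral ℤ (((∏ i, b i : ℕ) : M) ^ D * ∏ i, x i ^ l i) ∧
      house (((∏ i, b i : ℕ) : M) ^ D * ∏ i, x i ^ l i) ≤ H ^ (2 * m * D) := by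
  have h1 : ((∏ i, b i : ℕ) : M) ^ D * ∏ i, x i ^ l i =
      ∏ i, ((b i : M) ^ (D - l i) * ((b i : M) * x i) ^ l i) := by
    rw [Nat.cast_prod, ← Finset.prod_pow, ← Finset.prod_mul_distrib]
    refine Finset.prod_congr rfl fun i _ => ?_
    rw [mul_pow, ← mul_assoc, ← pow_add, Nat.sub_add_cancel (hl i).le]
  constructor
  · rw [h1]
    refine IsIntegral.prod _ fun i _ => ?_
    refine IsIntegral.mul (IsIntegral.pow ?_ _) ((hi i).pow _)
    exact map_natCast (algebraMap ℤ M) (b i) ▸ isIntegral_algebraMap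
  · refine ALio_house_le (by positivity) fun τ => ?_
    rw [map_mul, map_pow, map_natCast, map_prod, norm_mul, norm_pow, norm_prod, Nat.cast_prod,
      norm_prod, ← Finset.prod_pow, ← Finset.prod_mul_distrib]
    calc ∏ i, (‖((b i : ℕ) : ℂ)‖ ^ D * ‖τ (x i ^ l i)‖) ≤ ∏ _i : Fin m, H ^ (2 * D) := by
          refine Finset.prod_le_prod (fun i _ => by positivity) fun i _ => ?_
          rw [Complex.norm_natCast, map_pow, norm_pow, two_mul, pow_add]
          refine mul_le_mul (pow_le_pow_left₀ (Nat.cast_nonneg _) (hb i) _) ?_ (by positivity)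
            (by positivity)
          exact (pow_le_pow_left₀ (norm_nonneg _) (hx i τ) _).trans
            (pow_le_pow_right₀ hH (hl i).le)
      _ = H ^ (2 * m * D) := by
          rw [Finset.prod_const, Finset.card_univ, Fintype.card_fin, ← pow_mul]
          congr 1
          ring

/-- determinants of matrices with integral entries and house `≤ B`, `1 ≤ B` -/
theorem ALio_det {L : Type*} [Fintype L] [DecidableEq L] (A : Matrix L L M) {B : ℝ} (hB : 0 ≤ B)
    (hA : ∀ i j, IsIntegral ℤ (A i j) ∧ house (A i j) ≤ B) :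
    IsIntegral ℤ A.det ∧ house A.det ≤ (Fintype.card L).factorial * B ^ Fintype.card L := by
  refine ⟨IsIntegral.det fun i j => (hA i j).1, ?_⟩
  refine ALio_house_le (by positivity) fun τ => ?_
  rw [RingHom.map_det, Matrix.det_apply]
  refine (norm_sum_le _ _).trans ?_
  calc ∑ σ : Equiv.Perm L, ‖Equiv.Perm.sign σ • ∏ i, (τ.mapMatrix A) (σ i) i‖ ≤
      ∑ _σ : Equiv.Perm L, B ^ Fintype.card L := by
        refine Finset.sum_le_sum fun σ _ => ?_
        have h1 : ‖Equiv.Perm.sign σ • ∏ i, (τ.mapMatrix A) (σ i) i‖ =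
            ‖∏ i, (τ.mapMatrix A) (σ i) i‖ := by
          rcases Int.units_eq_one_or (Equiv.Perm.sign σ) with h | h <;> rw [h] <;> simp
        rw [h1, norm_prod]
        calc ∏ i, ‖(τ.mapMatrix A) (σ i) i‖ ≤ ∏ _i : L, B := by
              refine Finset.prod_le_prod (fun i _ => norm_nonneg _) fun i _ => ?_
              rw [RingHom.mapMatrix_apply, Matrix.map_apply]
              exact (norm_embedding_le_house _ τ).trans (hA _ _).2
          _ = B ^ Fintype.card L := by rw [Finset.prod_const, Finset.card_univ]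
    _ = (Fintype.card L).factorial * B ^ Fintype.card L := by
        rw [Finset.sum_const, Finset.card_univ, Fintype.card_perm, nsmul_eq_mul]

theorem ALio_fact {N D m : ℕ} (h : N ≤ D ^ m) :
    (N.factorial : ℝ) ≤ Real.exp (N * (m * D)) := by
  have h1 : (N.factorial : ℝ) ≤ (N : ℝ) ^ N := by exact_mod_cast N.factorial_le_pow
  have h2 : (N : ℝ) ≤ Real.exp (m * D) := by
    have h3 : (N : ℝ) ≤ (D : ℝ) ^ m := by exact_mod_cast h
    have h4 : (D : ℝ) ≤ Real.exp D := by
      have := Real.add_one_le_exp (D : ℝ)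
      linarith
    calc (N : ℝ) ≤ (D : ℝ) ^ m := h3
      _ ≤ Real.exp D ^ m := pow_le_pow_left₀ (Nat.cast_nonneg _) h4 _
      _ = Real.exp (m * D) := by rw [← Real.exp_nat_mul]
  calc (N.factorial : ℝ) ≤ (N : ℝ) ^ N := h1
    _ ≤ Real.exp (m * D) ^ N := pow_le_pow_left₀ (Nat.cast_nonneg _) h2 _
    _ = Real.exp (N * (m * D)) := by rw [← Real.exp_nat_mul]

theorem ALio_sq {n S : ℕ} {s : Fin n → ℤ} (hs : ∀ j, |s j| ≤ S) :
    ∑ j, (s j : ℝ) ^ 2 ≤ n * (S : ℝ) ^ 2 := by
  calc ∑ j, (s j : ℝ) ^ 2 ≤ ∑ _j : Fin n, (S : ℝ) ^ 2 := by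
        refine Finset.sum_le_sum fun j _ => ?_
        rw [← sq_abs]
        refine pow_le_pow_left₀ (abs_nonneg _) ?_ _
        exact_mod_cast hs j
    _ = n * (S : ℝ) ^ 2 := by rw [Finset.sum_const, Finset.card_univ, Fintype.card_fin, nsmul_eq_mul]

variable {K : Type*} [NormedField K] [IsUltrametricDist K]

/-- Liouville inequality for the determinant.  Multiply the column `μ` by
`(∏ b i (s μ)) ^ D`, an integer `≤ exp (..)`, of norm `≤ 1` in `K`; the determinant `η` obtained is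
integral with `log house η ≤ log (card L)! + card L * 2 m D c (1 + n S ^ 2)`, where
`log (card L)! ≤ card L * log (card L) ≤ card L * m D` (`card L ≤ D ^ m`).  Then `liouville`. -/
theorem det_lower (p : ℕ) [Fact p.Prime] [NormedAlgebra ℚ_[p] K] {m n : ℕ} {c : ℝ} (hc : 0 ≤ c)
    {X : Fin m → (Fin n → ℤ) → M} (hX : ∀ i, Grow c (X i)) (ι : M →+* K) :
    ∃ C : ℝ, 0 ≤ C ∧ ∀ (D S : ℕ) (L : Type) [Fintype L] [DecidableEq L] (l : L → Fin m → ℕ),
      (∀ a i, l a i < D) → Fintype.card L ≤ D ^ m → ∀ s : L → Fin n → ℤ, (∀ a j, |s a j| ≤ S) →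
        (Matrix.of fun a μ => ∏ i, X i (s μ) ^ l a i).det ≠ 0 →
        1 ≤ ‖ι (Matrix.of fun a μ => ∏ i, X i (s μ) ^ l a i).det‖ *
          Real.exp (C * (Fintype.card L * D * (1 + (S : ℝ) ^ 2))) := by
  refine ⟨Module.finrank ℚ M * (m + 2 * m * c * (n + 1)), by positivity, ?_⟩
  intro D S L _ _ l hl hcard s hs hdet
  choose b hb0 hbe hbi hbt using hX
  set H : ℝ := Real.exp (c * (1 + n * (S : ℝ) ^ 2)) with hH
  have hH1 : 1 ≤ H := by
    rw [hH]
    exact Real.one_le_exp (by positivity)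
  have hHs : ∀ μ, Real.exp (c * (1 + ∑ j, ((s μ j : ℤ) : ℝ) ^ 2)) ≤ H := by
    intro μ
    rw [hH, Real.exp_le_exp]
    refine mul_le_mul_of_nonneg_left ?_ hc
    have := ALio_sq (hs μ)
    linarith
  obtain ⟨T, hT⟩ : ∃ T : L → ℕ, ∀ μ, T μ = (∏ i, b i (s μ)) ^ D := ⟨_, fun μ => rfl⟩
  have hT0 : ∀ μ, T μ ≠ 0 := by
    intro μ
    rw [hT]
    exact pow_ne_zero _ (Finset.prod_ne_zero_iff.mpr fun i _ => hb0 i _)
  set A : Matrix L L M := Matrix.of fun a μ => ∏ i, X i (s μ) ^ l a i with hA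
  have hA' : ∀ a μ, IsIntegral ℤ ((Matrix.of fun a μ => ((T μ : ℕ) : M) * A a μ) a μ) ∧
      house ((Matrix.of fun a μ => ((T μ : ℕ) : M) * A a μ) a μ) ≤ H ^ (2 * m * D) := by
    intro a μ
    have h1 := ALio_mono (M := M) (x := fun i => X i (s μ)) (b := fun i => b i (s μ)) hH1
      (fun i => (hbe i (s μ)).trans (hHs μ)) (fun i => hbi i (s μ))
      (fun i τ => (hbt i (s μ) τ).trans (hHs μ)) (hl a)
    have h2 : (Matrix.of fun a μ => ((T μ : ℕ) : M) * A a μ) a μ =
        ((∏ i, b i (s μ) : ℕ) : M) ^ D * ∏ i, X i (s μ) ^ l a i := by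
      rw [Matrix.of_apply, hT, hA, Matrix.of_apply, Nat.cast_pow]
    rw [h2]
    exact h1
  obtain ⟨hint, hhouse⟩ := ALio_det _ (by positivity) hA'
  have hdet' : (Matrix.of fun a μ => ((T μ : ℕ) : M) * A a μ).det =
      (∏ μ, ((T μ : ℕ) : M)) * A.det := Matrix.det_mul_row _ _
  have hne : (Matrix.of fun a μ => ((T μ : ℕ) : M) * A a μ).det ≠ 0 := by
    rw [hdet']
    exact mul_ne_zero (Finset.prod_ne_zero_iff.mpr fun μ _ => Nat.cast_ne_zero.mpr (hT0 μ)) hdet
  have h1 := liouville p ι hint hne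
  have h2 : ‖ι (Matrix.of fun a μ => ((T μ : ℕ) : M) * A a μ).det‖ ≤ ‖ι A.det‖ := by
    rw [hdet', map_mul, norm_mul, ← Nat.cast_prod, map_natCast]
    refine mul_le_of_le_one_left (norm_nonneg _) ?_
    exact IsUltrametricDist.norm_natCast_le_one K _
  set N := Fintype.card L with hN
  have h3 : house (Matrix.of fun a μ => ((T μ : ℕ) : M) * A a μ).det ^ Module.finrank ℚ M ≤
      Real.exp (Module.finrank ℚ M * (m + 2 * m * c * (n + 1)) *
        (N * D * (1 + (S : ℝ) ^ 2))) := by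
    calc house (Matrix.of fun a μ => ((T μ : ℕ) : M) * A a μ).det ^ Module.finrank ℚ M ≤
        (Real.exp (N * (m * D)) * (H ^ (2 * m * D)) ^ N) ^ Module.finrank ℚ M := by
          refine pow_le_pow_left₀ (house_nonneg _) (hhouse.trans ?_) _
          exact mul_le_mul_of_nonneg_right (ALio_fact hcard) (by positivity)
      _ = Real.exp (Module.finrank ℚ M * (N * (m * D) + N * ((2 * m * D) *
          (c * (1 + n * (S : ℝ) ^ 2))))) := by
          rw [hH, ← Real.exp_nat_mul, ← Real.exp_nat_mul, ← Real.exp_add, ← Real.exp_nat_mul]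
          push_cast
          rfl
      _ ≤ Real.exp (Module.finrank ℚ M * ((m + 2 * m * c * (n + 1)) *
          (N * D * (1 + (S : ℝ) ^ 2)))) := by
          rw [Real.exp_le_exp]
          refine mul_le_mul_of_nonneg_left ?_ (Nat.cast_nonneg _)
          have e1 : (N : ℝ) * (m * D) ≤ (N * D * (1 + (S : ℝ) ^ 2)) * m := by
            have : 0 ≤ (N : ℝ) * (m * D) * (S : ℝ) ^ 2 := by positivity
            nlinarith
          have e2 : (1 + n * (S : ℝ) ^ 2) ≤ (n + 1) * (1 + (S : ℝ) ^ 2) := by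
            have h5 : (0 : ℝ) ≤ n := Nat.cast_nonneg _
            have h6 : 0 ≤ (S : ℝ) ^ 2 := sq_nonneg _
            nlinarith
          have e3 : (N : ℝ) * ((2 * m * D) * (c * (1 + n * (S : ℝ) ^ 2))) ≤
              (N : ℝ) * ((2 * m * D) * (c * ((n + 1) * (1 + (S : ℝ) ^ 2)))) := by
            refine mul_le_mul_of_nonneg_left ?_ (Nat.cast_nonneg N)
            refine mul_le_mul_of_nonneg_left ?_ (by positivity)
            exact mul_le_mul_of_nonneg_left e2 hc
          calc (N : ℝ) * (m * D) + N * ((2 * m * D) * (c * (1 + n * (S : ℝ) ^ 2))) ≤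
              (N * D * (1 + (S : ℝ) ^ 2)) * m +
                (N : ℝ) * ((2 * m * D) * (c * ((n + 1) * (1 + (S : ℝ) ^ 2)))) := add_le_add e1 e3
            _ = (m + 2 * m * c * (n + 1)) * (N * D * (1 + (S : ℝ) ^ 2)) := by ring
      _ = _ := by
          congr 1
          ring
  exact h1.trans (mul_le_mul h2 h3 (pow_nonneg (house_nonneg _) _) (norm_nonneg _))

end Pool.Agent.PTwistG
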