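import Pool.Agent.W_52423g_h30.ZMDef
import Pool.Agent.W_52423g_h30.ACnt

/-!
# A nonvanishing minor of the interpolation matrix
-/

namespace Pool.Agent.PTwistG

open WeierstrassCurve WeierstrassCurve.Affine MvPolynomial Pool.Agent.PTwist

universe u

variable {k : Type u} [Field k] [DecidableEq k] (V : WeierstrassCurve k) {m n : ℕ}

/-- Let `G = ∑ l, g l * ∏ T i ^ (D - 1 - l i)`; it is not zero, of degree `≤ D - 1` in each
variable, and `G(x) = ∏ x i ^ (D - 1) * ∑ l, g l * ∏ (x i)⁻¹ ^ l i` if all `x i ≠ 0`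
(`iX = (xco)⁻¹`). -/
theorem AMin_poly {D : ℕ} (g : (Fin m → Fin D) → k) (hg : g ≠ 0) :
    ∃ G : MvPolynomial (Fin m) k, G ≠ 0 ∧ (∀ i, degreeOf i G ≤ D) ∧
      ∀ Q : Fin m → V.toAffine.Point, (∀ i, xco V (Q i) ≠ 0) →
        ∑ l, g l * ∏ i, iX V (Q i) ^ (l i : ℕ) = 0 → eval (fun i => xco V (Q i)) G = 0 := by
  classical
  obtain ⟨e, he⟩ : ∃ e : (Fin m → Fin D) → (Fin m →₀ ℕ),
      e = fun l => Finsupp.equivFunOnFinite.symm fun i => D - 1 - (l i : ℕ) := ⟨_, rfl⟩
  have he' : ∀ l i, e l i = D - 1 - (l i : ℕ) := by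
    intro l i
    rw [he]
    rfl
  have hinj : Function.Injective e := by
    intro l l' h
    funext i
    have h1 := DFunLike.congr_fun h i
    rw [he', he'] at h1
    have h2 := (l i).2
    have h3 := (l' i).2
    exact Fin.ext (by omega)
  obtain ⟨G, hG⟩ : ∃ G : MvPolynomial (Fin m) k, G = ∑ l, monomial (e l) (g l) := ⟨_, rfl⟩
  have hco : ∀ l, coeff (e l) G = g l := by
    intro l
    rw [hG, coeff_sum, Finset.sum_eq_single l]
    · rw [coeff_monomial, if_pos rfl]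
    · intro l' _ hl'
      rw [coeff_monomial, if_neg fun h => hl' (hinj h)]
    · intro h
      exact absurd (Finset.mem_univ l) h
  refine ⟨G, ?_, ?_, ?_⟩
  · intro h0
    apply hg
    funext l
    rw [← hco l, h0, coeff_zero]
    rfl
  · intro i
    rw [degreeOf_le_iff]
    intro α hα
    rw [hG, mem_support_iff, coeff_sum] at hα
    obtain ⟨l, _, hl⟩ := Finset.exists_ne_zero_of_sum_ne_zero hα
    rw [coeff_monomial] at hl
    split_ifs at hl with h
    · rw [← h, he']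
      omega
    · exact absurd rfl hl
  · intro Q hQ hsum
    have h1 : eval (fun i => xco V (Q i)) G =
        (∏ i, xco V (Q i) ^ (D - 1)) * ∑ l, g l * ∏ i, iX V (Q i) ^ (l i : ℕ) := by
      rw [hG, map_sum, Finset.mul_sum]
      refine Finset.sum_congr rfl fun l _ => ?_
      rw [eval_monomial, Finsupp.prod_pow]
      have h2 : ∏ i, xco V (Q i) ^ (e l) i =
          (∏ i, xco V (Q i) ^ (D - 1)) * ∏ i, iX V (Q i) ^ (l i : ℕ) := by
        rw [← Finset.prod_mul_distrib]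
        refine Finset.prod_congr rfl fun i _ => ?_
        have h3 : iX V (Q i) = (xco V (Q i))⁻¹ := by
          cases hq : Q i with
          | zero =>
            exact absurd (by rw [hq]; rfl) (hQ i)
          | some x y h => rfl
        have h4 := (l i).2
        rw [he', h3, inv_pow, pow_sub₀ _ (hQ i) (by omega)]
      rw [h2]
      ring
    rw [h1, hsum, mul_zero]

/-- the box `|s j| ≤ S` without the origin, it has `(2 S + 1) ^ n - 1 ≥ S ^ n` elements -/
theorem exists_box (n S : ℕ) (hn : 0 < n) : ∃ B : Finset (Fin n → ℤ),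
    (∀ s, s ∈ B ↔ s ≠ 0 ∧ ∀ j, |s j| ≤ S) ∧ S ^ n ≤ B.card := by
  classical
  refine ⟨(Fintype.piFinset fun _ : Fin n => Finset.Icc (-(S : ℤ)) S).erase 0, ?_, ?_⟩
  · intro s
    rw [Finset.mem_erase, Fintype.mem_piFinset]
    refine and_congr_right fun _ => forall_congr' fun j => ?_
    rw [Finset.mem_Icc, abs_le]
  · have h0 : (0 : Fin n → ℤ) ∈ Fintype.piFinset fun _ : Fin n => Finset.Icc (-(S : ℤ)) S := by
      rw [Fintype.mem_piFinset]
      intro j
      rw [Finset.mem_Icc]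
      simp
    rw [Finset.card_erase_of_mem h0, Fintype.card_piFinset_const, Int.card_Icc]
    have h1 : ((S : ℤ) + 1 - -(S : ℤ)).toNat = 2 * S + 1 := by omega
    rw [h1]
    have h2 : S ^ n < (S + 1) ^ n := Nat.pow_lt_pow_left (Nat.lt_succ_self S) (by omega)
    have h3 : (S + 1) ^ n ≤ (2 * S + 1) ^ n := Nat.pow_le_pow_left (by omega) n
    omega

/-- The zero estimate `ZE γ c 0` says that the rows of the matrix
`(∏ iX(γ_s i) ^ l i)_(l, s)`, `s` in the box, are independent for `D ≤ S ^ c` and `S` large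
(`AMin_poly`); then `exists_minor`. -/
theorem exists_det_ne_zero (γ : (Fin n → ℤ) →+ (Fin m → V.toAffine.Point)) (hn : 0 < n)
    (hx : ∀ s, s ≠ 0 → ∀ i, xco V (γ s i) ≠ 0) {c : ℕ} (hZ : ZE V γ c 0) :
    ∃ S₀ : ℕ, ∀ S : ℕ, S₀ ≤ S → ∀ D : ℕ, D ≤ S ^ c →
      ∃ s : (Fin m → Fin D) → Fin n → ℤ, (∀ l, s l ≠ 0 ∧ ∀ j, |s l j| ≤ S) ∧
        (Matrix.of fun (l : Fin m → Fin D) μ => ∏ i, iX V (γ (s μ) i) ^ (l i : ℕ)).det ≠ 0 := by
  obtain ⟨S₀, hS₀⟩ := hZ
  refine ⟨S₀, fun S hS D hD => ?_⟩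
  obtain ⟨B, hB, hBc⟩ := exists_box n S hn
  obtain ⟨s, hs, hdet⟩ := exists_minor
    (fun (l : Fin m → Fin D) (s : Fin n → ℤ) => ∏ i, iX V (γ s i) ^ (l i : ℕ)) B (by
      intro g hg
      by_contra hg0
      obtain ⟨G, hG0, hGd, hG⟩ := AMin_poly V g hg0
      refine hS₀ S hS G hG0 (fun i => (hGd i).trans hD) B ?_ ?_
      · intro s hs
        obtain ⟨h1, h2⟩ := (hB s).1 hs
        exact ⟨h1, h2, hG (fun i => γ s i) (hx s h1) (hg s hs)⟩
      · rw [pow_zero, mul_one]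
        exact hBc)
  exact ⟨s, fun l => (hB (s l)).1 (hs l), hdet⟩

end Pool.Agent.PTwistG
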