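import Mathlib

/-!
# A polynomial of minimal degree vanishing on a set; rational vectors
-/

namespace Pool.Agent.PTwistG

open MvPolynomial

theorem NTb_deg {k : Type*} [Field k] {m : ℕ} (p : MvPolynomial (Fin m) k) (i : Fin m)
    (h : pderiv i p ≠ 0) : (pderiv i p).totalDegree < p.totalDegree := by
  classical
  have hne : (pderiv i p).support.Nonempty := support_nonempty.mpr h
  obtain ⟨s, hs, hs'⟩ := Finset.exists_mem_eq_sup _ hne fun s : Fin m →₀ ℕ => s.sum fun _ e => e
  have h1 : (pderiv i p).totalDegree = s.sum fun _ e => e := hs'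
  rw [mem_support_iff, coeff_pderiv] at hs
  have h2 : s + Finsupp.single i 1 ∈ p.support := by
    rw [mem_support_iff]
    exact left_ne_zero_of_mul hs
  have h3 := le_totalDegree h2
  rw [Finsupp.sum_add_index' (fun _ => rfl) (fun _ _ _ => rfl),
    Finsupp.sum_single_index rfl] at h3
  omega

theorem NTb_const {k : Type*} [Field k] [CharZero k] {m : ℕ} (p : MvPolynomial (Fin m) k)
    (h : ∀ i, pderiv i p = 0) : p = C (p.coeff 0) := by
  classical
  ext s
  rw [coeff_C]
  split_ifs with hs
  · rw [← hs]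
  · obtain ⟨i, hi⟩ : ∃ i, s i ≠ 0 := by
      by_contra hcon
      push Not at hcon
      exact hs (Finsupp.ext fun i => by rw [hcon i]; rfl)
    have h1 := coeff_pderiv (i := i) p (s - Finsupp.single i 1)
    rw [h i, coeff_zero] at h1
    have h2 : s - Finsupp.single i 1 + Finsupp.single i 1 = s := by
      refine tsub_add_cancel_of_le ?_
      rw [Finsupp.single_le_iff]
      omega
    rw [h2] at h1
    have h3 : (((s - Finsupp.single i 1 : Fin m →₀ ℕ) i : ℕ) : k) + 1 ≠ 0 :=
      Nat.cast_add_one_ne_zero _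
    exact (mul_eq_zero.mp h1.symm).resolve_right h3

/-- Take a nonzero polynomial `h` vanishing at all `v a` of minimal total degree.  It is not
constant, so some partial derivative is not zero (characteristic `0`); its total degree is smaller,
so it does not vanish at all `v a`. -/
theorem exists_min {k : Type*} [Field k] [CharZero k] {m : ℕ} {α : Type*} [Nonempty α]
    (v : α → Fin m → k) (G : MvPolynomial (Fin m) k) (hG : G ≠ 0) (hv : ∀ a, eval (v a) G = 0) :
    ∃ h : MvPolynomial (Fin m) k, (∀ a, eval (v a) h = 0) ∧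
      ∃ i a, eval (v a) (pderiv i h) ≠ 0 := by
  by_contra hcon
  push Not at hcon
  have key : ∀ (n : ℕ) (G : MvPolynomial (Fin m) k), G.totalDegree ≤ n → G ≠ 0 →
      (∀ a, eval (v a) G = 0) → False := by
    intro n
    induction n with
    | zero =>
      intro G h1 h2 h3
      have h4 := totalDegree_eq_zero_iff_eq_C.mp (Nat.le_zero.mp h1)
      have h5 := h3 (Classical.arbitrary α)
      rw [h4, eval_C] at h5
      rw [h5, map_zero] at h4
      exact h2 h4
    | succ n ih =>
      intro G h1 h2 h3
      by_cases h4 : ∀ i, pderiv i G = 0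
      · have h5 := NTb_const G h4
        have h6 := h3 (Classical.arbitrary α)
        rw [h5, eval_C] at h6
        rw [h6, map_zero] at h5
        exact h2 h5
      · push Not at h4
        obtain ⟨i, hi⟩ := h4
        exact ih (pderiv i G) (by have := NTb_deg G i hi; omega) hi (hcon G h3 i)
  exact key _ G le_rfl hG hv

/-- The trace form is nondegenerate: some `μ` has `trace (μ * w i) ≠ 0` for a given `i` with
`w i ≠ 0` (`Algebra.trace_eq_sum_automorphisms`, `traceForm_nondegenerate`); multiply `μ` by a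
common denominator of the rational numbers `trace (μ * w i)`. -/
theorem exists_rational {M : Type*} [Field M] [NumberField M] [IsGalois ℚ M] {m : ℕ}
    (w : Fin m → M) (hw : w ≠ 0) :
    ∃ (b : Fin m → ℤ) (μ : M), b ≠ 0 ∧ ∀ i, (b i : M) = ∑ g : M ≃ₐ[ℚ] M, g (μ * w i) := by
  classical
  obtain ⟨i, hi⟩ : ∃ i, w i ≠ 0 := by
    by_contra hcon
    push Not at hcon
    exact hw (funext hcon)
  set r : Fin m → ℚ := fun j => Algebra.trace ℚ M ((w i)⁻¹ * w j) with hr
  set D : ℕ := ∏ j, (r j).den with hD
  have hD0 : D ≠ 0 := by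
    rw [hD, Finset.prod_ne_zero_iff]
    intro j _
    exact (r j).den_nz
  have hint : ∀ j, ∃ b : ℤ, (b : ℚ) = (D : ℚ) * r j := by
    intro j
    refine ⟨((∏ l ∈ Finset.univ.erase j, (r l).den : ℕ) : ℤ) * (r j).num, ?_⟩
    rw [hD, ← Finset.mul_prod_erase Finset.univ (fun l => (r l).den) (Finset.mem_univ j)]
    push_cast
    have h1 := Rat.den_mul_eq_num (r j)
    rw [← h1]
    ring
  choose b hb using hint
  refine ⟨b, (D : M) * (w i)⁻¹, ?_, fun j => ?_⟩
  · intro h0
    have h1 := hb i
    rw [h0] at h1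
    simp only [hr, Pi.zero_apply, Int.cast_zero, inv_mul_cancel₀ hi] at h1
    have h2 : (Algebra.trace ℚ M 1 : ℚ) = (Module.finrank ℚ M : ℚ) := by
      have := Algebra.trace_algebraMap (R := ℚ) (S := M) (1 : ℚ)
      rw [map_one] at this
      rw [this]
      simp
    rw [h2] at h1
    have h3 : (Module.finrank ℚ M : ℚ) ≠ 0 := by
      exact_mod_cast (Module.finrank_pos (R := ℚ) (M := M)).ne'
    have h4 : (D : ℚ) ≠ 0 := by exact_mod_cast hD0
    exact mul_ne_zero h4 h3 h1.symm
  · have h1 := trace_eq_sum_automorphisms (K := ℚ) (L := M) ((D : M) * (w i)⁻¹ * w j)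
    have h2 : Algebra.trace ℚ M ((D : M) * (w i)⁻¹ * w j) = (D : ℚ) * r j := by
      have h3 : (D : M) * (w i)⁻¹ * w j = (D : ℚ) • ((w i)⁻¹ * w j) := by
        rw [Algebra.smul_def, map_natCast, mul_assoc]
      rw [h3, map_smul, smul_eq_mul]
    rw [h2, ← hb j] at h1
    rw [← h1]
    simp

end Pool.Agent.PTwistG
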