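import Mathlib

/-!
# A common vector
-/

namespace Pool.Agent.PTwistG

/-- rank of an intersection (pass to the `ℚ`-spans in `ℚ ^ n`, or `Submodule` dimension formula) -/
theorem NTd_inf {n : ℕ} (H H' : AddSubgroup (Fin n → ℤ)) :
    Module.finrank ℤ H + Module.finrank ℤ H' ≤ Module.finrank ℤ (H ⊓ H' : AddSubgroup _) + n := by
  let S := AddSubgroup.toIntSubmodule H
  let S' := AddSubgroup.toIntSubmodule H'
  have h1 : Module.finrank ℤ H = Module.finrank ℤ S := rfl
  have h2 : Module.finrank ℤ H' = Module.finrank ℤ S' := rfl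
  have h3 : Module.finrank ℤ (H ⊓ H' : AddSubgroup _) = Module.finrank ℤ (S ⊓ S' : Submodule ℤ _) := by
    rfl
  rw [h1, h2, h3]
  have h4 := Submodule.rank_sup_add_rank_inf_eq S S'
  have h5 : Module.finrank ℤ (S ⊔ S' : Submodule ℤ _) + Module.finrank ℤ (S ⊓ S' : Submodule ℤ _)
      = Module.finrank ℤ S + Module.finrank ℤ S' := by
    have e := fun (T : Submodule ℤ (Fin n → ℤ)) => Module.finrank_eq_rank ℤ T
    rw [← e, ← e, ← e, ← e] at h4
    exact_mod_cast h4
  have h6 : Module.finrank ℤ (S ⊔ S' : Submodule ℤ _) ≤ n := by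
    have := Submodule.finrank_le (S ⊔ S')
    simpa using this
  omega

/-- For a subgroup `H` let `W H` be the `K`-span of the `z s`, `s ∈ H`.  For `i ≤ m` let `d i` be
the minimal dimension of `W H` for the subgroups `H` with `n ≤ finrank H + i κ`.  Then
`m ≥ d 0 ≥ d 1 ≥ ...`; so `d i = d (i + 1)` for some `i < m`, or `d m = 0`.  In the first case let
`H` be a subgroup with `n ≤ finrank H + i κ` and `dim W H = d i`.  For every `g` the subgroup
`H ⊓ Hg g` has `n ≤ finrank + (i + 1) κ` (`NTd_inf`), so `W (H ⊓ Hg g)` has dimension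
`≥ d (i + 1) = d i`, and it is contained in `W H`, so it is equal to `W H`.  As `u g` is orthogonal
to `z s`, `s ∈ Hg g`, it is orthogonal to `W H`.  Take any `s ≠ 0` in `H` (`i κ ≤ m κ < n`).  In the
second case take any `s ≠ 0` in a subgroup `H` with `n ≤ finrank H + m κ` and `W H = 0`; then
`z s = 0`. -/
theorem exists_common {K : Type*} [Field K] {n m κ : ℕ} {I : Type*}
    (z : (Fin n → ℤ) →+ (Fin m → K)) (u : I → Fin m → K) (Hg : I → AddSubgroup (Fin n → ℤ))
    (hH : ∀ g, n ≤ Module.finrank ℤ (Hg g) + κ)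
    (hu : ∀ g, ∀ s ∈ Hg g, ∑ i, u g i * z s i = 0) (hn : m * κ < n) :
    ∃ s : Fin n → ℤ, s ≠ 0 ∧ ∀ g, ∑ i, u g i * z s i = 0 := by
  classical
  -- the span
  let W : AddSubgroup (Fin n → ℤ) → Submodule K (Fin m → K) := fun H =>
    Submodule.span K (z '' (H : Set (Fin n → ℤ)))
  have hWm : ∀ H, Module.finrank K (W H) ≤ m := fun H => by
    simpa using Submodule.finrank_le (W H)
  have hmono : ∀ H H' : AddSubgroup (Fin n → ℤ), H ≤ H' → W H ≤ W H' := fun H H' h =>
    Submodule.span_mono (Set.image_mono h)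
  let P : ℕ → ℕ → Prop := fun i d =>
    ∃ H : AddSubgroup (Fin n → ℤ), n ≤ Module.finrank ℤ H + i * κ ∧ Module.finrank K (W H) = d
  have hP : ∀ i, ∃ d, P i d := fun i => ⟨Module.finrank K (W ⊤), ⊤, by
    have : Module.finrank ℤ (⊤ : AddSubgroup (Fin n → ℤ)) = n := by
      have h := finrank_top ℤ (Fin n → ℤ)
      rw [Module.finrank_fin_fun] at h
      exact h
    omega, rfl⟩
  let d : ℕ → ℕ := fun i => Nat.find (hP i)
  have hd : ∀ i, P i (d i) := fun i => Nat.find_spec (hP i)
  have hdm : ∀ i e, P i e → d i ≤ e := fun i e h => Nat.find_min' (hP i) h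
  have hanti : ∀ i, d (i + 1) ≤ d i := by
    intro i
    obtain ⟨H, h1, h2⟩ := hd i
    exact hdm _ _ ⟨H, by rw [Nat.add_mul]; omega, h2⟩
  -- nonzero elements
  have hne : ∀ (H : AddSubgroup (Fin n → ℤ)) (i : ℕ), i ≤ m → n ≤ Module.finrank ℤ H + i * κ →
      ∃ s ∈ H, s ≠ 0 := by
    intro H i hi h
    by_contra hc
    push Not at hc
    have : H = ⊥ := by
      rw [eq_bot_iff]
      intro s hs
      exact hc s hs
    have h0 : Module.finrank ℤ H = 0 := by
      rw [this]
      exact finrank_bot ℤ (Fin n → ℤ)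
    have : i * κ ≤ m * κ := Nat.mul_le_mul_right κ hi
    omega
  by_cases hcase : ∃ i < m, d i = d (i + 1)
  · obtain ⟨i, him, hi⟩ := hcase
    obtain ⟨H, h1, h2⟩ := hd i
    obtain ⟨s, hs, hs0⟩ := hne H i him.le h1
    refine ⟨s, hs0, fun g => ?_⟩
    have h3 : n ≤ Module.finrank ℤ (H ⊓ Hg g : AddSubgroup _) + (i + 1) * κ := by
      have := NTd_inf H (Hg g)
      have := hH g
      rw [Nat.add_mul]
      omega
    have h4 : d (i + 1) ≤ Module.finrank K (W (H ⊓ Hg g)) := hdm _ _ ⟨_, h3, rfl⟩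
    have h5 : W (H ⊓ Hg g) = W H := by
      apply Submodule.eq_of_le_of_finrank_le (hmono _ _ inf_le_left)
      rw [h2, hi]
      exact h4
    have h6 : z s ∈ W (H ⊓ Hg g) := by
      rw [h5]
      exact Submodule.subset_span ⟨s, hs, rfl⟩
    -- the linear form
    let φ : (Fin m → K) →ₗ[K] K := ∑ i, u g i • LinearMap.proj i
    have hφ : ∀ v, φ v = ∑ i, u g i * v i := by
      intro v
      simp [φ, LinearMap.sum_apply]
    have h7 : W (H ⊓ Hg g) ≤ LinearMap.ker φ := by
      apply Submodule.span_le.mpr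
      rintro _ ⟨t, ht, rfl⟩
      rw [SetLike.mem_coe, LinearMap.mem_ker, hφ]
      exact hu g t ht.2
    have h8 := h7 h6
    rw [LinearMap.mem_ker, hφ] at h8
    exact h8
  · push Not at hcase
    have h0 : ∀ i ≤ m, d i + i ≤ m := by
      intro i
      induction i with
      | zero =>
        intro _
        obtain ⟨H, h1, h2⟩ := hd 0
        have := hWm H
        omega
      | succ i ih =>
        intro hi
        have := ih (by omega)
        have := hcase i (by omega)
        have := hanti i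
        omega
    have hdz : d m = 0 := by
      have := h0 m le_rfl
      omega
    obtain ⟨H, h1, h2⟩ := hd m
    obtain ⟨s, hs, hs0⟩ := hne H m le_rfl h1
    refine ⟨s, hs0, fun g => ?_⟩
    have h3 : W H = ⊥ := by
      rw [hdz] at h2
      exact Submodule.finrank_eq_zero.mp h2
    have h4 : z s ∈ W H := Submodule.subset_span ⟨s, hs, rfl⟩
    rw [h3, Submodule.mem_bot] at h4
    rw [h4]
    simp

end Pool.Agent.PTwistG
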