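import Pool.Agent.W_52423g_h30.NTc
import Pool.Agent.W_52423g_h30.NTb
import Pool.Agent.W_52423g_h30.NTd

/-!
# No polynomial vanishes on a coset of small corank
-/

namespace Pool.Agent.PTwistG

open WeierstrassCurve WeierstrassCurve.Affine MvPolynomial Pool.Agent.PTwist Matrix

variable {M : Type*} [Field M] [NumberField M] [IsGalois ℚ M] [DecidableEq M]
variable {K : Type*} [NontriviallyNormedField K] [CompleteSpace K] [IsUltrametricDist K]
  [CharZero K] [DecidableEq K] {p : ℕ} [Fact p.Prime] [NormedAlgebra ℚ_[p] K]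
variable {W : WeierstrassCurve ℚ} [(W⁄M).IsElliptic] {m n : ℕ}
  {ρ : (M ≃ₐ[ℚ] M) →* GL (Fin n) ℤ} {P : Fin m → Fin n → (W⁄M).toAffine.Point}

omit [IsGalois ℚ M] [(W⁄M).IsElliptic] in
/-- independent points of the twist have independent coordinates: `IsTw.indep` for the point `P i`,
which has infinite order -/
theorem NT_ind (hρ : Irr ρ) (hP : ∀ i, IsTw W ρ (P i))
    (hb : ∀ b : Fin m → ℤ, ∑ i, b i • P i = 0 → b = 0) (i : Fin m) (s : Fin n → ℤ)
    (hs : ∑ j, s j • P i j = 0) : s = 0 := by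
  refine (hP i).indep hρ (fun N hN h0 => hN ?_) hs
  have h1 : ∑ i', (Pi.single i N : Fin m → ℤ) i' • P i' = 0 := by
    rw [Finset.sum_eq_single i]
    · rw [Pi.single_eq_same]
      exact h0
    · intro i' _ hi'
      rw [Pi.single_eq_of_ne hi', zero_smul]
    · intro h
      exact absurd (Finset.mem_univ i) h
  have h2 := congrFun (hb _ h1) i
  rwa [Pi.single_eq_same] at h2

omit [IsGalois ℚ M] [(W⁄M).IsElliptic] in
/-- integral combinations of points of the twist are points of the twist -/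
theorem NT_sum (hP : ∀ i, IsTw W ρ (P i)) (b : Fin m → ℤ) : IsTw W ρ (∑ i, b i • P i) := by
  intro g j
  have h1 : ∀ k, (∑ i, b i • P i) k = ∑ i, b i • P i k := by
    intro k
    rw [Finset.sum_apply]
    exact Finset.sum_congr rfl fun i _ => rfl
  rw [h1]
  have h2 : ∀ k, (ρ g : Matrix (Fin n) (Fin n) ℤ) j k •
      Point.map (g : M →ₐ[ℚ] M) ((∑ i, b i • P i) k) =
      ∑ i, b i • ((ρ g : Matrix (Fin n) (Fin n) ℤ) j k • Point.map (g : M →ₐ[ℚ] M) (P i k)) := by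
    intro k
    rw [h1, _root_.map_sum, Finset.smul_sum]
    refine Finset.sum_congr rfl fun i _ => ?_
    rw [_root_.map_zsmul, smul_comm]
  rw [Finset.sum_congr rfl fun k _ => h2 k, Finset.sum_comm]
  refine Finset.sum_congr rfl fun i _ => ?_
  rw [← Finset.smul_sum]
  congr 1
  exact hP i g j

theorem NT_pos {κ : ℕ} {H : AddSubgroup (Fin n → ℤ)} (hH : n ≤ Module.finrank ℤ H + κ)
    (hκ : κ < n) : ∃ σ ∈ H, σ ≠ 0 := by
  by_contra hcon
  push Not at hcon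
  have h1 : H = ⊥ := by
    rw [eq_bot_iff]
    intro σ hσ
    exact hcon σ hσ
  have h2 : Module.finrank ℤ H = 0 := by
    rw [h1]
    exact Module.finrank_zero_of_subsingleton
  omega

theorem NT_adm {H : AddSubgroup (Fin n → ℤ)} {σ : Fin n → ℤ} (hσ : σ ∈ H) (h0 : σ ≠ 0)
    (s₀ : Fin n → ℤ) : ∃ τ ∈ H, τ ≠ 0 ∧ τ ≠ s₀ ∧ τ ≠ -s₀ := by
  obtain ⟨j, hj⟩ : ∃ j, σ j ≠ 0 := by
    by_contra hcon
    push Not at hcon
    exact h0 (funext hcon)
  have hmem : ∀ k : ℤ, k • σ ∈ H := fun k => H.zsmul_mem hσ k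
  have hne : ∀ k l : ℤ, k ≠ l → k • σ ≠ l • σ := by
    intro k l hkl h
    have h1 := congrFun h j
    simp only [Pi.smul_apply, smul_eq_mul] at h1
    exact hkl (mul_right_cancel₀ hj h1)
  have hnz : ∀ k : ℤ, k ≠ 0 → k • σ ≠ 0 := by
    intro k hk h
    exact hne k 0 hk (by rw [h, zero_smul])
  by_contra hcon
  push Not at hcon
  have h1 := hcon _ (hmem 1) (hnz 1 (by norm_num))
  have h2 := hcon _ (hmem 2) (hnz 2 (by norm_num))
  have h3 := hcon _ (hmem 3) (hnz 3 (by norm_num))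
  by_cases e1 : (1 : ℤ) • σ = s₀
  · have e2 := h2 (fun h => hne 2 1 (by norm_num) (h.trans e1.symm))
    exact hne 3 2 (by norm_num) ((h3 (fun h => hne 3 1 (by norm_num) (h.trans e1.symm))).trans e2.symm)
  · have e1' := h1 e1
    by_cases e2 : (2 : ℤ) • σ = s₀
    · exact hne 3 1 (by norm_num)
        ((h3 (fun h => hne 3 2 (by norm_num) (h.trans e2.symm))).trans e1'.symm)
    · exact hne 2 1 (by norm_num) ((h2 e2).trans e1'.symm)

theorem NT_hom (g : GL (Fin n) ℤ) : ∃ f : (Fin n → ℤ) →+ (Fin n → ℤ),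
    Function.Injective f ∧ ∀ s, f s = s ᵥ* g.val := by
  refine ⟨AddMonoidHom.mk' (fun s => s ᵥ* g.val) fun s t => Matrix.add_vecMul _ _ _, ?_,
    fun s => rfl⟩
  exact Tw_vecMul_injective g

theorem NT_finrank {f : (Fin n → ℤ) →+ (Fin n → ℤ)} (hf : Function.Injective f)
    (H : AddSubgroup (Fin n → ℤ)) : Module.finrank ℤ (H.map f) = Module.finrank ℤ H := by
  have e : H ≃+ H.map f := H.equivMapOfInjective f hf
  exact (e.toIntLinearEquiv.finrank_eq).symm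

/-- Suppose that `G` vanishes at all points `γ_s₀ + ε γ_σ`, `σ ∈ H` admissible
(`σ ≠ 0, s₀, -s₀`).  There are admissible `σ`, because the rank of `H` is positive.  Take `h`, `i₀`
and an admissible `σ₁` from `exists_min`, and put
`w i = ε i * ∂_i h(x(γ_s₀ + ε γ_σ₁)) * eco(γ s₀ i + ε i γ σ₁ i)`.  Then `w i₀ ≠ 0`: the point
`γ s₀ i + ε i γ σ₁ i = P_i(s₀ + ε i σ₁)` is not of order two (`NT_ind`), use `eco_ne_zero`.  By
`coset_relation` for every `g` the vector `ι (g w)` is orthogonal to `zet z s` for all `s` in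
`Hg g = {σ ᵥ* ρ(g)⁻¹ | σ ∈ H}`, which has the same rank as `H`.  By `exists_common` there is
`s ≠ 0` with `∑ i, ι (g (w i)) * zet z s i = 0` for all `g`.  With `b`, `μ` from `exists_rational`
`∑ i, b i * zet z s i = ∑ g, ι (g μ) * ∑ i, ι (g (w i)) * zet z s i = 0`.  Hence
`∑ i, b i • gam P s i = 0` (`expPt_sum`, `pmap_injective`), that is `∑ j, s j • R j = 0` for the
point `R = ∑ i, b i • P i` of the twist (`NT_sum`), which has infinite order (`hb`), and `s = 0` by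
`IsTw.indep`, contradiction. -/
theorem NC_twist (hρ : Irr ρ) (hP : ∀ i, IsTw W ρ (P i))
    (hb : ∀ b : Fin m → ℤ, ∑ i, b i • P i = 0 → b = 0) (ι : M →+* K) {r₀ : ℝ}
    (hLC : LC p ((W⁄M).map ι).b₂ ((W⁄M).map ι).b₄ ((W⁄M).map ι).b₆ r₀) {z : Fin m → Fin n → K}
    (hz : ∀ i j, ‖z i j‖ ≤ rad r₀)
    (hzP : ∀ i j, expPt ((W⁄M).map ι) (z i j) = pmap (W⁄M) ι (P i j)) {κ : ℕ}
    (hκ : m * κ < n) (hκ' : κ < n) : NC (W⁄M) (gam (W⁄M) P) κ := by
  intro G hG s₀ ε H hH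
  by_contra hcon
  push Not at hcon
  have hind := NT_ind hρ hP hb
  obtain ⟨σ₀, hσ₀, hσ₀0⟩ := NT_pos hH hκ'
  obtain ⟨τ, hτ, hτ0, hτs, hτs'⟩ := NT_adm hσ₀ hσ₀0 s₀
  haveI : Nonempty {σ : Fin n → ℤ // σ ∈ H ∧ σ ≠ 0 ∧ σ ≠ s₀ ∧ σ ≠ -s₀} :=
    ⟨⟨τ, hτ, hτ0, hτs, hτs'⟩⟩
  obtain ⟨h, hh, i₀, a, ha⟩ := exists_min
    (fun (a : {σ : Fin n → ℤ // σ ∈ H ∧ σ ≠ 0 ∧ σ ≠ s₀ ∧ σ ≠ -s₀}) (i : Fin m) =>
      xco (W⁄M) (gam (W⁄M) P s₀ i + (ε i : ℤ) • gam (W⁄M) P a.1 i)) G hG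
    (fun a => hcon a.1 a.2.1 a.2.2.1 a.2.2.2.1 a.2.2.2.2)
  obtain ⟨σ₁, h1, h10, h1s, h1s'⟩ := a
  simp only at ha
  have hh' : ∀ σ ∈ H, σ ≠ 0 → σ ≠ s₀ → σ ≠ -s₀ →
      eval (fun i => xco (W⁄M) (gam (W⁄M) P s₀ i + (ε i : ℤ) • gam (W⁄M) P σ i)) h = 0 :=
    fun σ e1 e2 e3 e4 => hh ⟨σ, e1, e2, e3, e4⟩
  obtain ⟨w, hwdef⟩ : ∃ w : Fin m → M, ∀ i, w i = ((ε i : ℤ) : M) *
      (eval (fun i => xco (W⁄M) (gam (W⁄M) P s₀ i + (ε i : ℤ) • gam (W⁄M) P σ₁ i)) (pderiv i h) *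
        eco (W⁄M) (gam (W⁄M) P s₀ i + (ε i : ℤ) • gam (W⁄M) P σ₁ i)) := ⟨_, fun i => rfl⟩
  have hrel : ∀ (g : M ≃ₐ[ℚ] M) (σ : Fin n → ℤ), σ ∈ H →
      ∑ i, ι (g (w i)) * zet z (σ ᵥ* ((ρ g)⁻¹ : GL (Fin n) ℤ).val) i = 0 := by
    intro g σ hσ
    have := coset_relation hP hind ι hLC hz hzP hh' h1 h10 h1s h1s' g hσ
    simp only [hwdef]
    exact this
  have hw : w ≠ 0 := by
    intro hw0
    have h2 := congrFun hw0 i₀
    rw [hwdef] at h2
    have hε : (((ε i₀ : ℤ) : M)) ≠ 0 := by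
      rcases Int.units_eq_one_or (ε i₀) with h3 | h3 <;> rw [h3] <;> simp
    have heco : eco (W⁄M) (gam (W⁄M) P s₀ i₀ + (ε i₀ : ℤ) • gam (W⁄M) P σ₁ i₀) ≠ 0 := by
      apply eco_ne_zero
      intro h3
      have h4 : ∑ j, (2 * (s₀ j + (ε i₀ : ℤ) * σ₁ j)) • P i₀ j = 0 := by
        rw [← h3, gam_apply, gam_apply, Finset.smul_sum, ← Finset.sum_add_distrib,
          ← Finset.sum_add_distrib]
        refine Finset.sum_congr rfl fun j _ => ?_
        rw [two_mul, add_smul, add_smul, mul_smul]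
      have h5 := hind i₀ _ h4
      rcases Int.units_eq_one_or (ε i₀) with h6 | h6
      · apply h1s'
        funext j
        have h7 := congrFun h5 j
        rw [h6] at h7
        simp only [Units.val_one, one_mul, Pi.zero_apply] at h7
        rw [Pi.neg_apply]
        linarith
      · apply h1s
        funext j
        have h7 := congrFun h5 j
        rw [h6] at h7
        simp only [Units.val_neg, Units.val_one, neg_mul, one_mul, Pi.zero_apply] at h7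
        linarith
    exact mul_ne_zero hε (mul_ne_zero ha heco) h2
  have hdata : ∀ g : M ≃ₐ[ℚ] M, ∃ Hg : AddSubgroup (Fin n → ℤ),
      n ≤ Module.finrank ℤ Hg + κ ∧ ∀ s ∈ Hg, ∑ i, ι (g (w i)) * zet z s i = 0 := by
    intro g
    obtain ⟨f, hf, hfe⟩ := NT_hom ((ρ g)⁻¹ : GL (Fin n) ℤ)
    refine ⟨H.map f, ?_, ?_⟩
    · rw [NT_finrank hf]
      exact hH
    · rintro s ⟨σ, hσ, rfl⟩
      rw [hfe]
      exact hrel g σ hσ
  choose Hg hHg hHgu using hdata
  obtain ⟨s, hs0, hs⟩ := exists_common (zet z) (fun (g : M ≃ₐ[ℚ] M) i => ι (g (w i))) Hg hHg hHgu hκ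
  obtain ⟨b, μ, hb0, hbμ⟩ := exists_rational w hw
  have hsum : ∑ i, (b i : K) * zet z s i = 0 := by
    have h2 : ∀ i, (b i : K) * zet z s i =
        ∑ g : M ≃ₐ[ℚ] M, ι (g μ) * (ι (g (w i)) * zet z s i) := by
      intro i
      have h3 : (b i : K) = ι (b i : M) := (map_intCast ι (b i)).symm
      rw [h3, hbμ, map_sum, Finset.sum_mul]
      refine Finset.sum_congr rfl fun g _ => ?_
      rw [map_mul, map_mul, mul_assoc]
    rw [Finset.sum_congr rfl fun i _ => h2 i, Finset.sum_comm]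
    refine Finset.sum_eq_zero fun g _ => ?_
    rw [← Finset.mul_sum, hs g, mul_zero]
  have hsum2 : ∑ x : Fin m × Fin n, (b x.1 * s x.2) • z x.1 x.2 = 0 := by
    rw [← hsum, Fintype.sum_prod_type]
    refine Finset.sum_congr rfl fun i _ => ?_
    rw [zet_apply, Finset.mul_sum]
    refine Finset.sum_congr rfl fun j _ => ?_
    rw [zsmul_eq_mul]
    push_cast
    ring
  have hsum3 : ∑ x : Fin m × Fin n, (b x.1 * s x.2) • P x.1 x.2 = 0 := by
    apply pmap_injective (W⁄M) ι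
    rw [pmap_sum]
    have h2 := expPt_sum ((W⁄M).map ι) hLC Finset.univ (fun x : Fin m × Fin n => b x.1 * s x.2)
      (fun x => z x.1 x.2) (fun x _ => hz x.1 x.2)
    rw [hsum2, expPt_zero] at h2
    have h3 : pmap (W⁄M) ι 0 = 0 := rfl
    rw [h3, h2]
    refine Finset.sum_congr rfl fun x _ => ?_
    rw [pmap_zsmul, hzP]
  apply hs0
  refine (NT_sum hP b).indep hρ (fun N hN h0 => ?_) (s := s) ?_
  · have h2 : ∑ i, (N * b i) • P i = 0 := by
      rw [← h0, Finset.smul_sum]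
      refine Finset.sum_congr rfl fun i _ => ?_
      rw [mul_smul]
    have h3 := hb _ h2
    apply hb0
    funext i
    have h4 := congrFun h3 i
    simp only [Pi.zero_apply, mul_eq_zero] at h4
    exact h4.resolve_left hN
  · rw [← hsum3, Fintype.sum_prod_type, Finset.sum_comm]
    refine Finset.sum_congr rfl fun j _ => ?_
    rw [Finset.sum_apply, Finset.smul_sum]
    refine Finset.sum_congr rfl fun i _ => ?_
    rw [Pi.smul_apply, smul_smul, mul_comm]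

end Pool.Agent.PTwistG
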