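import Mathlib

/-!
# Factors, popular differences, ranks
-/

namespace Pool.Agent.PTwistG

open MvPolynomial

universe u

theorem ZCo_card_le {k : Type u} [Field k] {m : ℕ} (F : Multiset (MvPolynomial (Fin m) k))
    (hF : ∀ f ∈ F, Irreducible f) : F.prod ≠ 0 ∧ Multiset.card F ≤ Multiset.card F.prod.degrees := by
  induction F using Multiset.induction_on with
  | empty => simp
  | cons a F ih =>
    have ha : Irreducible a := hF a (Multiset.mem_cons_self a F)
    obtain ⟨h0, h1⟩ := ih fun f hf => hF f (Multiset.mem_cons_of_mem hf)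
    refine ⟨by rw [Multiset.prod_cons]; exact mul_ne_zero ha.ne_zero h0, ?_⟩
    rw [Multiset.prod_cons, degrees_mul_eq ha.ne_zero h0, Multiset.card_cons, Multiset.card_add]
    have h2 : Multiset.card a.degrees ≠ 0 := by
      intro h
      have h3 : a.totalDegree = 0 := Nat.le_zero.1 (h ▸ totalDegree_le_degrees_card a)
      rw [totalDegree_eq_zero_iff_eq_C] at h3
      have h4 : coeff 0 a ≠ 0 := by
        intro h5
        rw [h5, C_0] at h3
        exact ha.ne_zero h3
      apply ha.not_isUnit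
      rw [h3]
      exact (isUnit_iff_ne_zero.2 h4).map C
    omega

theorem ZCo_card_degrees {k : Type u} [Field k] {m : ℕ} (G : MvPolynomial (Fin m) k) (d : ℕ)
    (hd : ∀ i, degreeOf i G ≤ d) : Multiset.card G.degrees ≤ m * d := by
  classical
  rw [← Multiset.sum_count_eq_card (s := Finset.univ) (m := G.degrees) (fun a _ => Finset.mem_univ a)]
  calc ∑ a, Multiset.count a G.degrees ≤ ∑ _a : Fin m, d := by
        refine Finset.sum_le_sum fun i _ => ?_
        have := hd i
        rwa [degreeOf_def] at this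
    _ = m * d := by simp

/-- An irreducible factor vanishing at many of the zeros.  `G` is a product of at most
`totalDegree G ≤ m d` irreducible factors (and a unit); every zero of `G` is a zero of one of them
(if `A` is not empty then `G` is not a unit); the degrees of a factor are at most those of `G`. -/
theorem exists_factor {k : Type u} [Field k] {m : ℕ} (G : MvPolynomial (Fin m) k) (hG : G ≠ 0)
    (d : ℕ) (hd : ∀ i, degreeOf i G ≤ d) {α : Type*} (A : Finset α) (hA : A.Nonempty)
    (v : α → Fin m → k) (hv : ∀ s ∈ A, eval (v s) G = 0) :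
    ∃ G₁ : MvPolynomial (Fin m) k, Irreducible G₁ ∧ (∀ i, degreeOf i G₁ ≤ d) ∧
      ∃ A₁ ⊆ A, A.card ≤ m * d * A₁.card ∧ ∀ s ∈ A₁, eval (v s) G₁ = 0 := by
  classical
  set F := UniqueFactorizationMonoid.factors G with hFdef
  have hF : ∀ f ∈ F, Irreducible f := fun f hf =>
    UniqueFactorizationMonoid.irreducible_of_factor f hf
  obtain ⟨h0, h1⟩ := ZCo_card_le F hF
  obtain ⟨u, hu⟩ := UniqueFactorizationMonoid.factors_prod hG
  have hu0 : (u : MvPolynomial (Fin m) k) ≠ 0 := u.ne_zero
  have hcard : Multiset.card F ≤ m * d := by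
    refine h1.trans (le_trans ?_ (ZCo_card_degrees G d hd))
    rw [← hu, degrees_mul_eq h0 hu0, Multiset.card_add]
    exact Nat.le_add_right _ _
  have hdvd : ∀ f ∈ F, ∀ i, degreeOf i f ≤ d := by
    intro f hf i
    obtain ⟨q, hq⟩ := UniqueFactorizationMonoid.dvd_of_mem_factors hf
    have hf0 : f ≠ 0 := (hF f hf).ne_zero
    have hq0 : q ≠ 0 := by
      rintro rfl
      exact hG (by rw [hq, mul_zero])
    have := hd i
    rw [hq, degreeOf_mul_eq hf0 hq0] at this
    omega
  have hzero : ∀ s ∈ A, ∃ f ∈ F, eval (v s) f = 0 := by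
    intro s hs
    have h2 := hv s hs
    rw [← hu, map_mul] at h2
    have h3 : eval (v s) (u : MvPolynomial (Fin m) k) ≠ 0 := by
      have : IsUnit (eval (v s) (u : MvPolynomial (Fin m) k)) := u.isUnit.map _
      exact this.ne_zero
    have h4 : eval (v s) F.prod = 0 := (mul_eq_zero.1 h2).resolve_right h3
    rw [map_multiset_prod, Multiset.prod_eq_zero_iff, Multiset.mem_map] at h4
    exact h4
  by_contra hcon
  push Not at hcon
  have hlt : ∀ f ∈ F.toFinset, m * d * (A.filter fun s => eval (v s) f = 0).card < A.card := by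
    intro f hf
    rw [Multiset.mem_toFinset] at hf
    by_contra hle
    push Not at hle
    obtain ⟨s, hs, hne⟩ := hcon f (hF f hf) (hdvd f hf) _ (Finset.filter_subset _ A) hle
    exact hne (Finset.mem_filter.1 hs).2
  have hsub : A ⊆ F.toFinset.biUnion fun f => A.filter fun s => eval (v s) f = 0 := by
    intro s hs
    obtain ⟨f, hf, hfs⟩ := hzero s hs
    exact Finset.mem_biUnion.2 ⟨f, Multiset.mem_toFinset.2 hf, Finset.mem_filter.2 ⟨hs, hfs⟩⟩
  have hne : F.toFinset.Nonempty := by
    obtain ⟨s, hs⟩ := hA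
    obtain ⟨f, hf, _⟩ := hzero s hs
    exact ⟨f, Multiset.mem_toFinset.2 hf⟩
  have h5 : A.card ≤ ∑ f ∈ F.toFinset, (A.filter fun s => eval (v s) f = 0).card :=
    (Finset.card_le_card hsub).trans Finset.card_biUnion_le
  have h6 : m * d * A.card ≤ ∑ f ∈ F.toFinset, m * d * (A.filter fun s => eval (v s) f = 0).card := by
    rw [← Finset.mul_sum]
    exact Nat.mul_le_mul_left _ h5
  have h7 : ∑ f ∈ F.toFinset, m * d * (A.filter fun s => eval (v s) f = 0).card <
      ∑ _f ∈ F.toFinset, A.card := Finset.sum_lt_sum_of_nonempty hne hlt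
  rw [Finset.sum_const, smul_eq_mul] at h7
  have h8 : F.toFinset.card * A.card ≤ m * d * A.card :=
    Nat.mul_le_mul_right _ ((Multiset.toFinset_card_le F).trans hcard)
  omega

/-- Popular differences.  For `u ∈ ℤ ^ n` let `T u` be the number of `s ∈ A` with `s + u ∈ A`.  The
sum of all `T u` is `card A ^ 2`; only `u` with `|u j| ≤ 2 S` count, at most `(4 S + 1) ^ n` of
them; `T u ≤ card A`.  Let `D` be the set of `u ≠ 0` with
`card A ^ 2 ≤ 2 (4 S + 1) ^ n T u`; then `card A ^ 2 ≤ card A * (1 + card D) + card A ^ 2 / 2`, so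
`card D ≥ card A / 2 - 1 ≥ card A / 4`. -/
theorem popular {n : ℕ} (A : Finset (Fin n → ℤ)) (S : ℕ) (hA : ∀ s ∈ A, ∀ j, |s j| ≤ S)
    (h4 : 4 ≤ A.card) :
    ∃ D : Finset (Fin n → ℤ), (∀ u ∈ D, u ≠ 0 ∧ ∀ j, |u j| ≤ 2 * S) ∧ A.card ≤ 4 * D.card ∧
      ∀ u ∈ D, A.card ^ 2 ≤ 2 * (4 * S + 1) ^ n * (A.filter fun s => s + u ∈ A).card := by
  classical
  set N := A.card with hN
  set U : Finset (Fin n → ℤ) := Fintype.piFinset fun _ => Finset.Icc (-(2 * S : ℤ)) (2 * S) with hU
  have hUmem : ∀ u : Fin n → ℤ, u ∈ U ↔ ∀ j, |u j| ≤ 2 * S := by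
    intro u
    simp only [hU, Fintype.mem_piFinset, Finset.mem_Icc, abs_le]
  have hUcard : U.card = (4 * S + 1) ^ n := by
    rw [hU, Fintype.card_piFinset]
    simp only [Int.card_Icc, Finset.prod_const, Finset.card_univ, Fintype.card_fin]
    congr 1
    omega
  set T : (Fin n → ℤ) → ℕ := fun u => (A.filter fun s => s + u ∈ A).card with hT
  have hTN : ∀ u, T u ≤ N := fun u => Finset.card_le_card (Finset.filter_subset _ _)
  have hmaps : Set.MapsTo (fun p : (Fin n → ℤ) × (Fin n → ℤ) => p.2 - p.1)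
      ((A ×ˢ A : Finset ((Fin n → ℤ) × (Fin n → ℤ))) : Set ((Fin n → ℤ) × (Fin n → ℤ))) U := by
    intro p hp
    rw [Finset.mem_coe, Finset.mem_product] at hp
    rw [Finset.mem_coe, hUmem]
    intro j
    have h1 := abs_le.1 (hA _ hp.1 j)
    have h2 := abs_le.1 (hA _ hp.2 j)
    simp only [Pi.sub_apply]
    rw [abs_le]
    constructor <;> linarith [h1.1, h1.2, h2.1, h2.2]
  have hsum : N ^ 2 ≤ ∑ u ∈ U, T u := by
    have h1 := Finset.card_eq_sum_card_fiberwise hmaps
    rw [Finset.card_product, ← hN, ← pow_two] at h1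
    rw [h1]
    refine Finset.sum_le_sum fun u _ => ?_
    refine Finset.card_le_card_of_injOn (fun p => p.1) ?_ ?_
    · intro p hp
      rw [Finset.mem_coe, Finset.mem_filter, Finset.mem_product] at hp
      rw [Finset.mem_coe, Finset.mem_filter]
      refine ⟨hp.1.1, ?_⟩
      rw [← hp.2, add_sub_cancel]
      exact hp.1.2
    · intro p hp q hq hpq
      rw [Finset.mem_coe, Finset.mem_filter] at hp hq
      have h3 : p.1 = q.1 := hpq
      refine Prod.ext h3 ?_
      have h4 : p.2 - p.1 = q.2 - q.1 := hp.2.trans hq.2.symm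
      rw [h3] at h4
      exact sub_left_injective h4
  set M := (4 * S + 1) ^ n with hM
  set D := U.filter fun u => u ≠ 0 ∧ N ^ 2 ≤ 2 * M * T u with hD
  refine ⟨D, ?_, ?_, ?_⟩
  · intro u hu
    rw [hD, Finset.mem_filter, hUmem] at hu
    exact ⟨hu.2.1, hu.1⟩
  · have h0U : (0 : Fin n → ℤ) ∈ U := by
      rw [hUmem]
      intro j
      simp
    have hterm : ∀ u ∈ U, 2 * M * T u ≤
        (if u = 0 then 2 * M * N else 0) + (if u ∈ D then 2 * M * N else 0) + N ^ 2 := by
      intro u hu
      by_cases h0 : u = 0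
      · rw [if_pos h0]
        have := Nat.mul_le_mul_left (2 * M) (hTN u)
        omega
      · by_cases h1 : u ∈ D
        · rw [if_pos h1]
          have := Nat.mul_le_mul_left (2 * M) (hTN u)
          omega
        · rw [if_neg h0, if_neg h1]
          by_contra hlt
          apply h1
          rw [hD, Finset.mem_filter]
          exact ⟨hu, h0, by omega⟩
    have h1 : 2 * M * ∑ u ∈ U, T u ≤ 2 * M * N + D.card * (2 * M * N) + M * N ^ 2 := by
      rw [Finset.mul_sum]
      refine (Finset.sum_le_sum hterm).trans ?_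
      rw [Finset.sum_add_distrib, Finset.sum_add_distrib, Finset.sum_const, hUcard, smul_eq_mul,
        Finset.sum_ite_eq' U 0, if_pos h0U]
      have h2 : ∑ u ∈ U, (if u ∈ D then 2 * M * N else 0) = D.card * (2 * M * N) := by
        rw [← Finset.sum_filter, Finset.sum_const, smul_eq_mul]
        congr 2
        rw [Finset.filter_mem_eq_inter, Finset.inter_eq_right]
        exact Finset.filter_subset _ _
      rw [h2]
    have hMpos : 0 < M := by rw [hM]; positivity
    have hNpos : 0 < N := by omega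
    have h3 : 2 * M * N ^ 2 ≤ 2 * M * N + D.card * (2 * M * N) + M * N ^ 2 :=
      (Nat.mul_le_mul_left _ hsum).trans h1
    have h4 : N * M * N ≤ N * M * (2 + 2 * D.card) := by nlinarith
    have h5 : N ≤ 2 + 2 * D.card := Nat.le_of_mul_le_mul_left h4 (Nat.mul_pos hNpos hMpos)
    omega
  · intro u hu
    rw [hD, Finset.mem_filter] at hu
    exact hu.2.2

theorem ZCo_coords {n : ℕ} (H : AddSubgroup (Fin n → ℤ)) :
    ∃ J : Finset (Fin n), J.card ≤ Module.finrank ℤ H ∧ ∀ h ∈ H, (∀ j ∈ J, h j = 0) → h = 0 := by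
  classical
  have hex : ∃ c : ℕ, ∃ J : Finset (Fin n), J.card = c ∧ ∀ h ∈ H, (∀ j ∈ J, h j = 0) → h = 0 :=
    ⟨_, Finset.univ, rfl, fun h _ h0 => funext fun j => h0 j (Finset.mem_univ j)⟩
  obtain ⟨J, hJc, hJ⟩ := Nat.find_spec hex
  refine ⟨J, ?_, hJ⟩
  have hmin : ∀ j : J, ∃ h : H, (∀ i ∈ J, i ≠ (j : Fin n) → (h : Fin n → ℤ) i = 0) ∧
      (h : Fin n → ℤ) j ≠ 0 := by
    intro j
    by_contra hcon
    push Not at hcon
    have hlt : (J.erase j).card < Nat.find hex := by
      rw [← hJc]
      exact Finset.card_erase_lt_of_mem j.2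
    refine Nat.find_min hex hlt ⟨_, rfl, fun h hh h0 => ?_⟩
    have h1 : ∀ i ∈ J, i ≠ (j : Fin n) → h i = 0 := fun i hi hij =>
      h0 i (Finset.mem_erase.2 ⟨hij, hi⟩)
    have h2 : h j = 0 := hcon ⟨h, hh⟩ h1
    refine hJ h hh fun i hi => ?_
    by_cases hij : i = (j : Fin n)
    · rw [hij]; exact h2
    · exact h1 i hi hij
  choose f hf0 hf1 using hmin
  have hfin : Module.Finite ℤ H :=
    Module.Finite.of_injective (H.subtype.toIntLinearMap) H.subtype_injective
  have hli : LinearIndependent ℤ f := by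
    rw [Fintype.linearIndependent_iff]
    intro g hg i
    have h1 := congrArg (fun h : H => (h : Fin n → ℤ) i) hg
    simp only [AddSubgroup.coe_zero, Pi.zero_apply] at h1
    have h2 : ((∑ j, g j • f j : H) : Fin n → ℤ) i = ∑ j, g j * (f j : Fin n → ℤ) i := by
      rw [AddSubgroup.val_finsetSum, Finset.sum_apply]
      refine Finset.sum_congr rfl fun j _ => ?_
      simp
    rw [h2, Finset.sum_eq_single i] at h1
    · exact (mul_eq_zero.1 h1).resolve_right (hf1 i)
    · intro j _ hj
      rw [hf0 j i i.2 (fun h => hj (Subtype.ext h.symm)), mul_zero]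
    · intro h
      exact absurd (Finset.mem_univ i) h
  have := hli.fintype_card_le_finrank
  rwa [Fintype.card_coe] at this

/-- A subgroup of rank `r` of `ℤ ^ n` has at most `(2 R + 1) ^ r` elements in the box of size `R`:
some `r` of the coordinates are injective on it (a matrix of rank `r` has `r` independent
columns). -/
theorem card_box_le {n : ℕ} (H : AddSubgroup (Fin n → ℤ)) (B : Finset (Fin n → ℤ)) (R : ℕ)
    (hB : ∀ s ∈ B, s ∈ H ∧ ∀ j, |s j| ≤ R) : B.card ≤ (2 * R + 1) ^ Module.finrank ℤ H := by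
  classical
  obtain ⟨J, hJc, hJ⟩ := ZCo_coords H
  have h1 : B.card ≤ (Fintype.piFinset fun _ : J => Finset.Icc (-(R : ℤ)) R).card := by
    refine Finset.card_le_card_of_injOn (fun s (j : J) => s j) ?_ ?_
    · intro s hs
      rw [Finset.mem_coe, Fintype.mem_piFinset]
      intro j
      rw [Finset.mem_Icc]
      exact abs_le.1 ((hB s hs).2 j)
    · intro s hs t ht hst
      have h2 : s - t = 0 := by
        refine hJ _ (H.sub_mem (hB s hs).1 (hB t ht).1) fun j hj => ?_
        have h3 := congrFun hst ⟨j, hj⟩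
        simp only at h3
        rw [Pi.sub_apply, h3, sub_self]
      exact sub_eq_zero.1 h2
  refine h1.trans ?_
  rw [Fintype.card_piFinset]
  simp only [Int.card_Icc, Finset.prod_const, Finset.card_univ, Fintype.card_coe]
  have h4 : ((R : ℤ) + 1 - -(R : ℤ)).toNat = 2 * R + 1 := by omega
  rw [h4]
  exact Nat.pow_le_pow_right (by omega) hJc

end Pool.Agent.PTwistG
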