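import Pool.Agent.W_52423g_h30.ZMb
import Pool.Agent.W_52423g_h30.ZCo

/-!
# The zero estimate
-/

namespace Pool.Agent.PTwistG

open WeierstrassCurve WeierstrassCurve.Affine MvPolynomial Pool.Agent.PTwist

universe u

/-- `S > 4 ^ (m + 2) * 9 ^ n` suffices: if `r + c₁ + 1 ≤ n` then
`S ^ n ≤ 4 ^ (m + 2) * (9 S) ^ r * S ^ c₁ ≤ 4 ^ (m + 2) * 9 ^ n * S ^ (n - 1)`. -/
theorem ZMain_num1 (m n c₁ : ℕ) : ∃ S₀ : ℕ, ∀ S : ℕ, S₀ ≤ S → ∀ r a : ℕ, S ^ n ≤ a * S ^ c₁ →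
    a ≤ 4 ^ (m + 2) * (8 * S + 1) ^ r → n ≤ r + c₁ := by
  refine ⟨4 ^ (m + 2) * 9 ^ n + 1, fun S hS r a h1 h2 => ?_⟩
  by_contra hcon
  push Not at hcon
  have hS1 : 1 ≤ S := le_trans (by omega) hS
  have h3 : (8 * S + 1) ^ r ≤ (9 * S) ^ r := Nat.pow_le_pow_left (by omega) r
  have h4 : (9 : ℕ) ^ r ≤ 9 ^ n := Nat.pow_le_pow_right (by omega) (by omega)
  have h5 : S ^ (r + c₁) ≤ S ^ (n - 1) := Nat.pow_le_pow_right hS1 (by omega)
  have h6 : S ^ n ≤ 4 ^ (m + 2) * 9 ^ n * S ^ (n - 1) := by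
    calc S ^ n ≤ a * S ^ c₁ := h1
      _ ≤ (4 ^ (m + 2) * (8 * S + 1) ^ r) * S ^ c₁ := Nat.mul_le_mul_right _ h2
      _ ≤ (4 ^ (m + 2) * (9 * S) ^ r) * S ^ c₁ :=
          Nat.mul_le_mul_right _ (Nat.mul_le_mul_left _ h3)
      _ = 4 ^ (m + 2) * 9 ^ r * S ^ (r + c₁) := by rw [mul_pow, pow_add]; ring
      _ ≤ 4 ^ (m + 2) * 9 ^ n * S ^ (n - 1) :=
          Nat.mul_le_mul (Nat.mul_le_mul_left _ h4) h5
  have h7 : S ^ n = S * S ^ (n - 1) := by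
    rw [← pow_succ']
    congr 1
    omega
  rw [h7] at h6
  have h8 : S ≤ 4 ^ (m + 2) * 9 ^ n := Nat.le_of_mul_le_mul_right h6 (by positivity)
  omega

/-- `S ^ (2 n) ≤ a² S ^ (2 c₁) ≤ 2 (5 S) ^ n b S ^ (2 c₁)`, so `S ^ n ≤ 2 * 5 ^ n * b * S ^ (2 c₁)`.
As `2 c₁ < n` this forces `b ≥ 4` for large `S`, so `b ≤ 2 b'`, and
`S ^ n ≤ 4 * 5 ^ n * b' * S ^ (2 c₁) ≤ b' * S ^ (2 c₁ + 2)`. -/
theorem ZMain_num2 (n c₁ : ℕ) (hn : 2 * c₁ < n) : ∃ S₀ : ℕ, ∀ S : ℕ, S₀ ≤ S → ∀ a b b' : ℕ,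
    S ^ n ≤ a * S ^ c₁ → a ^ 2 ≤ 2 * (4 * S + 1) ^ n * b → b ≤ b' + 2 →
      S ^ n ≤ b' * S ^ (2 * c₁ + 2) := by
  refine ⟨8 * 5 ^ n + 1, fun S hS a b b' h1 h2 h3 => ?_⟩
  have hS1 : 1 ≤ S := le_trans (by omega) hS
  have h4 : (4 * S + 1) ^ n ≤ (5 * S) ^ n := Nat.pow_le_pow_left (by omega) n
  have h5 : S ^ n * S ^ n ≤ (2 * 5 ^ n * b * S ^ (2 * c₁)) * S ^ n := by
    calc S ^ n * S ^ n ≤ (a * S ^ c₁) * (a * S ^ c₁) := Nat.mul_le_mul h1 h1
      _ = a ^ 2 * S ^ (2 * c₁) := by rw [two_mul, pow_add]; ring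
      _ ≤ (2 * (4 * S + 1) ^ n * b) * S ^ (2 * c₁) := Nat.mul_le_mul_right _ h2
      _ ≤ (2 * (5 * S) ^ n * b) * S ^ (2 * c₁) :=
          Nat.mul_le_mul_right _ (Nat.mul_le_mul_right _ (Nat.mul_le_mul_left _ h4))
      _ = (2 * 5 ^ n * b * S ^ (2 * c₁)) * S ^ n := by rw [mul_pow]; ring
  have h6 : S ^ n ≤ 2 * 5 ^ n * b * S ^ (2 * c₁) := Nat.le_of_mul_le_mul_right h5 (by positivity)
  have h7 : S * S ^ (2 * c₁) ≤ 2 * 5 ^ n * b * S ^ (2 * c₁) := by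
    rw [← pow_succ']
    exact (Nat.pow_le_pow_right hS1 (by omega)).trans h6
  have h8 : S ≤ 2 * 5 ^ n * b := Nat.le_of_mul_le_mul_right h7 (by positivity)
  have h9 : 4 < b := by
    by_contra hb
    push Not at hb
    have : 2 * 5 ^ n * b ≤ 2 * 5 ^ n * 4 := Nat.mul_le_mul_left _ hb
    omega
  have h10 : b ≤ 2 * b' := by omega
  calc S ^ n ≤ 2 * 5 ^ n * b * S ^ (2 * c₁) := h6
    _ ≤ 2 * 5 ^ n * (2 * b') * S ^ (2 * c₁) :=
        Nat.mul_le_mul_right _ (Nat.mul_le_mul_left _ h10)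
    _ = b' * ((4 * 5 ^ n) * S ^ (2 * c₁)) := by ring
    _ ≤ b' * (S ^ 2 * S ^ (2 * c₁)) := by
        refine Nat.mul_le_mul_left _ (Nat.mul_le_mul_right _ ?_)
        have : S ≤ S ^ 2 := by nlinarith
        omega
    _ = b' * S ^ (2 * c₁ + 2) := by rw [← pow_add]; congr 2; omega

variable {k : Type u} [Field k] [DecidableEq k] (V : WeierstrassCurve k) {m n : ℕ}

omit [DecidableEq k] in
/-- a polynomial that does not involve `T 0` is a polynomial in the last variables -/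
theorem ZMain_rename {G : MvPolynomial (Fin (m + 1)) k} (hG : degreeOf 0 G = 0) :
    ∃ G₂ : MvPolynomial (Fin m) k, G = rename Fin.succ G₂ := by
  have h : (↑G.vars : Set (Fin (m + 1))) ⊆ Set.range Fin.succ := by
    intro i hi
    rcases Fin.eq_zero_or_eq_succ i with rfl | ⟨j, rfl⟩
    · rw [Finset.mem_coe] at hi
      classical
      rw [degreeOf_def, Multiset.count_eq_zero] at hG
      rw [vars_def, Multiset.mem_toFinset] at hi
      exact absurd hi hG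
    · exact ⟨j, rfl⟩
  obtain ⟨q, hq⟩ := exists_rename_eq_of_vars_subset_range G Fin.succ (Fin.succ_injective m) h
  exact ⟨q, hq.symm⟩

/-- The induction step.  Let `G`, `A` be a counterexample to `ZE V γ c c'` with large `S`, and
`c₁ = c + c' + 1`.  `exists_factor` gives an irreducible `G₁` and `A₁ ⊆ A` with
`S ^ n ≤ card A * S ^ c' ≤ (m + 1) S ^ c card A₁ S ^ c' ≤ card A₁ * S ^ c₁`.
If `G₁` does not involve `T 0` then `G₁ = rename succ G₂` and `h1` gives a contradiction.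
Otherwise take the set `D` of popular differences (`popular`).  For `u ∈ D` let
`A'' = {s ∈ A₁ | s + u ∈ A₁, s ≠ ± u}`; by `ZMain_num2` (`2 c₁ < n` because
`2 c₁ < kap m (2 c + 1) (2 c₁ + 2) ≤ κ < n`, `NC.lt`) `S ^ n ≤ card A'' * S ^ (2 c₁ + 2)`.
`elim_or_moves`: the first alternative contradicts `h2`, as
`2 d (5 ^ (m + 1) * 3 d) ≤ S ^ (2 c + 1)` for `d = S ^ c`, `S` large.  So `Moves V G₁ (γ u)` for all
`u ∈ D`.  `exists_coset` gives a subgroup `H` and a coset on which `G₁` vanishes; fix `t₁ ∈ D'`, the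
differences `t - t₁` (`t ∈ D'`) are in `H` and in the box of size `4 S`, so
`card D' ≤ (8 S + 1) ^ finrank H` (`card_box_le`), and
`card A₁ ≤ 4 card D ≤ 4 ^ (m + 2) card D'`; `ZMain_num1` gives `n ≤ finrank H + c₁ ≤
finrank H + κ`, which contradicts `NC`. -/
theorem ZE_step [V.IsElliptic] [Infinite k] (hm : 1 ≤ m)
    (γ : (Fin n → ℤ) →+ (Fin (m + 1) → V.toAffine.Point)) (hγ : ∀ s i, γ s i = 0 → s = 0)
    (c c' κ : ℕ) (hκ : kap (m + 1) c c' ≤ κ) (hNC : NC V γ κ)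
    (h1 : ZE V (tl V γ) c (c + c' + 1))
    (h2 : ZE V (tl V γ) (2 * c + 1) (2 * (c + c' + 1) + 2)) : ZE V γ c c' := by
  classical
  have hk0 : c + c' + 2 ≤ kap (m + 1) c c' := le_max_right _ _
  have hk2 : kap m (2 * c + 1) (2 * (c + c' + 1) + 2) ≤ kap (m + 1) c c' :=
    (le_max_right _ _).trans (le_max_left _ _)
  have hk3 : 2 * (c + c' + 1) < kap m (2 * c + 1) (2 * (c + c' + 1) + 2) := by
    obtain ⟨m', rfl⟩ : ∃ m', m = m' + 1 := ⟨m - 1, by omega⟩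
    have : (2 * c + 1) + (2 * (c + c' + 1) + 2) + 2 ≤
      kap (m' + 1) (2 * c + 1) (2 * (c + c' + 1) + 2) := le_max_right _ _
    omega
  have hn : κ < n := hNC.lt
  have hn1 : 2 * (c + c' + 1) < n := by omega
  obtain ⟨S₁, hS₁⟩ := h1
  obtain ⟨S₂, hS₂⟩ := h2
  obtain ⟨S₃, hS₃⟩ := ZMain_num1 m n (c + c' + 1)
  obtain ⟨S₄, hS₄⟩ := ZMain_num2 n (c + c' + 1) hn1
  refine ⟨S₁ + S₂ + S₃ + S₄ + 6 * 5 ^ (m + 1) + m + 5, fun S hS G hG hdeg A hA hcard => ?_⟩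
  have hSpos : 0 < S := by omega
  have hAne : A.Nonempty := by
    rw [← Finset.card_pos]
    by_contra h0
    have : A.card = 0 := by omega
    rw [this, zero_mul] at hcard
    have : 0 < S ^ n := by positivity
    omega
  obtain ⟨G₁, hG₁, hdeg₁, A₁, hA₁, hc₁, hv₁⟩ := exists_factor G hG (S ^ c) hdeg A hAne
    (fun s i => xco V (γ s i)) (fun s hs => (hA s hs).2.2)
  have hc₂ : S ^ n ≤ A₁.card * S ^ (c + c' + 1) := by
    calc S ^ n ≤ A.card * S ^ c' := hcard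
      _ ≤ ((m + 1) * S ^ c * A₁.card) * S ^ c' := Nat.mul_le_mul_right _ hc₁
      _ ≤ (S * S ^ c * A₁.card) * S ^ c' :=
          Nat.mul_le_mul_right _ (Nat.mul_le_mul_right _ (Nat.mul_le_mul_right _ (by omega)))
      _ = A₁.card * S ^ (c + c' + 1) := by rw [pow_succ, pow_add]; ring
  have hA₁' : ∀ s ∈ A₁, s ≠ 0 ∧ (∀ j, |s j| ≤ S) ∧ eval (fun i => xco V (γ s i)) G₁ = 0 :=
    fun s hs => ⟨(hA s (hA₁ hs)).1, (hA s (hA₁ hs)).2.1, hv₁ s hs⟩
  have h4 : 4 ≤ A₁.card := by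
    have h5 : S * S ^ (c + c' + 1) ≤ A₁.card * S ^ (c + c' + 1) := by
      rw [← pow_succ']
      exact (Nat.pow_le_pow_right hSpos (by omega)).trans hc₂
    have h6 : S ≤ A₁.card := Nat.le_of_mul_le_mul_right h5 (by positivity)
    omega
  rcases Nat.eq_zero_or_pos (degreeOf 0 G₁) with h0 | h0
  · obtain ⟨G₂, rfl⟩ := ZMain_rename h0
    refine hS₁ S (by omega) G₂ ?_ (fun i => ?_) A₁ (fun s hs => ?_) hc₂
    · rintro rfl
      exact hG₁.ne_zero (map_zero _)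
    · have := hdeg₁ i.succ
      rwa [degreeOf_rename_of_injective (Fin.succ_injective m)] at this
    · obtain ⟨e1, e2, e3⟩ := hA₁' s hs
      refine ⟨e1, e2, ?_⟩
      rw [eval_rename] at e3
      exact e3
  obtain ⟨D, hD, hD4, hDp⟩ := popular A₁ S (fun s hs => (hA₁' s hs).2.1) h4
  have hmov : ∀ u ∈ D, u ≠ 0 ∧ Moves V G₁ (γ u) := by
    intro u hu
    refine ⟨(hD u hu).1, ?_⟩
    have hcc : (A₁.filter fun s => s + u ∈ A₁).card ≤
        (A₁.filter fun s => s + u ∈ A₁ ∧ s ≠ u ∧ s ≠ -u).card + 2 := by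
      have hsub : (A₁.filter fun s => s + u ∈ A₁) ⊆
          (A₁.filter fun s => s + u ∈ A₁ ∧ s ≠ u ∧ s ≠ -u) ∪ {u, -u} := by
        intro s hs
        rw [Finset.mem_filter] at hs
        simp only [Finset.mem_union, Finset.mem_filter, Finset.mem_insert, Finset.mem_singleton]
        by_cases e1 : s = u
        · exact Or.inr (Or.inl e1)
        · by_cases e2 : s = -u
          · exact Or.inr (Or.inr e2)
          · exact Or.inl ⟨hs.1, hs.2, e1, e2⟩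
      refine (Finset.card_le_card hsub).trans ((Finset.card_union_le _ _).trans ?_)
      have := Finset.card_le_two (a := u) (b := -u)
      omega
    have hbig := hS₄ S (by omega) A₁.card _ _ hc₂ (hDp u hu) hcc
    rcases elim_or_moves V γ hγ hG₁ h0 hdeg₁ (hD u hu).1
      (A₁.filter fun s => s + u ∈ A₁ ∧ s ≠ u ∧ s ≠ -u) (fun s hs => by
        rw [Finset.mem_filter] at hs
        exact ⟨(hA₁' s hs.1).1, hs.2.2.1, hs.2.2.2, (hA₁' s hs.1).2.2,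
          (hA₁' _ hs.2.1).2.2⟩) with ⟨R, hR, hRd, hRv⟩ | hM
    · exfalso
      refine hS₂ S (by omega) R hR (fun i => (hRd i).trans ?_) _ (fun s hs => ?_) hbig
      · calc 2 * S ^ c * (5 ^ (m + 1) * (3 * S ^ c)) = (6 * 5 ^ (m + 1)) * (S ^ c * S ^ c) := by
              ring
          _ ≤ S * (S ^ c * S ^ c) := Nat.mul_le_mul_right _ (by omega)
          _ = S ^ (2 * c + 1) := by rw [two_mul, pow_succ, pow_add]; ring
      · have hs' := (Finset.mem_filter.mp hs).1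
        exact ⟨(hA₁' s hs').1, (hA₁' s hs').2.1, hRv s hs⟩
    · exact hM
  obtain ⟨s₀, ε, H, ⟨D', hD'D, hD'c, hD'H⟩, hvan⟩ := exists_coset V γ hγ hG₁ h0 A₁ (by omega)
    (fun s hs => ⟨(hA₁' s hs).1, (hA₁' s hs).2.2⟩) D hmov
  have hD'ne : D'.Nonempty := by
    rw [← Finset.card_pos]
    by_contra h00
    have e0 : D'.card = 0 := by omega
    rw [e0, mul_zero] at hD'c
    omega
  obtain ⟨t₁, ht₁⟩ := hD'ne
  have hbox := card_box_le H (D'.image fun t => t - t₁) (4 * S) (fun s hs => by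
    obtain ⟨t, ht, rfl⟩ := Finset.mem_image.mp hs
    refine ⟨hD'H t₁ ht₁ t ht, fun j => ?_⟩
    have e1 := (hD t (hD'D ht)).2 j
    have e2 := (hD t₁ (hD'D ht₁)).2 j
    rw [Pi.sub_apply]
    push_cast
    rw [abs_le] at e1 e2 ⊢
    constructor <;> linarith [e1.1, e1.2, e2.1, e2.2])
  rw [Finset.card_image_of_injective _ (sub_left_injective)] at hbox
  have hfin : A₁.card ≤ 4 ^ (m + 2) * (8 * S + 1) ^ Module.finrank ℤ H := by
    calc A₁.card ≤ 4 * D.card := hD4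
      _ ≤ 4 * (4 ^ (m + 1) * D'.card) := Nat.mul_le_mul_left _ hD'c
      _ = 4 ^ (m + 2) * D'.card := by ring
      _ ≤ 4 ^ (m + 2) * (8 * S + 1) ^ Module.finrank ℤ H := by
          refine Nat.mul_le_mul_left _ (hbox.trans (le_of_eq ?_))
          congr 1
          ring
  have hrank := hS₃ S (by omega) _ _ hc₂ hfin
  obtain ⟨σ, hσH, hσ0, hσ1, hσ2, hσ3⟩ := hNC G₁ hG₁.ne_zero s₀ ε H (by omega)
  exact hσ3 (hvan σ hσH hσ0 hσ1 hσ2)

theorem zero_est [V.IsElliptic] [Infinite k] (m : ℕ) :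
    ∀ (γ : (Fin n → ℤ) →+ (Fin m → V.toAffine.Point)), (∀ s i, γ s i = 0 → s = 0) →
      ∀ c c' κ : ℕ, kap m c c' ≤ κ → NC V γ κ → ZE V γ c c' := by
  induction m with
  | zero => exact fun γ _ c c' _ _ _ => ZE_zero V γ c c'
  | succ m ih =>
    intro γ hγ c c' κ hκ hNC
    have hk : c + c' + 2 ≤ kap (m + 1) c c' := le_max_right _ _
    have h1 : kap m c (c + c' + 1) ≤ kap (m + 1) c c' :=
      (le_max_left _ _).trans (le_max_left _ _)
    have h2 : kap m (2 * c + 1) (2 * (c + c' + 1) + 2) ≤ kap (m + 1) c c' :=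
      (le_max_right _ _).trans (le_max_left _ _)
    rcases Nat.eq_zero_or_pos m with rfl | hm
    · have := hNC.lt
      exact ZE_one V γ hγ c c' (by omega)
    · have hγ' : ∀ s i, tl V γ s i = 0 → s = 0 := fun s i h => hγ s i.succ h
      exact ZE_step V hm γ hγ c c' κ hκ hNC
        (ih (tl V γ) hγ' _ _ κ (h1.trans hκ) (hNC.tl V))
        (ih (tl V γ) hγ' _ _ κ (h2.trans hκ) (hNC.tl V))

end Pool.Agent.PTwistG
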