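import Pool.Agent.W_52423g_h30.AApp
import Pool.Agent.W_52423g_h30.ACnt
import Pool.Agent.W_52423g_h30.ALio
import Pool.Agent.W_52423g_h30.AMin
import Pool.Agent.W_52423g_h30.ZMain
import Pool.Agent.W_52423g_h30.NT

/-!
# Linear independence of the logarithm vectors of `m` points
-/

namespace Pool.Agent.PTwistG

open WeierstrassCurve WeierstrassCurve.Affine MvPolynomial Pool.Agent.PTwist Matrix

/-- Parameters: for given `C ≥ 0`, `κ > 0` and all large `S` there is `Q ≥ 1` with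
`2 Q ^ r ≤ S ^ (2 r + 1)` and `2 C (1 + S ^ 2) < κ Q`: take `Q = ⌈2 C (1 + S ^ 2) / κ⌉ + 1`, which is
at most a constant times `S ^ 2`. -/
theorem AMain_param (r : ℕ) {C κ : ℝ} (hC : 0 ≤ C) (hκ : 0 < κ) :
    ∃ S₀ : ℕ, ∀ S : ℕ, S₀ ≤ S → ∃ Q : ℕ, 1 ≤ Q ∧ 2 * Q ^ r ≤ S ^ (2 * r + 1) ∧
      2 * C * (1 + (S : ℝ) ^ 2) < κ * Q := by
  obtain ⟨B, hB⟩ := exists_nat_ge (2 * C / κ)
  have hB' : 2 * C ≤ κ * B := by
    rw [div_le_iff₀ hκ] at hB
    linarith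
  refine ⟨2 * (2 * (B + 1)) ^ r + 1, fun S hS => ⟨B * (1 + S ^ 2) + 1, by omega, ?_, ?_⟩⟩
  · have hS1 : 1 ≤ S := by omega
    have hS2 : 1 ≤ S ^ 2 := Nat.one_le_pow _ _ hS1
    have h1 : B * (1 + S ^ 2) + 1 ≤ 2 * (B + 1) * S ^ 2 := by nlinarith
    calc 2 * (B * (1 + S ^ 2) + 1) ^ r ≤ 2 * (2 * (B + 1) * S ^ 2) ^ r :=
          Nat.mul_le_mul_left _ (Nat.pow_le_pow_left h1 r)
      _ = (2 * (2 * (B + 1)) ^ r) * S ^ (2 * r) := by rw [mul_pow, ← pow_mul, mul_assoc]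
      _ ≤ S * S ^ (2 * r) := Nat.mul_le_mul_right _ (by omega)
      _ = S ^ (2 * r + 1) := by rw [pow_succ, mul_comm]
  · push_cast
    have h2 : 0 ≤ (1 + (S : ℝ) ^ 2) := by positivity
    have h3 := mul_le_mul_of_nonneg_right hB' h2
    calc 2 * C * (1 + (S : ℝ) ^ 2) ≤ κ * B * (1 + (S : ℝ) ^ 2) := h3
      _ < κ * B * (1 + (S : ℝ) ^ 2) + κ := by linarith
      _ = κ * (B * (1 + (S : ℝ) ^ 2) + 1) := by ring

/-- The contradiction between the two estimates.  `card L = D ^ (r + 1)`, `D = 2 Q ^ r`;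
`Θ = card L * (D Q) / 2` (`count_degree`, the number `card L * D * Q` is even because `D` is), so
`1 ≤ (ρ R) ^ Θ * exp (C card L D (1 + S ^ 2)) ≤ exp (- κ card L D Q / 2 + C card L D (1 + S ^ 2))`
for `ρ R ≤ exp (- κ)`, which contradicts `2 C (1 + S ^ 2) < κ Q`. -/
theorem AMain_contra {r Q S : ℕ} {C κ x δ : ℝ} (hQ : 1 ≤ Q) (hx : 0 ≤ x)
    (hκ : x ≤ Real.exp (-κ)) (hpar : 2 * C * (1 + (S : ℝ) ^ 2) < κ * Q) {N : ℕ}
    (hN : N = (2 * Q ^ r) ^ (r + 1)) (hδ : δ ≤ x ^ (N * (Q ^ r * Q)))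
    (hlow : 1 ≤ δ * Real.exp (C * (N * (2 * Q ^ r : ℕ) * (1 + (S : ℝ) ^ 2)))) : False := by
  have hQr : 1 ≤ Q ^ r := Nat.one_le_pow _ _ hQ
  have hN1 : 1 ≤ N := by
    rw [hN]
    exact Nat.one_le_pow _ _ (by omega)
  have h1 : δ ≤ Real.exp (-κ * ((N * (Q ^ r * Q) : ℕ) : ℝ)) := by
    refine hδ.trans ((pow_le_pow_left₀ hx hκ _).trans ?_)
    rw [← Real.exp_nat_mul, mul_comm]
  have h2 : 1 ≤ Real.exp (-κ * ((N * (Q ^ r * Q) : ℕ) : ℝ)) *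
      Real.exp (C * (N * (2 * Q ^ r : ℕ) * (1 + (S : ℝ) ^ 2))) :=
    hlow.trans (mul_le_mul_of_nonneg_right h1 (Real.exp_pos _).le)
  rw [← Real.exp_add, Real.one_le_exp_iff] at h2
  push_cast at h2
  have h3 : (0 : ℝ) < N * Q ^ r := by
    have h4 : (1 : ℝ) ≤ N := by exact_mod_cast hN1
    have h5 : (1 : ℝ) ≤ (Q : ℝ) ^ r := by exact_mod_cast hQr
    nlinarith
  have h6 : -κ * (N * ((Q : ℝ) ^ r * Q)) + C * (N * (2 * (Q : ℝ) ^ r) * (1 + (S : ℝ) ^ 2)) =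
      N * Q ^ r * (2 * C * (1 + (S : ℝ) ^ 2) - κ * Q) := by ring
  rw [h6] at h2
  have h7 := mul_neg_of_pos_of_neg h3 (sub_neg.2 hpar)
  linarith

theorem AMain_mono {M : Type*} [Field M] {n : ℕ} {c c' : ℝ} (h : c ≤ c')
    {X : (Fin n → ℤ) → M} (hX : Grow c X) : Grow c' X := by
  intro s
  obtain ⟨b, hb0, hb, hbi, hτ⟩ := hX s
  have h1 : 0 ≤ 1 + ∑ i, (s i : ℝ) ^ 2 := by positivity
  have h2 : Real.exp (c * (1 + ∑ i, (s i : ℝ) ^ 2)) ≤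
      Real.exp (c' * (1 + ∑ i, (s i : ℝ) ^ 2)) :=
    Real.exp_le_exp.2 (mul_le_mul_of_nonneg_right h h1)
  exact ⟨b, hb0, hb.trans h2, hbi, fun τ => (hτ τ).trans h2⟩

theorem AMain_kappa {x : ℝ} (hr : x < 1) : ∃ κ : ℝ, 0 < κ ∧ x ≤ Real.exp (-κ) := by
  by_cases h0 : x ≤ 0
  · exact ⟨1, one_pos, h0.trans (Real.exp_pos _).le⟩
  · push Not at h0
    refine ⟨-Real.log x, ?_, ?_⟩
    · have := Real.log_neg h0 hr
      linarith
    · rw [neg_neg, Real.exp_log h0]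

universe u

variable {M : Type u} [Field M] [NumberField M] [IsGalois ℚ M] [DecidableEq M]
variable {K : Type*} [NontriviallyNormedField K] [CompleteSpace K] [IsUltrametricDist K]
  [CharZero K] [DecidableEq K] {p : ℕ} [Fact p.Prime] [NormedAlgebra ℚ_[p] K]
variable {W : WeierstrassCurve ℚ} [(W⁄M).IsElliptic]

/-- Suppose that `z 0 j = ∑ i, u i * z (i + 1) j` for all `j`, `‖u i‖ ≤ 1`.  If `r = 0` then
`P 0 = 0`, contradiction.  Let `m = r + 1`, `κ = kap m (2 r + 1) 0`; `2 (κ + 1) ≤ 2 ^ m (m (2 r + 2)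
+ 2) = 2 ^ (m + 1) (m ^ 2 + 1)` (`kap_bound`), so `m κ < n`.  By `NC_twist` and `zero_est`
`ZE γ (2 r + 1) 0` for `γ = gam P`; `x(γ_s i) ≠ 0` for `s ≠ 0` because `ι` of it is
`1 / f(zet z s i)`.  `grow_iX` gives `Grow`, `det_lower` the constant `C`; let
`exp (-κ') = ρ R`, `R = rad r₀`, `ρ = r₀` (`LC.mul_rad_lt`, `LC.bd`).  For `S` large take `Q` from
`AMain_param`, `D = 2 Q ^ r ≤ S ^ (2 r + 1)`, `s` from `exists_det_ne_zero`
(`L = Fin m → Fin D`).  The entries of the determinant are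
`ι (∏ i, iX(γ_s i) ^ l i) = phi f u l (v s)` with `v s = (zet z s (i + 1))_i`, since
`zet z s 0 = ∑ i, u i * zet z s (i + 1)`; so `det_phi_le` with `Θ = card L * (Q ^ r * Q)`
(`count_degree`) and `det_lower` contradict each other by `AMain_contra`. -/
theorem A_indep {r n : ℕ} (hn : (r + 1) * (2 ^ (r + 1) * ((r + 1) ^ 2 + 1)) ≤ n)
    {ρ : (M ≃ₐ[ℚ] M) →* GL (Fin n) ℤ} {P : Fin (r + 1) → Fin n → (W⁄M).toAffine.Point}
    (hρ : Irr ρ) (hP : ∀ i, IsTw W ρ (P i))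
    (hb : ∀ b : Fin (r + 1) → ℤ, ∑ i, b i • P i = 0 → b = 0) (ι : M →+* K) {r₀ : ℝ}
    (hLC : LC p ((W⁄M).map ι).b₂ ((W⁄M).map ι).b₄ ((W⁄M).map ι).b₆ r₀)
    {z : Fin (r + 1) → Fin n → K} (hz : ∀ i j, ‖z i j‖ ≤ rad r₀)
    (hzP : ∀ i j, expPt ((W⁄M).map ι) (z i j) = pmap (W⁄M) ι (P i j))
    {u : Fin r → K} (hu : ∀ i, ‖u i‖ ≤ 1) (hrel : ∀ j, z 0 j = ∑ i : Fin r, u i * z i.succ j) :
    False := by
  classical
  -- the zero estimate
  have hkap := kap_bound (r + 1) (2 * r + 1) 0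
  have hk1 : (r + 1) * (kap (r + 1) (2 * r + 1) 0 + 1) ≤ n := by
    have h1 : 2 ^ (r + 1) * ((r + 1) * (2 * r + 1 + 1) + 0 + 2) =
        2 * (2 ^ (r + 1) * ((r + 1) ^ 2 + 1)) := by ring
    rw [h1] at hkap
    have h2 : kap (r + 1) (2 * r + 1) 0 + 1 ≤ 2 ^ (r + 1) * ((r + 1) ^ 2 + 1) := by omega
    exact (Nat.mul_le_mul_left _ h2).trans hn
  have hk2 : (r + 1) * kap (r + 1) (2 * r + 1) 0 < n := by
    rw [mul_add, mul_one] at hk1
    omega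
  have hk3 : kap (r + 1) (2 * r + 1) 0 < n := by
    have h3 : kap (r + 1) (2 * r + 1) 0 ≤ (r + 1) * kap (r + 1) (2 * r + 1) 0 :=
      Nat.le_mul_of_pos_left _ (by omega)
    omega
  have hn0 : 0 < n := by omega
  have hγ : ∀ s i, gam (W⁄M) P s i = 0 → s = 0 := fun s i hs => NT_ind hρ hP hb i s hs
  have hNC := NC_twist hρ hP hb ι hLC hz hzP hk2 hk3
  have hZE : ZE (W⁄M) (gam (W⁄M) P) (2 * r + 1) 0 :=
    zero_est (W⁄M) (r + 1) (gam (W⁄M) P) hγ (2 * r + 1) 0 _ le_rfl hNC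
  -- the values
  have hE : ((W⁄M).map ι).IsElliptic := inferInstance
  have hval : ∀ (s : Fin n → ℤ) (i : Fin (r + 1)),
      ι (iX (W⁄M) (gam (W⁄M) P s i)) = ev (fV ((W⁄M).map ι)) (zet z s i) := fun s i =>
    RelOf_iX (W⁄M) ι hLC (hz i) (hzP i) s
  have hnorm : ∀ (s : Fin n → ℤ) (i : Fin (r + 1)), ‖zet z s i‖ ≤ rad r₀ := fun s i =>
    RelOf_norm (hz i) p hLC.rad_pos.le s
  have hx : ∀ s, s ≠ 0 → ∀ i, xco (W⁄M) (gam (W⁄M) P s i) ≠ 0 := by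
    intro s hs i h0
    have h1 : iX (W⁄M) (gam (W⁄M) P s i) = 0 := by
      generalize gam (W⁄M) P s i = R at h0 ⊢
      rcases R with _ | ⟨x, y, h⟩
      · rfl
      · rw [iX_some]
        rw [xco_some] at h0
        rw [h0, _root_.inv_zero]
    have h2 := hval s i
    rw [h1, map_zero] at h2
    have h3 : zet z s i ≠ 0 := by
      intro h4
      apply hs
      apply RelOf_injective (W⁄M) ι hLC (hz i) (hzP i) (fun t ht => NT_ind hρ hP hb i t ht)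
      change ∑ j, (s j : K) * z i j = ∑ j, ((0 : Fin n → ℤ) j : K) * z i j
      rw [← zet_apply, h4]
      simp
    exact Exp_ev_ne ((W⁄M).map ι) hLC (hnorm s i) h3 h2.symm
  obtain ⟨S₁, hS₁⟩ := exists_det_ne_zero (W⁄M) (gam (W⁄M) P) hn0 hx hZE
  -- the growth
  have hgr : ∃ c : ℝ, 0 ≤ c ∧ ∀ i, Grow c fun s => iX (W⁄M) (gam (W⁄M) P s i) := by
    choose c hc0 hc using fun i => grow_iX (W⁄M) (P i)
    refine ⟨∑ i, c i, Finset.sum_nonneg fun i _ => hc0 i, fun i => ?_⟩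
    exact AMain_mono (Finset.single_le_sum (fun j _ => hc0 j) (Finset.mem_univ i)) (hc i)
  obtain ⟨c, hc, hgrow⟩ := hgr
  obtain ⟨C, hC, hlow⟩ := det_lower (K := K) p hc
    (X := fun i s => iX (W⁄M) (gam (W⁄M) P s i)) hgrow ι
  obtain ⟨κ', hκ0, hκ'⟩ := AMain_kappa hLC.mul_rad_lt
  obtain ⟨S₀, hS₀⟩ := AMain_param r hC hκ0
  obtain ⟨Q, hQ1, hQ2, hQ3⟩ := hS₀ (max S₀ S₁) (le_max_left _ _)
  obtain ⟨s, hs1, hs2⟩ := hS₁ (max S₀ S₁) (le_max_right _ _) (2 * Q ^ r) hQ2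
  have hcard : Fintype.card (Fin (r + 1) → Fin (2 * Q ^ r)) = (2 * Q ^ r) ^ (r + 1) := by
    rw [Fintype.card_fun, Fintype.card_fin, Fintype.card_fin]
  have hr0 : (0 : ℝ) ≤ r₀ := by linarith [hLC.two_le]
  -- the determinant
  have hdet : ι (Matrix.of fun (l : Fin (r + 1) → Fin (2 * Q ^ r)) μ =>
      ∏ i, iX (W⁄M) (gam (W⁄M) P (s μ) i) ^ (l i : ℕ)).det =
      (Matrix.of fun (l : Fin (r + 1) → Fin (2 * Q ^ r)) μ =>
        phi (fV ((W⁄M).map ι)) u (fun i => (l i : ℕ)) (fun i => zet z (s μ) i.succ)).det := by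
    rw [RingHom.map_det]
    congr 1
    ext l μ
    rw [RingHom.mapMatrix_apply, Matrix.map_apply, Matrix.of_apply, Matrix.of_apply, map_prod,
      Fin.prod_univ_succ]
    have h1 : zet z (s μ) 0 = ∑ i, u i * zet z (s μ) i.succ := by
      rw [zet_apply]
      simp only [zet_apply]
      rw [Finset.sum_congr rfl fun j _ => by rw [hrel j, Finset.mul_sum], Finset.sum_comm]
      refine Finset.sum_congr rfl fun i _ => ?_
      rw [Finset.mul_sum]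
      exact Finset.sum_congr rfl fun j _ => by ring
    unfold phi
    rw [map_pow, hval, h1]
    congr 1
    refine Finset.prod_congr rfl fun i _ => ?_
    rw [map_pow, hval]
  have hup : ‖ι (Matrix.of fun (l : Fin (r + 1) → Fin (2 * Q ^ r)) μ =>
      ∏ i, iX (W⁄M) (gam (W⁄M) P (s μ) i) ^ (l i : ℕ)).det‖ ≤
      (r₀ * rad r₀) ^ ((2 * Q ^ r) ^ (r + 1) * (Q ^ r * Q)) := by
    rw [hdet]
    refine det_phi_le hr0 hLC.bd hLC.rad_pos.le hLC.mul_rad_lt hu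
      (fun (l : Fin (r + 1) → Fin (2 * Q ^ r)) i => (l i : ℕ)) _ (fun μ i => hnorm _ _) _ ?_
    intro α hα
    have h1 := count_degree hQ1 hcard α hα
    rw [hcard] at h1
    have h2 : (2 * Q ^ r) ^ (r + 1) * (2 * Q ^ r * Q) =
        2 * ((2 * Q ^ r) ^ (r + 1) * (Q ^ r * Q)) := by ring
    omega
  have hlow' := hlow (2 * Q ^ r) (max S₀ S₁) (Fin (r + 1) → Fin (2 * Q ^ r))
    (fun l i => (l i : ℕ)) (fun l i => (l i).2) hcard.le s (fun l j => (hs1 l).2 j) hs2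
  rw [hcard] at hlow'
  exact AMain_contra hQ1 (mul_nonneg hr0 hLC.rad_pos.le) hκ' hQ3 rfl hup hlow'

/-- If `∑ i, x i * z i j = 0` for all `j` with `x ≠ 0` choose `i₀` with `‖x i₀‖` maximal (so `m`
is not `0`), exchange the indices `0` and `i₀` (`Equiv.swap`) and apply `A_indep` with
`u i = - x i / x i₀`. -/
theorem A_logs_indep {m n : ℕ} (hn : m * (2 ^ m * (m ^ 2 + 1)) ≤ n)
    {ρ : (M ≃ₐ[ℚ] M) →* GL (Fin n) ℤ} {P : Fin m → Fin n → (W⁄M).toAffine.Point}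
    (hρ : Irr ρ) (hP : ∀ i, IsTw W ρ (P i))
    (hb : ∀ b : Fin m → ℤ, ∑ i, b i • P i = 0 → b = 0) (ι : M →+* K) {r₀ : ℝ}
    (hLC : LC p ((W⁄M).map ι).b₂ ((W⁄M).map ι).b₄ ((W⁄M).map ι).b₆ r₀)
    {z : Fin m → Fin n → K} (hz : ∀ i j, ‖z i j‖ ≤ rad r₀)
    (hzP : ∀ i j, expPt ((W⁄M).map ι) (z i j) = pmap (W⁄M) ι (P i j))
    {x : Fin m → K} (hx : ∀ j, ∑ i, x i * z i j = 0) : x = 0 := by
  classical
  by_contra hne
  obtain ⟨i₁, hi₁⟩ := Function.ne_iff.1 hne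
  rcases m with _ | r
  · exact i₁.elim0
  obtain ⟨i₀, -, hi₀⟩ := Finset.exists_max_image Finset.univ (fun i => ‖x i‖) ⟨i₁, Finset.mem_univ _⟩
  have hx0 : x i₀ ≠ 0 := by
    intro h0
    have h1 := hi₀ i₁ (Finset.mem_univ _)
    rw [h0, norm_zero] at h1
    exact hi₁ (norm_le_zero_iff.1 h1)
  set e : Equiv.Perm (Fin (r + 1)) := Equiv.swap 0 i₀ with he
  have he0 : e 0 = i₀ := Equiv.swap_apply_left 0 i₀
  refine A_indep hn hρ (P := fun i => P (e i)) (fun i => hP (e i)) ?_ ι hLC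
    (z := fun i => z (e i)) (fun i j => hz (e i) j) (fun i j => hzP (e i) j)
    (u := fun i => -(x (e i.succ)) / x i₀) ?_ ?_
  · intro b hb'
    have h1 : ∑ i, (fun i => b (e.symm i)) i • P i = 0 := by
      rw [← Equiv.sum_comp e]
      simpa using hb'
    have h2 := hb _ h1
    funext i
    have h3 := congrFun h2 (e i)
    simpa using h3
  · intro i
    rw [norm_div, norm_neg, div_le_one (norm_pos_iff.2 hx0)]
    exact hi₀ _ (Finset.mem_univ _)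
  · intro j
    have h1 := hx j
    rw [← Equiv.sum_comp e, Fin.sum_univ_succ, he0] at h1
    rw [he0]
    have h2 : z i₀ j = (x i₀)⁻¹ * (x i₀ * z i₀ j) := by
      rw [← mul_assoc, inv_mul_cancel₀ hx0, one_mul]
    rw [h2, eq_neg_of_add_eq_zero_left h1, mul_neg, Finset.mul_sum, ← Finset.sum_neg_distrib]
    refine Finset.sum_congr rfl fun i _ => ?_
    rw [div_eq_mul_inv]
    ring

end Pool.Agent.PTwistG
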