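import Pool.Agent.W_52423g_h30.AMain
import Pool.Agent.W_52423f_h30.Clos
import Pool.Agent.W_52423f_h30.Tor
import Pool.Agent.W_52423f_h30.Grp

/-!
# The closure of a subgroup of rank `m` of the twist
-/

namespace Pool.Agent.PTwistG

open WeierstrassCurve WeierstrassCurve.Affine Pool.Agent.PTwist

universe u

variable {M : Type u} [Field M] [NumberField M] [IsGalois ℚ M] [DecidableEq M]
variable {K : Type*} [NontriviallyNormedField K] [CompleteSpace K] [IsUltrametricDist K]
  [IsAlgClosed K] [CharZero K] [DecidableEq K] {p : ℕ} [Fact p.Prime] [NormedAlgebra ℚ_[p] K]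

/-- As `main_general` in `W_52423f_h30/Main.lean`, with `Grp_basis` for `d = m`,
`exists_near_family`, `A_logs_indep` and `clos_hasRank`. -/
theorem main_m (W : WeierstrassCurve ℚ) [W.IsElliptic] {m n : ℕ}
    (hn : m * (2 ^ m * (m ^ 2 + 1)) ≤ n)
    (ρ : (M ≃ₐ[ℚ] M) →* Matrix.GeneralLinearGroup (Fin n) ℤ) (hρ : Irr ρ) (ι : M →+* K)
    (L : AddSubgroup (Fin n → (W⁄M).toAffine.Point)) (hL : ∀ P ∈ L, IsTw W ρ P) (hfg : L.FG)
    (hr : Module.finrank ℤ L = m) :
    HasRank (fun _ : Fin n => (W⁄M).map ι) p m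
      (clos (fun _ : Fin n => (W⁄M).map ι)
        ((fun P i => pmap (W⁄M) ι (P i)) '' (L : Set (Fin n → (W⁄M).toAffine.Point)))) := by
  sorry

end Pool.Agent.PTwistG
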