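import Pool.Agent.W_52423f_h30.EvB

/-!
# Derivatives
-/

namespace Pool.Agent.PTwistG

open MvPolynomial Pool.Agent.PTwist Filter Topology

theorem NTa_r {ρ x : ℝ} (hρ : 0 ≤ ρ) (hx : 0 ≤ x) (h : ρ * x < 1) :
    ∃ r : ℝ, x < r ∧ 0 < r ∧ ρ * r < 1 := by
  refine ⟨x + (1 - ρ * x) / (2 * (ρ + 1)), ?_, ?_, ?_⟩
  · have h1 : 0 < (1 - ρ * x) / (2 * (ρ + 1)) := div_pos (by linarith) (by linarith)
    linarith
  · have h1 : 0 < (1 - ρ * x) / (2 * (ρ + 1)) := div_pos (by linarith) (by linarith)
    linarith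
  · have h1 : ρ * ((1 - ρ * x) / (2 * (ρ + 1))) ≤ (1 - ρ * x) / 2 := by
      rw [mul_div_assoc', div_le_div_iff₀ (by linarith) (by norm_num)]
      nlinarith
    rw [mul_add]
    linarith

/-- the terms of the difference quotient -/
theorem NTa_term {K : Type*} [NontriviallyNormedField K] [CompleteSpace K]
    [IsUltrametricDist K] {ρ c r : ℝ} {F : PowerSeries K} {z w : K} (hρ : 0 ≤ ρ) (h : Bd ρ c F)
    (hr : 0 < r) (hz : ‖z‖ ≤ r) (hw : ‖w‖ ≤ r) (n : ℕ) :
    ‖PowerSeries.coeff n F * ∑ i ∈ Finset.range n, w ^ i * z ^ (n - 1 - i)‖ ≤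
      c / r * (ρ * r) ^ n := by
  have hc := h.nonneg
  have h1 : ‖∑ i ∈ Finset.range n, w ^ i * z ^ (n - 1 - i)‖ ≤ r ^ n / r := by
    refine IsUltrametricDist.norm_sum_le_of_forall_le_of_nonneg (by positivity) fun i hi => ?_
    have hi' := Finset.mem_range.1 hi
    rw [norm_mul, norm_pow, norm_pow]
    calc ‖w‖ ^ i * ‖z‖ ^ (n - 1 - i) ≤ r ^ i * r ^ (n - 1 - i) :=
          mul_le_mul (pow_le_pow_left₀ (norm_nonneg _) hw _) (pow_le_pow_left₀ (norm_nonneg _) hz _)
            (by positivity) (by positivity)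
      _ = r ^ n / r := by
          rw [eq_div_iff hr.ne', ← pow_add, ← pow_succ]
          congr 1
          omega
  rw [norm_mul]
  calc ‖PowerSeries.coeff n F‖ * ‖∑ i ∈ Finset.range n, w ^ i * z ^ (n - 1 - i)‖ ≤
        (c * ρ ^ n) * (r ^ n / r) := mul_le_mul (h n) h1 (norm_nonneg _) (by positivity)
    _ = c / r * (ρ * r) ^ n := by
        rw [mul_pow]
        ring

/-- The power series is differentiable term by term:
`(z + t) ^ n - z ^ n - n t z ^ (n - 1) = t ^ 2 * (integral polynomial)`, and in the ultrametric case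
`‖ev F (z + t) - ev F z - t * ev F' z‖ ≤ C ‖t‖ ^ 2` for small `t` (choose `r > ‖z‖`, `ρ r < 1`,
`0 < r`; then `C = c * r ^ (-2)`). -/
theorem hasDerivAt_ev {K : Type*} [NontriviallyNormedField K] [CompleteSpace K]
    [IsUltrametricDist K] {ρ c : ℝ} {F : PowerSeries K} {z : K} (hρ : 0 ≤ ρ) (h : Bd ρ c F)
    (hz : ρ * ‖z‖ < 1) :
    HasDerivAt (fun w => ev F w) (ev (PowerSeries.derivative K F) z) z := by
  obtain ⟨r, hzr, hr, hρr⟩ := NTa_r hρ (norm_nonneg z) hz
  have hsum : Summable fun n : ℕ => c / r * (ρ * r) ^ n :=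
    (summable_geometric_of_lt_one (by positivity) hρr).mul_left _
  have hev : ∀ᶠ w in 𝓝[≠] z, ‖w‖ ≤ r := by
    have h1 : ∀ᶠ w in 𝓝 z, ‖w‖ < r := continuous_norm.tendsto z |>.eventually (gt_mem_nhds hzr)
    exact (h1.filter_mono nhdsWithin_le_nhds).mono fun w hw => hw.le
  have key : Tendsto (fun w => ∑' n, PowerSeries.coeff n F *
      ∑ i ∈ Finset.range n, w ^ i * z ^ (n - 1 - i)) (𝓝[≠] z)
      (𝓝 (∑' n, PowerSeries.coeff n F *
        ∑ i ∈ Finset.range n, z ^ i * z ^ (n - 1 - i))) := by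
    refine tendsto_tsum_of_dominated_convergence hsum (fun n => ?_) ?_
    · have h1 : Continuous fun w : K => PowerSeries.coeff n F *
          ∑ i ∈ Finset.range n, w ^ i * z ^ (n - 1 - i) := by fun_prop
      exact (h1.tendsto z).mono_left nhdsWithin_le_nhds
    · filter_upwards [hev] with w hw n
      exact NTa_term hρ h hr hzr.le hw n
  have hlim : ev (PowerSeries.derivative K F) z = ∑' n, PowerSeries.coeff n F *
      ∑ i ∈ Finset.range n, z ^ i * z ^ (n - 1 - i) := by
    have hs : Summable fun n => PowerSeries.coeff n F *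
        ∑ i ∈ Finset.range n, z ^ i * z ^ (n - 1 - i) :=
      Summable.of_norm_bounded hsum fun n => NTa_term hρ h hr hzr.le hzr.le n
    rw [hs.tsum_eq_zero_add, Finset.sum_range_zero, mul_zero, zero_add]
    unfold ev
    refine tsum_congr fun n => ?_
    have h2 : ∑ i ∈ Finset.range (n + 1), z ^ i * z ^ (n + 1 - 1 - i) = ((n : K) + 1) * z ^ n := by
      have h3 : ∀ i ∈ Finset.range (n + 1), z ^ i * z ^ (n + 1 - 1 - i) = z ^ n := by
        intro i hi
        have hi' := Finset.mem_range.1 hi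
        rw [← pow_add]
        congr 1
        omega
      rw [Finset.sum_congr rfl h3, Finset.sum_const, Finset.card_range, nsmul_eq_mul]
      push_cast
      ring
    rw [PowerSeries.coeff_derivative, h2]
    ring
  rw [hasDerivAt_iff_tendsto_slope, hlim]
  refine key.congr' ?_
  filter_upwards [hev, self_mem_nhdsWithin] with w hw hne
  have hne' : w - z ≠ 0 := sub_ne_zero.2 hne
  have hw' : ρ * ‖w‖ < 1 := (mul_le_mul_of_nonneg_left hw hρ).trans_lt hρr
  have h1 : ev F w - ev F z = (∑' n, PowerSeries.coeff n F *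
      ∑ i ∈ Finset.range n, w ^ i * z ^ (n - 1 - i)) * (w - z) := by
    unfold ev
    rw [← (h.summable hρ hw').of_norm.tsum_sub (h.summable hρ hz).of_norm, ← tsum_mul_right]
    refine tsum_congr fun n => ?_
    have h2 := (Commute.all w z).geom_sum₂_mul n
    rw [mul_assoc, h2]
    ring
  rw [slope_def_field, h1, mul_div_assoc, div_self hne', mul_one]

/-- chain rule for polynomials in several variables (`MvPolynomial.induction_on`) -/
theorem hasDerivAt_mv {k K : Type*} [Field k] [NontriviallyNormedField K] (j : k →+* K) {m : ℕ}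
    (G : MvPolynomial (Fin m) k) {g : Fin m → K → K} {g' : Fin m → K} {t : K}
    (hg : ∀ i, HasDerivAt (g i) (g' i) t) :
    HasDerivAt (fun t => eval₂ j (fun i => g i t) G)
      (∑ i, g' i * eval₂ j (fun i => g i t) (pderiv i G)) t := by
  induction G using MvPolynomial.induction_on with
  | C a =>
    simp only [eval₂_C, pderiv_C, eval₂_zero, mul_zero, Finset.sum_const_zero]
    exact hasDerivAt_const t (j a)
  | add p q hp hq =>
    simp only [eval₂_add, map_add, mul_add, Finset.sum_add_distrib]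
    exact hp.add hq
  | mul_X p l hp =>
    have h1 := hp.mul (hg l)
    have e1 : (fun t => eval₂ j (fun i => g i t) (p * X l)) =
        (fun t => eval₂ j (fun i => g i t) p) * g l := by
      funext s
      rw [eval₂_mul, eval₂_X]
      rfl
    rw [e1]
    refine h1.congr_deriv ?_
    have e2 : ∀ i, g' i * eval₂ j (fun i => g i t) (pderiv i (p * X l)) =
        (g' i * eval₂ j (fun i => g i t) (pderiv i p)) * g l t +
          (if i = l then g' i * eval₂ j (fun i => g i t) p else 0) := by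
      intro i
      rw [pderiv_mul, eval₂_add, eval₂_mul, eval₂_mul, eval₂_X, pderiv_X]
      by_cases hil : i = l
      · subst hil
        rw [if_pos rfl, Pi.single_eq_same, eval₂_one]
        ring
      · rw [if_neg hil, Pi.single_eq_of_ne (Ne.symm hil), eval₂_zero]
        ring
    rw [Finset.sum_congr rfl fun i _ => e2 i, Finset.sum_add_distrib, ← Finset.sum_mul,
      Finset.sum_ite_eq' Finset.univ l, if_pos (Finset.mem_univ l)]
    ring

/-- difference quotients along a sequence -/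
theorem deriv_eq_zero_of_seq {K : Type*} [NontriviallyNormedField K] {Φ : K → K} {Φ' : K}
    (h : HasDerivAt Φ Φ' 0) (h0 : Φ 0 = 0) (u : ℕ → K) (hu : ∀ k, u k ≠ 0)
    (hlim : Tendsto u atTop (𝓝 0)) (hz : ∀ᶠ k in atTop, Φ (u k) = 0) : Φ' = 0 := by
  have h1 := hasDerivAt_iff_tendsto_slope.1 h
  have h2 : Tendsto u atTop (𝓝[≠] 0) :=
    tendsto_nhdsWithin_iff.2 ⟨hlim, Filter.Eventually.of_forall hu⟩
  have h3 := h1.comp h2
  have h4 : (slope Φ 0 ∘ u) =ᶠ[atTop] fun _ => 0 := by
    filter_upwards [hz] with k hk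
    rw [Function.comp_apply, slope_def_field, hk, h0, sub_self, zero_div]
  exact tendsto_nhds_unique (h3.congr' h4) tendsto_const_nhds

end Pool.Agent.PTwistG
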