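import Pool.Agent.W_52423g_h30.ZMDef
import Pool.Agent.W_52423g_h30.NTa
import Pool.Agent.W_52423f_h30.RelOf

/-!
# The family of points of a tuple of points of the twist
-/

namespace Pool.Agent.PTwistG

open WeierstrassCurve WeierstrassCurve.Affine MvPolynomial Pool.Agent.PTwist Matrix

section one

variable {k : Type*} [Field k] (V : WeierstrassCurve k)

/-- `2 y + a₁ x + a₃`, `0` at infinity -/
def eco : V.toAffine.Point → k
  | .zero => 0
  | .some x y _ => 2 * y + V.a₁ * x + V.a₃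

@[simp] theorem eco_some {x y : k} (h : V.toAffine.Nonsingular x y) :
    eco V (.some x y h) = 2 * y + V.a₁ * x + V.a₃ := rfl

/-- `2 y + a₁ x + a₃ = 0` means `P = - P` -/
theorem eco_ne_zero [DecidableEq k] {P : V.toAffine.Point} (hP : P + P ≠ 0) : eco V P ≠ 0 := by
  cases P with
  | zero => exact absurd (add_zero (0 : V.toAffine.Point)) hP
  | some x y h =>
    intro h0
    apply hP
    rw [eco_some] at h0
    refine Point.add_of_Y_eq rfl ?_
    rw [Affine.negY]
    linear_combination h0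

theorem eco_pmap {K : Type*} [Field K] (ι : k →+* K) (P : V.toAffine.Point) :
    eco (V.map ι) (pmap V ι P) = ι (eco V P) := by
  cases P with
  | zero => exact (map_zero ι).symm
  | some x y h =>
    show 2 * ι y + (V.map ι).a₁ * ι x + (V.map ι).a₃ = ι (2 * y + V.a₁ * x + V.a₃)
    simp only [map_a₁, map_a₃, map_add, map_mul, map_ofNat]

variable [DecidableEq k] {m n : ℕ}

/-- the homomorphism `s ↦ (∑ j, s j • P i j)_i` -/
def gam (P : Fin m → Fin n → V.toAffine.Point) :
    (Fin n → ℤ) →+ (Fin m → V.toAffine.Point) where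
  toFun s i := ∑ j, s j • P i j
  map_zero' := by
    funext i
    simp
  map_add' s t := by
    funext i
    simp [add_smul, Finset.sum_add_distrib]

theorem gam_apply (P : Fin m → Fin n → V.toAffine.Point) (s : Fin n → ℤ) (i : Fin m) :
    gam V P s i = ∑ j, s j • P i j := rfl

end one

/-- the homomorphism `s ↦ (∑ j, s j * z i j)_i` -/
def zet {K : Type*} [Field K] {m n : ℕ} (z : Fin m → Fin n → K) :
    (Fin n → ℤ) →+ (Fin m → K) where
  toFun s i := ∑ j, (s j : K) * z i j
  map_zero' := by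
    funext i
    simp
  map_add' s t := by
    funext i
    simp [add_mul, Finset.sum_add_distrib]

theorem zet_apply {K : Type*} [Field K] {m n : ℕ} (z : Fin m → Fin n → K) (s : Fin n → ℤ)
    (i : Fin m) : zet z s i = ∑ j, (s j : K) * z i j := rfl

section Galois

variable {M : Type*} [Field M] [NumberField M] [DecidableEq M] (W : WeierstrassCurve ℚ)

theorem xco_map (g : M →ₐ[ℚ] M) (P : (W⁄M).toAffine.Point) :
    xco (W⁄M) (Point.map g P) = g (xco (W⁄M) P) := by
  cases P with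
  | zero => exact (map_zero g).symm
  | some x y h => rfl

theorem eco_map (g : M →ₐ[ℚ] M) (P : (W⁄M).toAffine.Point) :
    eco (W⁄M) (Point.map g P) = g (eco (W⁄M) P) := by
  cases P with
  | zero => exact (map_zero g).symm
  | some x y h =>
    show 2 * g y + (W⁄M).a₁ * g x + (W⁄M).a₃ = g (2 * y + (W⁄M).a₁ * x + (W⁄M).a₃)
    have h1 : g (W⁄M).a₁ = (W⁄M).a₁ := g.commutes W.a₁
    have h3 : g (W⁄M).a₃ = (W⁄M).a₃ := g.commutes W.a₃
    simp only [map_add, map_mul, map_ofNat, h1, h3]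

end Galois

section exp

variable {K : Type*} [NontriviallyNormedField K] [CompleteSpace K] [IsUltrametricDist K] {p : ℕ}
  [Fact p.Prime] [NormedAlgebra ℚ_[p] K] (C : WeierstrassCurve K) [C.IsElliptic] {r₀ : ℝ}

theorem xco_expPt (h : LC p C.b₂ C.b₄ C.b₆ r₀) {z : K} (hz : ‖z‖ ≤ rad r₀) (h0 : z ≠ 0) :
    xco C (expPt C z) = (ev (fV C) z)⁻¹ := by
  obtain ⟨hn, he⟩ := expPt_eq C h hz h0
  rw [he]
  rfl

/-- `d/dz (1 / f) = - f' / f ^ 2 = 2 y + a₁ x + a₃` at `exp z`; `hasDerivAt_ev`, `LC.norm_ev`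
(`f z ≠ 0`), `HasDerivAt.inv`, `expPt_eq`. -/
theorem hasDerivAt_xco (h : LC p C.b₂ C.b₄ C.b₆ r₀) {z : K} (hz : ‖z‖ ≤ rad r₀) (h0 : z ≠ 0) :
    HasDerivAt (fun w => (ev (fV C) w)⁻¹) (eco C (expPt C z)) z := by
  obtain ⟨hn, he⟩ := expPt_eq C h hz h0
  have hX := Exp_ev_ne C h hz h0
  have h2 := Exp_two_ne (p := p) K
  have hρ : 0 ≤ r₀ := by
    have := h.two_le
    linarith
  have h3 : HasDerivAt (fun w => ev (fV C) w) (ev (PowerSeries.derivative K (fV C)) z) z :=
    hasDerivAt_ev hρ h.bd (h.lt_one hz)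
  refine (h3.inv hX).congr_deriv ?_
  rw [he, eco_some, yV]
  field_simp
  ring

end exp

end Pool.Agent.PTwistG
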