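import Pool.Agent.W_52423g_h30.NTDef

/-!
# A polynomial vanishing on a coset gives linear relations between logarithms
-/

namespace Pool.Agent.PTwistG

open WeierstrassCurve WeierstrassCurve.Affine MvPolynomial Pool.Agent.PTwist Matrix

variable {M : Type*} [Field M] [NumberField M] [DecidableEq M]
variable {K : Type*} [NontriviallyNormedField K] [CompleteSpace K] [IsUltrametricDist K]
  [CharZero K] [DecidableEq K] {p : ℕ} [Fact p.Prime] [NormedAlgebra ℚ_[p] K]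
variable {W : WeierstrassCurve ℚ} [(W⁄M).IsElliptic] {m n : ℕ}
  {ρ : (M ≃ₐ[ℚ] M) →* GL (Fin n) ℤ} {P : Fin m → Fin n → (W⁄M).toAffine.Point}

theorem NTc_xco_pmap {k : Type*} {L : Type*} [Field k] [Field L] (V : WeierstrassCurve k)
    (ι : k →+* L) (P : V.toAffine.Point) : xco (V.map ι) (pmap V ι P) = ι (xco V P) := by
  rcases P with _ | ⟨x, y, h⟩
  · simp [pmap, xco]
  · simp [pmap, xco]

/-- values of `ι ∘ g`: `ι (g (x(P_i(s)))) = x(exp (z_i(s ρ(g)⁻¹)))` (`xco_map`, `IsTw.map_sum`,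
`xco_pmap`, `expPt_sum`, `xco_expPt`); the sum is not zero because `P_i(s) ≠ 0`. -/
theorem NTc_value (hP : ∀ i, IsTw W ρ (P i))
    (hind : ∀ (i : Fin m) (s : Fin n → ℤ), ∑ j, s j • P i j = 0 → s = 0) (ι : M →+* K) {r₀ : ℝ}
    (hLC : LC p ((W⁄M).map ι).b₂ ((W⁄M).map ι).b₄ ((W⁄M).map ι).b₆ r₀) {z : Fin m → Fin n → K}
    (hz : ∀ i j, ‖z i j‖ ≤ rad r₀)
    (hzP : ∀ i j, expPt ((W⁄M).map ι) (z i j) = pmap (W⁄M) ι (P i j)) (g : M ≃ₐ[ℚ] M) (i : Fin m)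
    {s : Fin n → ℤ} (hs : s ≠ 0) :
    zet z (s ᵥ* ((ρ g)⁻¹ : GL (Fin n) ℤ).val) i ≠ 0 ∧
      ι (g (xco (W⁄M) (gam (W⁄M) P s i))) =
        (ev (fV ((W⁄M).map ι)) (zet z (s ᵥ* ((ρ g)⁻¹ : GL (Fin n) ℤ).val) i))⁻¹ ∧
      ι (g (eco (W⁄M) (gam (W⁄M) P s i))) = eco ((W⁄M).map ι) (expPt ((W⁄M).map ι)
        (zet z (s ᵥ* ((ρ g)⁻¹ : GL (Fin n) ℤ).val) i)) := by
  set t : Fin n → ℤ := s ᵥ* ((ρ g)⁻¹ : GL (Fin n) ℤ).val with ht
  have hne : zet z t i ≠ 0 := by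
    intro h0
    have h1 : t = 0 := by
      apply RelOf_injective (W⁄M) ι hLC (hz i) (hzP i) (hind i)
      change ∑ j, (t j : K) * z i j = ∑ j, ((0 : Fin n → ℤ) j : K) * z i j
      rw [← zet_apply z t i, h0]
      simp
    apply hs
    apply Tw_vecMul_injective ((ρ g)⁻¹)
    change s ᵥ* ((ρ g)⁻¹ : GL (Fin n) ℤ).val = 0 ᵥ* ((ρ g)⁻¹ : GL (Fin n) ℤ).val
    rw [← ht, h1, Matrix.zero_vecMul]
  have hnorm : ‖zet z t i‖ ≤ rad r₀ := by
    rw [zet_apply]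
    exact RelOf_norm (hz i) p hLC.rad_pos.le t
  have hkey : expPt ((W⁄M).map ι) (zet z t i) = pmap (W⁄M) ι (∑ j, t j • P i j) := by
    rw [zet_apply]
    exact RelA_key (W⁄M) ι hLC (hz i) (hzP i) t
  have hmap := (hP i).map_sum g s
  refine ⟨hne, ?_, ?_⟩
  · have h1 := xco_map W (g : M →ₐ[ℚ] M) (gam (W⁄M) P s i)
    rw [gam_apply, hmap] at h1
    rw [gam_apply]
    change ι ((g : M →ₐ[ℚ] M) (xco (W⁄M) (∑ j, s j • P i j))) = _
    rw [← h1, ← NTc_xco_pmap, ← hkey]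
    exact xco_expPt ((W⁄M).map ι) hLC hnorm hne
  · have h1 := eco_map W (g : M →ₐ[ℚ] M) (gam (W⁄M) P s i)
    rw [gam_apply, hmap] at h1
    rw [gam_apply]
    change ι ((g : M →ₐ[ℚ] M) (eco (W⁄M) (∑ j, s j • P i j))) = _
    rw [← h1, ← eco_pmap, ← hkey]

/-- addition of a multiple -/
theorem NTc_gam {k : Type*} [Field k] [DecidableEq k] (V : WeierstrassCurve k) {m n : ℕ}
    (P : Fin m → Fin n → V.toAffine.Point) (s₀ σ : Fin n → ℤ) (e : ℤ) (i : Fin m) :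
    gam V P s₀ i + e • gam V P σ i = gam V P (s₀ + e • σ) i := by
  rw [map_add, map_zsmul, Pi.add_apply, Pi.smul_apply]

theorem NTc_zet (z : Fin m → Fin n → K) (R : Matrix (Fin n) (Fin n) ℤ) (s₀ σ₁ σ : Fin n → ℤ)
    (e q : ℤ) (i : Fin m) :
    zet z ((s₀ + e • (σ₁ + q • σ)) ᵥ* R) i =
      zet z ((s₀ + e • σ₁) ᵥ* R) i + (q : K) * ((e : K) * zet z (σ ᵥ* R) i) := by
  rw [smul_add, smul_smul, ← add_assoc, Matrix.add_vecMul, Matrix.smul_vecMul, map_add, map_zsmul,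
    Pi.add_apply, Pi.smul_apply, zsmul_eq_mul ((zet z) (σ ᵥ* R) i) (e * q), Int.cast_mul]
  ring

theorem NTc_unit_ne {s₀ σ : Fin n → ℤ} (h1 : σ ≠ s₀) (h2 : σ ≠ -s₀) (e : ℤˣ) :
    s₀ + (e : ℤ) • σ ≠ 0 := by
  rcases Int.units_eq_one_or e with rfl | rfl
  · intro h
    apply h2
    simp only [Units.val_one, one_smul] at h
    exact (neg_eq_of_add_eq_zero_right h).symm
  · intro h
    apply h1
    simp only [Units.val_neg, Units.val_one, neg_smul, one_smul] at h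
    exact (sub_eq_zero.1 (by rwa [sub_eq_add_neg])).symm

omit [NumberField M] [DecidableEq M] in
theorem NTc_eval (ι : M →+* K) (g : M →+* M) (f : Fin m → M) (h : MvPolynomial (Fin m) M) :
    ι (g (eval f h)) = eval₂ (ι.comp g) (fun i => ι (g (f i))) h := by
  induction h using MvPolynomial.induction_on with
  | C a => simp
  | add p q hp hq => rw [map_add, map_add, map_add, hp, hq, eval₂_add]
  | mul_X p i hp => rw [map_mul, map_mul, map_mul, hp, eval₂_mul, eval_X, eval₂_X]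

/-- The relation.  Let `h` vanish at the points `γ_s₀ + ε γ_σ`, `σ ∈ H` not in `{0, s₀, -s₀}`; let
`σ₁` be one of these `σ` and `σ ∈ H`.  If `σ = 0` the claim is trivial.  Otherwise
`σ₁ + t σ` is admissible for `t = p ^ k`, `k` large (distinct elements, at most three are
forbidden).  With `a i = z_i((s₀ + ε i σ₁) ρ(g)⁻¹)`, `b i = ε i z_i(σ ρ(g)⁻¹)` the function
`Φ(t) = h^(ι g)(1 / f(a i + t b i))` vanishes at `0` and at `p ^ k`, `k` large (`NTc_value`: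
`P_i(s₀ + ε i (σ₁ + t σ)) = γ s₀ i + ε i γ (σ₁ + t σ) i`), so its derivative at `0` is zero
(`deriv_eq_zero_of_seq`), and it is `∑ i, b i * eco(exp (a i)) * (∂_i h)^(ι g)(..)` by
`hasDerivAt_mv`, `hasDerivAt_xco`. -/
theorem coset_relation (hP : ∀ i, IsTw W ρ (P i))
    (hind : ∀ (i : Fin m) (s : Fin n → ℤ), ∑ j, s j • P i j = 0 → s = 0) (ι : M →+* K) {r₀ : ℝ}
    (hLC : LC p ((W⁄M).map ι).b₂ ((W⁄M).map ι).b₄ ((W⁄M).map ι).b₆ r₀) {z : Fin m → Fin n → K}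
    (hz : ∀ i j, ‖z i j‖ ≤ rad r₀)
    (hzP : ∀ i j, expPt ((W⁄M).map ι) (z i j) = pmap (W⁄M) ι (P i j))
    {h : MvPolynomial (Fin m) M} {s₀ : Fin n → ℤ} {ε : Fin m → ℤˣ} {H : AddSubgroup (Fin n → ℤ)}
    (hh : ∀ σ ∈ H, σ ≠ 0 → σ ≠ s₀ → σ ≠ -s₀ →
      eval (fun i => xco (W⁄M) (gam (W⁄M) P s₀ i + (ε i : ℤ) • gam (W⁄M) P σ i)) h = 0)
    {σ₁ : Fin n → ℤ} (h1 : σ₁ ∈ H) (h10 : σ₁ ≠ 0) (h1s : σ₁ ≠ s₀) (h1s' : σ₁ ≠ -s₀)
    (g : M ≃ₐ[ℚ] M) {σ : Fin n → ℤ} (hσ : σ ∈ H) :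
    ∑ i, ι (g (((ε i : ℤ) : M) *
        (eval (fun i => xco (W⁄M) (gam (W⁄M) P s₀ i + (ε i : ℤ) • gam (W⁄M) P σ₁ i)) (pderiv i h) *
          eco (W⁄M) (gam (W⁄M) P s₀ i + (ε i : ℤ) • gam (W⁄M) P σ₁ i)))) *
      zet z (σ ᵥ* ((ρ g)⁻¹ : GL (Fin n) ℤ).val) i = 0 := by
  classical
  by_cases hσ0 : σ = 0
  · subst hσ0
    refine Finset.sum_eq_zero fun i _ => ?_
    rw [Matrix.zero_vecMul, map_zero, Pi.zero_apply, mul_zero]
  set R : Matrix (Fin n) (Fin n) ℤ := ((ρ g)⁻¹ : GL (Fin n) ℤ).val with hR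
  set a : Fin m → K := fun i => zet z ((s₀ + (ε i : ℤ) • σ₁) ᵥ* R) i with ha
  set b : Fin m → K := fun i => ((ε i : ℤ) : K) * zet z (σ ᵥ* R) i with hb
  have hp0 : (p : K) ≠ 0 := by exact_mod_cast (Fact.out : p.Prime).ne_zero
  have hpn : ‖(p : K)‖ < 1 := by
    have e1 : (p : K) = algebraMap ℚ_[p] K (p : ℚ_[p]) := by simp
    rw [e1, norm_algebraMap']
    exact Padic.norm_p_lt_one
  -- values
  have hval : ∀ σ' ∈ H, σ' ≠ 0 → σ' ≠ s₀ → σ' ≠ -s₀ →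
      eval₂ (ι.comp (g : M →+* M))
        (fun i => (ev (fV ((W⁄M).map ι)) (zet z ((s₀ + (ε i : ℤ) • σ') ᵥ* R) i))⁻¹) h = 0 := by
    intro σ' hσ' h0 h2 h3
    have e1 := NTc_eval ι (g : M →+* M)
      (fun i => xco (W⁄M) (gam (W⁄M) P s₀ i + (ε i : ℤ) • gam (W⁄M) P σ' i)) h
    rw [hh σ' hσ' h0 h2 h3, map_zero, map_zero] at e1
    rw [e1]
    congr 1
    funext i
    rw [NTc_gam]
    exact ((NTc_value hP hind ι hLC hz hzP g i (NTc_unit_ne h2 h3 (ε i))).2.1).symm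
  -- the derivative
  have hder : HasDerivAt (fun t : K => eval₂ (ι.comp (g : M →+* M))
      (fun i => (ev (fV ((W⁄M).map ι)) (a i + t * b i))⁻¹) h)
      (∑ i, (eco ((W⁄M).map ι) (expPt ((W⁄M).map ι) (a i)) * b i) *
        eval₂ (ι.comp (g : M →+* M)) (fun i => (ev (fV ((W⁄M).map ι)) (a i + 0 * b i))⁻¹)
          (pderiv i h)) 0 := by
    refine hasDerivAt_mv (ι.comp (g : M →+* M)) h
      (g := fun i t => (ev (fV ((W⁄M).map ι)) (a i + t * b i))⁻¹) fun i => ?_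
    have hv := NTc_value hP hind ι hLC hz hzP g i (NTc_unit_ne h1s h1s' (ε i))
    have hn : ‖a i‖ ≤ rad r₀ := by
      change ‖zet z ((s₀ + (ε i : ℤ) • σ₁) ᵥ* R) i‖ ≤ rad r₀
      rw [zet_apply]
      exact RelOf_norm (hz i) p hLC.rad_pos.le _
    have hd := hasDerivAt_xco ((W⁄M).map ι) hLC hn hv.1
    have hin : HasDerivAt (fun t : K => a i + t * b i) (b i) 0 := by
      have := ((hasDerivAt_id (0 : K)).mul_const (b i)).const_add (a i)
      simpa using this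
    have hd' : HasDerivAt (fun w => (ev (fV ((W⁄M).map ι)) w)⁻¹)
        (eco ((W⁄M).map ι) (expPt ((W⁄M).map ι) (a i))) ((fun t : K => a i + t * b i) 0) := by
      simpa using hd
    exact HasDerivAt.comp (h₂ := fun w : K => (ev (fV ((W⁄M).map ι)) w)⁻¹)
      (h := fun t : K => a i + t * b i) (0 : K) hd' hin
  have h0 : (fun t : K => eval₂ (ι.comp (g : M →+* M))
      (fun i => (ev (fV ((W⁄M).map ι)) (a i + t * b i))⁻¹) h) 0 = 0 := by
    have e1 := hval σ₁ h1 h10 h1s h1s'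
    change eval₂ (ι.comp (g : M →+* M))
      (fun i => (ev (fV ((W⁄M).map ι)) (a i + 0 * b i))⁻¹) h = 0
    simpa [ha] using e1
  have hlim : Filter.Tendsto (fun k : ℕ => (p : K) ^ k) Filter.atTop (nhds 0) :=
    tendsto_pow_atTop_nhds_zero_of_norm_lt_one hpn
  have hinj : Function.Injective fun k : ℕ => σ₁ + ((p : ℤ) ^ k) • σ := by
    intro k l hkl
    have e1 : ((p : ℤ) ^ k) • σ = ((p : ℤ) ^ l) • σ := add_left_cancel hkl
    obtain ⟨j, hj⟩ : ∃ j, σ j ≠ 0 := by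
      by_contra hcon
      push Not at hcon
      exact hσ0 (funext hcon)
    have e2 : (p : ℤ) ^ k * σ j = (p : ℤ) ^ l * σ j := by
      have := congrFun e1 j
      simpa using this
    have e3 : (p : ℤ) ^ k = (p : ℤ) ^ l := mul_right_cancel₀ hj e2
    have e4 : p ^ k = p ^ l := by exact_mod_cast e3
    exact Nat.pow_right_injective (Fact.out : p.Prime).two_le e4
  have hev : ∀ᶠ k : ℕ in Filter.atTop, (fun t : K => eval₂ (ι.comp (g : M →+* M))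
      (fun i => (ev (fV ((W⁄M).map ι)) (a i + t * b i))⁻¹) h) ((p : K) ^ k) = 0 := by
    have hfin : ({0, s₀, -s₀} : Set (Fin n → ℤ)).Finite := by
      simp
    have e1 := hinj.tendsto_cofinite.eventually hfin.eventually_cofinite_notMem
    rw [Nat.cofinite_eq_atTop] at e1
    filter_upwards [e1] with k hk
    simp only [Set.mem_insert_iff, Set.mem_singleton_iff, not_or] at hk
    have e2 := hval _ (H.add_mem h1 (H.zsmul_mem hσ _)) hk.1 hk.2.1 hk.2.2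
    change eval₂ (ι.comp (g : M →+* M))
      (fun i => (ev (fV ((W⁄M).map ι)) (a i + (p : K) ^ k * b i))⁻¹) h = 0
    rw [← e2]
    congr 1
    funext i
    rw [NTc_zet]
    simp [ha, hb]
  have hres := deriv_eq_zero_of_seq hder h0 (fun k : ℕ => (p : K) ^ k)
    (fun k => pow_ne_zero k hp0) hlim hev
  rw [← hres]
  refine Finset.sum_congr rfl fun i _ => ?_
  have hv := NTc_value hP hind ι hLC hz hzP g i (NTc_unit_ne h1s h1s' (ε i))
  have e1 : eval₂ (ι.comp (g : M →+* M)) (fun i => (ev (fV ((W⁄M).map ι)) (a i + 0 * b i))⁻¹)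
      (pderiv i h) = ι (g (eval (fun i => xco (W⁄M) (gam (W⁄M) P s₀ i +
        (ε i : ℤ) • gam (W⁄M) P σ₁ i)) (pderiv i h))) := by
    have e2 := NTc_eval ι (g : M →+* M)
      (fun i => xco (W⁄M) (gam (W⁄M) P s₀ i + (ε i : ℤ) • gam (W⁄M) P σ₁ i)) (pderiv i h)
    change _ = ι ((g : M →+* M) (eval _ (pderiv i h)))
    rw [e2]
    congr 1
    funext j
    rw [NTc_gam, zero_mul, add_zero]
    exact ((NTc_value hP hind ι hLC hz hzP g j (NTc_unit_ne h1s h1s' (ε j))).2.1).symm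
  rw [e1, NTc_gam, map_mul, map_mul, map_mul, map_mul, map_intCast, map_intCast, hv.2.2]
  simp only [ha, hb]
  ring

end Pool.Agent.PTwistG
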