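import Pool.Agent.W_52423g_h30.ZDef

/-!
# Equivalence of tuples of points
-/

namespace Pool.Agent.PTwistG

open WeierstrassCurve WeierstrassCurve.Affine MvPolynomial Pool.Agent.PTwist

universe u

variable {k Ω : Type u} [Field k] [Field Ω] (V : WeierstrassCurve k) (j : k →+* Ω) {m : ℕ}

/-- no coordinate of the tuple is a point over `k` -/
def NK (ξ : Fin m → (V.map j).toAffine.Point) : Prop :=
  ∀ (i : Fin m) (c : V.toAffine.Point), ξ i ≠ pmap V j c

/-- two tuples satisfy the same polynomial relations over `k` -/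
def Eqv (ξ ξ' : Fin m → (V.map j).toAffine.Point) : Prop :=
  ∀ h : MvPolynomial (Fin m ⊕ Fin m) k, valXY V j h ξ = 0 ↔ valXY V j h ξ' = 0

variable {V j} {ξ ξ' ξ'' : Fin m → (V.map j).toAffine.Point}

theorem NK.ne_zero (h : NK V j ξ) (i : Fin m) : ξ i ≠ 0 := h i 0

/-- `x(ξ i) = x(c)` would imply `ξ i = ± c` -/
theorem NK.xco_ne (h : NK V j ξ) (i : Fin m) {c : V.toAffine.Point} (hc : c ≠ 0) :
    xco (V.map j) (ξ i) ≠ j (xco V c) := by
  intro hx
  rw [← xco_pmap] at hx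
  have hc' : pmap V j c ≠ 0 := fun h0 => hc (pmap_injective V j h0)
  rcases eq_or_eq_neg_of_xco (V.map j) (h.ne_zero i) hc' hx with h1 | h1
  · exact h i c h1
  · rw [← pmap_neg] at h1
    exact h i (-c) h1

theorem Eqv.refl (ξ : Fin m → (V.map j).toAffine.Point) : Eqv V j ξ ξ := fun _ => Iff.rfl

theorem Eqv.symm (h : Eqv V j ξ ξ') : Eqv V j ξ' ξ := fun a => (h a).symm

theorem Eqv.trans (h : Eqv V j ξ ξ') (h' : Eqv V j ξ' ξ'') : Eqv V j ξ ξ'' :=
  fun a => (h a).trans (h' a)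

/-- use the polynomials `X (inl i) - C (xco c)` and `X (inr i) - C (yco c)` -/
theorem Eqv.nk (h : Eqv V j ξ ξ') (hξ : NK V j ξ) (h0 : ∀ i, ξ' i ≠ 0) : NK V j ξ' := by
  intro i c hc
  have hc0 : c ≠ 0 := by
    rintro rfl
    exact h0 i hc
  have h1 : ∀ η : Fin m → (V.map j).toAffine.Point,
      valXY V j (X (Sum.inl i) - C (xco V c)) η = xco (V.map j) (η i) - j (xco V c) := by
    intro η
    unfold valXY
    rw [eval₂_sub, eval₂_X, eval₂_C]
    rfl
  have h2 := (h (X (Sum.inl i) - C (xco V c))).2 (by rw [h1, hc, xco_pmap, sub_self])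
  rw [h1, sub_eq_zero] at h2
  exact hξ.xco_ne i hc0 h2

/-- substitution of polynomials -/
theorem ZEq_subst {σ : Fin m ⊕ Fin m → MvPolynomial (Fin m ⊕ Fin m) k}
    {ξ η : Fin m → (V.map j).toAffine.Point}
    (hX : ∀ i, valXY V j (σ (Sum.inl i)) ξ = xco (V.map j) (η i))
    (hY : ∀ i, valXY V j (σ (Sum.inr i)) ξ = yco (V.map j) (η i))
    (h : MvPolynomial (Fin m ⊕ Fin m) k) : valXY V j (bind₁ σ h) ξ = valXY V j h η := by
  unfold valXY at hX hY ⊢
  rw [← coe_eval₂Hom, eval₂Hom_bind₁, ← coe_eval₂Hom]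
  congr 2
  funext s
  rcases s with i | i
  · exact hX i
  · exact hY i

variable [DecidableEq k] [DecidableEq Ω]

theorem NK.add (h : NK V j ξ) (c : Fin m → V.toAffine.Point) :
    NK V j (fun i => ξ i + pmap V j (c i)) := by
  intro i d hd
  have h1 : ξ i = pmap V j (d - c i) := by
    rw [pmap_sub, ← hd, add_sub_cancel_right]
  exact h i _ h1

theorem NK.sign (h : NK V j ξ) (δ : Fin m → ℤˣ) : NK V j (fun i => (δ i : ℤ) • ξ i) := by
  intro i d hd
  have h1 : ξ i = pmap V j ((δ i : ℤ) • d) := by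
    rw [pmap_zsmul, ← hd, smul_smul, ← Units.val_mul, Int.units_mul_self, Units.val_one, one_smul]
  exact h i _ h1

/-- substitute `y i ↦ - y i - a₁ x i - a₃` for the indices with `δ i = -1` (`yco_neg`) -/
theorem Eqv.sign (h : Eqv V j ξ ξ') (h0 : ∀ i, ξ i ≠ 0) (h0' : ∀ i, ξ' i ≠ 0) (δ : Fin m → ℤˣ) :
    Eqv V j (fun i => (δ i : ℤ) • ξ i) (fun i => (δ i : ℤ) • ξ' i) := by
  obtain ⟨σ, hσ⟩ : ∃ σ : Fin m ⊕ Fin m → MvPolynomial (Fin m ⊕ Fin m) k, σ = Sum.elim
      (fun i => X (Sum.inl i))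
      (fun i => if δ i = 1 then X (Sum.inr i) else
        -X (Sum.inr i) - C V.a₁ * X (Sum.inl i) - C V.a₃) := ⟨_, rfl⟩
  have hX : ∀ η : Fin m → (V.map j).toAffine.Point, ∀ i,
      valXY V j (σ (Sum.inl i)) η = xco (V.map j) ((δ i : ℤ) • η i) := by
    intro η i
    rw [xco_zsmul_unit, hσ]
    unfold valXY
    rw [Sum.elim_inl, eval₂_X, Sum.elim_inl]
  have hY : ∀ η : Fin m → (V.map j).toAffine.Point, (∀ i, η i ≠ 0) → ∀ i,
      valXY V j (σ (Sum.inr i)) η = yco (V.map j) ((δ i : ℤ) • η i) := by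
    intro η h0 i
    rcases Int.units_eq_one_or (δ i) with h1 | h1
    · rw [hσ, Sum.elim_inr, if_pos h1, h1]
      unfold valXY
      rw [eval₂_X, Sum.elim_inr, Units.val_one, one_smul]
    · have h2 : δ i ≠ 1 := by
        rw [h1]
        decide
      rw [hσ, Sum.elim_inr, if_neg h2, h1]
      unfold valXY
      rw [eval₂_sub, eval₂_sub, eval₂_neg, eval₂_mul, eval₂_C, eval₂_C, eval₂_X, eval₂_X,
        Sum.elim_inr, Sum.elim_inl, Units.val_neg, Units.val_one, neg_one_smul, yco_neg _ (h0 i)]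
      rfl
  intro p
  rw [← ZEq_subst (hX ξ) (hY ξ h0) p, ← ZEq_subst (hX ξ') (hY ξ' h0') p]
  exact h _

/-- The ring of rational functions of the coordinates without poles at the tuples with `NK`. -/
def ZEq_ring (V : WeierstrassCurve k) (j : k →+* Ω) (m : ℕ) :
    Subring ({ξ : Fin m → (V.map j).toAffine.Point // NK V j ξ} → Ω) where
  carrier := {f | ∃ d p : MvPolynomial (Fin m ⊕ Fin m) k,
    (∀ ξ : {ξ : Fin m → (V.map j).toAffine.Point // NK V j ξ}, valXY V j d ξ.1 ≠ 0) ∧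
      ∀ ξ : {ξ : Fin m → (V.map j).toAffine.Point // NK V j ξ},
        valXY V j p ξ.1 = valXY V j d ξ.1 * f ξ}
  mul_mem' := by
    rintro f g ⟨d, p, hd, hp⟩ ⟨d', p', hd', hp'⟩
    refine ⟨d * d', p * p', fun ξ => ?_, fun ξ => ?_⟩
    · have h1 : valXY V j (d * d') ξ.1 = valXY V j d ξ.1 * valXY V j d' ξ.1 := eval₂_mul _ _
      rw [h1]
      exact mul_ne_zero (hd ξ) (hd' ξ)
    · have h1 : valXY V j (d * d') ξ.1 = valXY V j d ξ.1 * valXY V j d' ξ.1 := eval₂_mul _ _
      have h2 : valXY V j (p * p') ξ.1 = valXY V j p ξ.1 * valXY V j p' ξ.1 := eval₂_mul _ _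
      rw [h1, h2, hp, hp', Pi.mul_apply]
      ring
  one_mem' := by
    refine ⟨1, 1, fun ξ => ?_, fun ξ => ?_⟩
    · have h1 : valXY V j 1 ξ.1 = 1 := eval₂_one _ _
      rw [h1]
      exact one_ne_zero
    · rw [Pi.one_apply, mul_one]
  add_mem' := by
    rintro f g ⟨d, p, hd, hp⟩ ⟨d', p', hd', hp'⟩
    refine ⟨d * d', p * d' + p' * d, fun ξ => ?_, fun ξ => ?_⟩
    · have h1 : valXY V j (d * d') ξ.1 = valXY V j d ξ.1 * valXY V j d' ξ.1 := eval₂_mul _ _
      rw [h1]
      exact mul_ne_zero (hd ξ) (hd' ξ)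
    · have h1 : valXY V j (d * d') ξ.1 = valXY V j d ξ.1 * valXY V j d' ξ.1 := eval₂_mul _ _
      have h2 : valXY V j (p * d' + p' * d) ξ.1 = valXY V j p ξ.1 * valXY V j d' ξ.1 +
          valXY V j p' ξ.1 * valXY V j d ξ.1 := by
        unfold valXY
        rw [eval₂_add, eval₂_mul, eval₂_mul]
      rw [h1, h2, hp, hp', Pi.add_apply]
      ring
  zero_mem' := by
    refine ⟨1, 0, fun ξ => ?_, fun ξ => ?_⟩
    · have h1 : valXY V j 1 ξ.1 = 1 := eval₂_one _ _
      rw [h1]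
      exact one_ne_zero
    · have h1 : valXY V j 0 ξ.1 = 0 := eval₂_zero _ _
      rw [Pi.zero_apply, mul_zero, h1]
  neg_mem' := by
    rintro f ⟨d, p, hd, hp⟩
    refine ⟨d, -p, hd, fun ξ => ?_⟩
    have h1 : valXY V j (-p) ξ.1 = -valXY V j p ξ.1 := eval₂_neg _ _ _
    rw [h1, hp, Pi.neg_apply]
    ring

theorem ZEq_poly (p : MvPolynomial (Fin m ⊕ Fin m) k) :
    (fun ξ : {ξ : Fin m → (V.map j).toAffine.Point // NK V j ξ} => valXY V j p ξ.1) ∈
      ZEq_ring V j m := by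
  refine ⟨1, p, fun ξ => ?_, fun ξ => ?_⟩
  · have h1 : valXY V j 1 ξ.1 = 1 := eval₂_one _ _
    rw [h1]
    exact one_ne_zero
  · have h1 : valXY V j 1 ξ.1 = 1 := eval₂_one _ _
    rw [h1, one_mul]

theorem ZEq_const (a : k) :
    (fun _ : {ξ : Fin m → (V.map j).toAffine.Point // NK V j ξ} => j a) ∈ ZEq_ring V j m := by
  have h := ZEq_poly (V := V) (j := j) (m := m) (C a)
  have e : (fun ξ : {ξ : Fin m → (V.map j).toAffine.Point // NK V j ξ} =>
      valXY V j (C a) ξ.1) = fun _ => j a := by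
    funext ξ
    exact eval₂_C _ _ _
  rwa [e] at h

theorem ZEq_x (i : Fin m) :
    (fun ξ : {ξ : Fin m → (V.map j).toAffine.Point // NK V j ξ} => xco (V.map j) (ξ.1 i)) ∈
      ZEq_ring V j m := by
  have h := ZEq_poly (V := V) (j := j) (m := m) (X (Sum.inl i))
  have e : (fun ξ : {ξ : Fin m → (V.map j).toAffine.Point // NK V j ξ} =>
      valXY V j (X (Sum.inl i)) ξ.1) = fun ξ => xco (V.map j) (ξ.1 i) := by
    funext ξ
    exact eval₂_X _ _ _
  rwa [e] at h

theorem ZEq_y (i : Fin m) :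
    (fun ξ : {ξ : Fin m → (V.map j).toAffine.Point // NK V j ξ} => yco (V.map j) (ξ.1 i)) ∈
      ZEq_ring V j m := by
  have h := ZEq_poly (V := V) (j := j) (m := m) (X (Sum.inr i))
  have e : (fun ξ : {ξ : Fin m → (V.map j).toAffine.Point // NK V j ξ} =>
      valXY V j (X (Sum.inr i)) ξ.1) = fun ξ => yco (V.map j) (ξ.1 i) := by
    funext ξ
    exact eval₂_X _ _ _
  rwa [e] at h

/-- the slope -/
theorem ZEq_slope (i : Fin m) {c : V.toAffine.Point} (hc : c ≠ 0) :
    (fun ξ : {ξ : Fin m → (V.map j).toAffine.Point // NK V j ξ} =>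
      (yco (V.map j) (ξ.1 i) - j (yco V c)) / (xco (V.map j) (ξ.1 i) - j (xco V c))) ∈
      ZEq_ring V j m := by
  have h1 : ∀ η : Fin m → (V.map j).toAffine.Point,
      valXY V j (X (Sum.inl i) - C (xco V c)) η = xco (V.map j) (η i) - j (xco V c) := by
    intro η
    unfold valXY
    rw [eval₂_sub, eval₂_X, eval₂_C]
    rfl
  have h2 : ∀ η : Fin m → (V.map j).toAffine.Point,
      valXY V j (X (Sum.inr i) - C (yco V c)) η = yco (V.map j) (η i) - j (yco V c) := by
    intro η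
    unfold valXY
    rw [eval₂_sub, eval₂_X, eval₂_C]
    rfl
  refine ⟨X (Sum.inl i) - C (xco V c), X (Sum.inr i) - C (yco V c), fun ξ => ?_, fun ξ => ?_⟩
  · rw [h1]
    exact sub_ne_zero.2 (ξ.2.xco_ne i hc)
  · rw [h1, h2, mul_div_cancel₀]
    exact sub_ne_zero.2 (ξ.2.xco_ne i hc)

/-- the coordinates of a translate -/
theorem ZEq_formula {P : (V.map j).toAffine.Point} {c : V.toAffine.Point} (hP : P ≠ 0) (hc : c ≠ 0)
    (hx : xco (V.map j) P ≠ j (xco V c)) {l : Ω}
    (hl : l = (yco (V.map j) P - j (yco V c)) / (xco (V.map j) P - j (xco V c))) :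
    xco (V.map j) (P + pmap V j c) =
        l * l + j V.a₁ * l - j V.a₂ - xco (V.map j) P - j (xco V c) ∧
      yco (V.map j) (P + pmap V j c) =
        -(l * (xco (V.map j) (P + pmap V j c) - xco (V.map j) P) + yco (V.map j) P) -
          j V.a₁ * xco (V.map j) (P + pmap V j c) - j V.a₃ := by
  rcases P with _ | ⟨x, y, h⟩
  · exact absurd rfl hP
  rcases c with _ | ⟨x', y', h'⟩
  · exact absurd rfl hc
  rw [xco_some, yco_some, xco_some, yco_some] at *
  rw [pmap_some, Point.add_of_X_ne hx, xco_some, yco_some,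
    WeierstrassCurve.Affine.slope_of_X_ne hx, ← hl, WeierstrassCurve.Affine.addY,
    WeierstrassCurve.Affine.negY, WeierstrassCurve.Affine.negAddY, WeierstrassCurve.Affine.addX]
  constructor
  · change l ^ 2 + j V.a₁ * l - j V.a₂ - x - j x' = _
    ring
  · rfl

theorem ZEq_coord (i : Fin m) (c : V.toAffine.Point) :
    (fun ξ : {ξ : Fin m → (V.map j).toAffine.Point // NK V j ξ} =>
        xco (V.map j) (ξ.1 i + pmap V j c)) ∈ ZEq_ring V j m ∧
      (fun ξ : {ξ : Fin m → (V.map j).toAffine.Point // NK V j ξ} =>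
        yco (V.map j) (ξ.1 i + pmap V j c)) ∈ ZEq_ring V j m := by
  by_cases hc : c = 0
  · subst hc
    simp only [pmap_zero, add_zero]
    exact ⟨ZEq_x i, ZEq_y i⟩
  · have hl := ZEq_slope (V := V) (j := j) i hc
    have hf := fun ξ : {ξ : Fin m → (V.map j).toAffine.Point // NK V j ξ} =>
      ZEq_formula (ξ.2.ne_zero i) hc (ξ.2.xco_ne i hc) rfl
    have hx : (fun ξ : {ξ : Fin m → (V.map j).toAffine.Point // NK V j ξ} =>
        xco (V.map j) (ξ.1 i + pmap V j c)) ∈ ZEq_ring V j m := by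
      have h1 := (ZEq_ring V j m).sub_mem ((ZEq_ring V j m).sub_mem ((ZEq_ring V j m).sub_mem
        ((ZEq_ring V j m).add_mem ((ZEq_ring V j m).mul_mem hl hl)
          ((ZEq_ring V j m).mul_mem (ZEq_const V.a₁) hl)) (ZEq_const V.a₂)) (ZEq_x i))
        (ZEq_const (xco V c))
      convert h1 using 1
      funext ξ
      exact (hf ξ).1
    refine ⟨hx, ?_⟩
    have h2 := (ZEq_ring V j m).sub_mem ((ZEq_ring V j m).sub_mem ((ZEq_ring V j m).neg_mem
      ((ZEq_ring V j m).add_mem ((ZEq_ring V j m).mul_mem hl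
        ((ZEq_ring V j m).sub_mem hx (ZEq_x i))) (ZEq_y i)))
      ((ZEq_ring V j m).mul_mem (ZEq_const V.a₁) hx)) (ZEq_const V.a₃)
    convert h2 using 1
    funext ξ
    exact (hf ξ).2

theorem ZEq_all (c : Fin m → V.toAffine.Point) (p : MvPolynomial (Fin m ⊕ Fin m) k) :
    (fun ξ : {ξ : Fin m → (V.map j).toAffine.Point // NK V j ξ} =>
      valXY V j p (fun i => ξ.1 i + pmap V j (c i))) ∈ ZEq_ring V j m := by
  induction p using MvPolynomial.induction_on with
  | C a =>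
    have e : (fun ξ : {ξ : Fin m → (V.map j).toAffine.Point // NK V j ξ} =>
        valXY V j (C a) (fun i => ξ.1 i + pmap V j (c i))) = fun _ => j a := by
      funext ξ
      exact eval₂_C _ _ _
    rw [e]
    exact ZEq_const a
  | add p q hp hq =>
    have e : (fun ξ : {ξ : Fin m → (V.map j).toAffine.Point // NK V j ξ} =>
        valXY V j (p + q) (fun i => ξ.1 i + pmap V j (c i))) =
        (fun ξ => valXY V j p (fun i => ξ.1 i + pmap V j (c i))) +
          fun ξ => valXY V j q (fun i => ξ.1 i + pmap V j (c i)) := by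
      funext ξ
      exact eval₂_add _ _
    rw [e]
    exact (ZEq_ring V j m).add_mem hp hq
  | mul_X p s hp =>
    have e : (fun ξ : {ξ : Fin m → (V.map j).toAffine.Point // NK V j ξ} =>
        valXY V j (p * X s) (fun i => ξ.1 i + pmap V j (c i))) =
        (fun ξ => valXY V j p (fun i => ξ.1 i + pmap V j (c i))) *
          fun ξ => Sum.elim (fun i => xco (V.map j) (ξ.1 i + pmap V j (c i)))
            (fun i => yco (V.map j) (ξ.1 i + pmap V j (c i))) s := by
      funext ξ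
      rw [Pi.mul_apply]
      unfold valXY
      rw [eval₂_mul, eval₂_X]
    rw [e]
    refine (ZEq_ring V j m).mul_mem hp ?_
    rcases s with i | i
    · exact (ZEq_coord i (c i)).1
    · exact (ZEq_coord i (c i)).2

/-- The coordinates of `ξ i + c i` are rational functions of those of `ξ i`, with denominator a
power of `x(ξ i) - x(c i) ≠ 0` (`NK.xco_ne`; if `c i = 0` nothing happens).  For every polynomial
`h` there are `N` and a polynomial `h'` with
`valXY h' ξ = ∏ i, (x(ξ i) - x(c i)) ^ N * valXY h (ξ + c)` for all tuples with `NK`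
(`MvPolynomial.induction_on`). -/
theorem Eqv.add (h : Eqv V j ξ ξ') (hξ : NK V j ξ) (hξ' : NK V j ξ')
    (c : Fin m → V.toAffine.Point) :
    Eqv V j (fun i => ξ i + pmap V j (c i)) (fun i => ξ' i + pmap V j (c i)) := by
  intro p
  obtain ⟨d, q, hd, hq⟩ := ZEq_all (V := V) (j := j) c p
  have h1 : ∀ η : {ξ : Fin m → (V.map j).toAffine.Point // NK V j ξ},
      valXY V j p (fun i => η.1 i + pmap V j (c i)) = 0 ↔ valXY V j q η.1 = 0 := by
    intro η
    rw [hq η, mul_eq_zero]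
    exact ⟨fun h0 => Or.inr h0, fun h0 => h0.resolve_left (hd η)⟩
  rw [h1 ⟨ξ, hξ⟩, h1 ⟨ξ', hξ'⟩]
  exact h q

end Pool.Agent.PTwistG
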