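import Pool.Agent.W_52423g_h30.ZGen
import Pool.Agent.W_52423g_h30.ZEq

/-!
# The classes of generic points
-/

namespace Pool.Agent.PTwistG

open WeierstrassCurve WeierstrassCurve.Affine MvPolynomial Pool.Agent.PTwist

universe u

variable {k Ω : Type u} [Field k] [Field Ω] [DecidableEq Ω] (V : WeierstrassCurve k)
  (j : k →+* Ω) {m : ℕ}

/-- The image of the y-coordinate. -/
theorem ZCl_y {P P' : (V.map j).toAffine.Point} (h0 : P ≠ 0) (h0' : P' ≠ 0) {φ : Ω →+* Ω}
    (hφ : φ.comp j = j) (hx : φ (xco (V.map j) P) = xco (V.map j) P') :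
    ∃ δ : ℤˣ, φ (yco (V.map j) P) = yco (V.map j) ((δ : ℤ) • P') := by
  have hj : ∀ a, φ (j a) = j a := fun a => congrArg (fun f : k →+* Ω => f a) hφ
  have e1 := congrArg φ (xco_yco_eq (V.map j) h0)
  have e2 := xco_yco_eq (V.map j) h0'
  simp only [map_add, map_mul, map_pow, WeierstrassCurve.map_a₁, WeierstrassCurve.map_a₂,
    WeierstrassCurve.map_a₃, WeierstrassCurve.map_a₄, WeierstrassCurve.map_a₆, hj, hx] at e1 e2
  have h1 : (φ (yco (V.map j) P) - yco (V.map j) P') * (φ (yco (V.map j) P) + yco (V.map j) P' +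
      j V.a₁ * xco (V.map j) P' + j V.a₃) = 0 := by
    linear_combination e1 - e2
  rcases mul_eq_zero.1 h1 with h | h
  · refine ⟨1, ?_⟩
    rw [Units.val_one, one_smul]
    exact sub_eq_zero.1 h
  · refine ⟨-1, ?_⟩
    rw [Units.val_neg, Units.val_one, neg_one_smul, yco_neg _ h0', WeierstrassCurve.map_a₁,
      WeierstrassCurve.map_a₃]
    linear_combination h

/-- Two generic points of the same hypersurface are equivalent up to signs.  The homomorphism `φ`
maps the x-coordinates of `ξ` to those of `ξ'`; `φ (y(ξ i))` satisfies the Weierstrass equation of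
`x(ξ' i)`, so it is the y-coordinate of `ξ' i` or of `- ξ' i`; this determines `δ i`.  Then
`valXY h (δ ξ') = φ (valXY h ξ)` for all `h`, and `φ` is injective. -/
theorem class_of_gen {ξ ξ' : Fin m → (V.map j).toAffine.Point} (h0 : ∀ i, ξ i ≠ 0)
    (h0' : ∀ i, ξ' i ≠ 0) {φ : Ω →+* Ω} (hφ : φ.comp j = j)
    (hx : ∀ i, φ (xco (V.map j) (ξ i)) = xco (V.map j) (ξ' i)) :
    ∃ δ : Fin m → ℤˣ, Eqv V j ξ (fun i => (δ i : ℤ) • ξ' i) := by
  choose δ hδ using fun i => ZCl_y V j (h0 i) (h0' i) hφ (hx i)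
  refine ⟨δ, fun p => ?_⟩
  have h1 : φ (valXY V j p ξ) = valXY V j p (fun i => (δ i : ℤ) • ξ' i) := by
    unfold valXY
    rw [eval₂_comp_left, hφ]
    congr 1
    funext s
    rcases s with i | i
    · simp only [Function.comp_apply, Sum.elim_inl]
      rw [hx i, xco_zsmul_unit]
    · simp only [Function.comp_apply, Sum.elim_inr]
      exact hδ i
  rw [← h1, map_eq_zero]

end Pool.Agent.PTwistG
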