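import Pool.Agent.W_52423f_h30.PMap

/-!
# Polynomials in the coordinates of a tuple of points
-/

namespace Pool.Agent.PTwistG

open WeierstrassCurve WeierstrassCurve.Affine MvPolynomial Pool.Agent.PTwist

universe u

section one

variable {k : Type u} [Field k] (V : WeierstrassCurve k)

/-- the x-coordinate, `0` at infinity -/
def xco : V.toAffine.Point → k
  | .zero => 0
  | .some x _ _ => x

/-- the y-coordinate, `0` at infinity -/
def yco : V.toAffine.Point → k
  | .zero => 0
  | .some _ y _ => y

@[simp] theorem xco_zero : xco V 0 = 0 := rfl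

@[simp] theorem yco_zero : yco V 0 = 0 := rfl

@[simp] theorem xco_some {x y : k} (h : V.toAffine.Nonsingular x y) : xco V (.some x y h) = x := rfl

@[simp] theorem yco_some {x y : k} (h : V.toAffine.Nonsingular x y) : yco V (.some x y h) = y := rfl

theorem xco_neg (P : V.toAffine.Point) : xco V (-P) = xco V P := by
  rcases P with _ | ⟨x, y, h⟩
  · rfl
  · rfl

theorem yco_neg {P : V.toAffine.Point} (hP : P ≠ 0) :
    yco V (-P) = -yco V P - V.a₁ * xco V P - V.a₃ := by
  rcases P with _ | ⟨x, y, h⟩
  · exact absurd rfl hP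
  · rw [Point.neg_some, yco_some, yco_some, xco_some]
    simp only [WeierstrassCurve.Affine.negY]

/-- `Y_eq_of_X_eq` -/
theorem eq_or_eq_neg_of_xco {P Q : V.toAffine.Point} (hP : P ≠ 0) (hQ : Q ≠ 0)
    (h : xco V P = xco V Q) : P = Q ∨ P = -Q := by
  rcases P with _ | ⟨x, y, hxy⟩
  · exact absurd rfl hP
  rcases Q with _ | ⟨x', y', hxy'⟩
  · exact absurd rfl hQ
  rw [xco_some, xco_some] at h
  subst h
  rcases WeierstrassCurve.Affine.Y_eq_of_X_eq hxy.1 hxy'.1 rfl with h1 | h1
  · left
    subst h1
    rfl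
  · right
    subst h1
    rfl

theorem eq_of_xco_yco {P Q : V.toAffine.Point} (hP : P ≠ 0) (hQ : Q ≠ 0)
    (h : xco V P = xco V Q) (h' : yco V P = yco V Q) : P = Q := by
  rcases P with _ | ⟨x, y, hxy⟩
  · exact absurd rfl hP
  rcases Q with _ | ⟨x', y', hxy'⟩
  · exact absurd rfl hQ
  rw [xco_some, xco_some] at h
  rw [yco_some, yco_some] at h'
  subst h
  subst h'
  rfl

/-- the Weierstrass equation -/
theorem xco_yco_eq {P : V.toAffine.Point} (hP : P ≠ 0) :
    yco V P ^ 2 + V.a₁ * xco V P * yco V P + V.a₃ * yco V P =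
      xco V P ^ 3 + V.a₂ * xco V P ^ 2 + V.a₄ * xco V P + V.a₆ := by
  rcases P with _ | ⟨x, y, hxy⟩
  · exact absurd rfl hP
  rw [xco_some, yco_some]
  exact (WeierstrassCurve.Affine.equation_iff (W := V.toAffine) x y).1 hxy.1

theorem zsmul_unit_ne_zero [DecidableEq k] {P : V.toAffine.Point} (hP : P ≠ 0) (e : ℤˣ) :
    (e : ℤ) • P ≠ 0 := by
  rcases Int.units_eq_one_or e with h | h
  · rw [h, Units.val_one, one_smul]
    exact hP
  · rw [h, Units.val_neg, Units.val_one, neg_one_smul]
    exact neg_ne_zero.2 hP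

/-- `x(± P) = x(P)` -/
theorem xco_zsmul_unit [DecidableEq k] (P : V.toAffine.Point) (e : ℤˣ) :
    xco V ((e : ℤ) • P) = xco V P := by
  rcases Int.units_eq_one_or e with h | h
  · rw [h, Units.val_one, one_smul]
  · rw [h, Units.val_neg, Units.val_one, neg_one_smul]
    exact xco_neg V P

end one

section two

variable {k Ω : Type u} [Field k] [Field Ω] (V : WeierstrassCurve k) (j : k →+* Ω) {m : ℕ}

theorem xco_pmap (P : V.toAffine.Point) : xco (V.map j) (pmap V j P) = j (xco V P) := by
  rcases P with _ | ⟨x, y, h⟩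
  · exact (map_zero j).symm
  · rfl

theorem yco_pmap (P : V.toAffine.Point) : yco (V.map j) (pmap V j P) = j (yco V P) := by
  rcases P with _ | ⟨x, y, h⟩
  · exact (map_zero j).symm
  · rfl

/-- the value of a polynomial over `k` at the x-coordinates of a tuple of points over `Ω` -/
noncomputable def valX (G : MvPolynomial (Fin m) k) (ξ : Fin m → (V.map j).toAffine.Point) : Ω :=
  eval₂ j (fun i => xco (V.map j) (ξ i)) G

/-- the value of a polynomial over `k` in `2 m` variables at the x- and y-coordinates of a tuple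
of points over `Ω` -/
noncomputable def valXY (h : MvPolynomial (Fin m ⊕ Fin m) k)
    (ξ : Fin m → (V.map j).toAffine.Point) : Ω :=
  eval₂ j (Sum.elim (fun i => xco (V.map j) (ξ i)) fun i => yco (V.map j) (ξ i)) h

theorem valX_pmap (G : MvPolynomial (Fin m) k) (c : Fin m → V.toAffine.Point) :
    valX V j G (fun i => pmap V j (c i)) = j (eval (fun i => xco V (c i)) G) := by
  unfold valX
  rw [eval, coe_eval₂Hom, eval₂_comp_left j (RingHom.id k) _ G, RingHom.comp_id]
  congr 1
  funext i
  exact xco_pmap V j (c i)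

/-- a polynomial in the x-coordinates regarded as polynomial in all coordinates -/
theorem valXY_rename (G : MvPolynomial (Fin m) k) (ξ : Fin m → (V.map j).toAffine.Point) :
    valXY V j (rename Sum.inl G) ξ = valX V j G ξ := by
  unfold valXY valX
  rw [eval₂_rename]
  rfl

end two

end Pool.Agent.PTwistG
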