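import Mathlib

/-!
# Elimination of a variable
-/

namespace Pool.Agent.PTwistG

open MvPolynomial

universe u

variable {k : Type u} [Field k]

/-- Evaluation through `finSuccEquiv`. -/
theorem ZEl_eval {m : ℕ} {Ω : Type u} [Field Ω] (j : k →+* Ω) (x : Fin (m + 1) → Ω)
    (p : MvPolynomial (Fin (m + 1)) k) :
    eval₂ j x p = Polynomial.eval₂ (eval₂Hom j fun i : Fin m => x i.succ) (x 0)
      (finSuccEquiv k m p) := by
  have h : eval₂Hom j x = (Polynomial.eval₂RingHom (eval₂Hom j fun i : Fin m => x i.succ)
      (x 0)).comp (finSuccEquiv k m : MvPolynomial (Fin (m + 1)) k →+* _) := by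
    apply MvPolynomial.ringHom_ext
    · intro r
      simp [finSuccEquiv_apply]
    · intro i
      refine Fin.cases ?_ (fun i => ?_) i
      · simp [finSuccEquiv_X_zero]
      · simp [finSuccEquiv_X_succ]
  exact congrArg (fun φ : MvPolynomial (Fin (m + 1)) k →+* Ω => φ p) h

/-- The degree of a resultant in each variable. -/
theorem ZEl_deg {m : ℕ} (F G : Polynomial (MvPolynomial (Fin m) k)) (a b d e : ℕ) (i : Fin m)
    (hF : ∀ t, degreeOf i (F.coeff t) ≤ d) (hG : ∀ t, degreeOf i (G.coeff t) ≤ e) :
    degreeOf i (Polynomial.resultant F G a b) ≤ a * e + b * d := by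
  rw [Polynomial.resultant, Matrix.det_apply]
  refine (degreeOf_sum_le i _ _).trans (Finset.sup_le fun σ _ => ?_)
  have h1 : degreeOf i (∏ c, Polynomial.sylvester F G a b (σ c) c) ≤ a * e + b * d := by
    refine (degreeOf_prod_le i _ _).trans ?_
    rw [Fin.sum_univ_add]
    refine Nat.add_le_add ?_ ?_
    · have h2 : ∀ c : Fin a, degreeOf i
          (Polynomial.sylvester F G a b (σ (Fin.castAdd b c)) (Fin.castAdd b c)) ≤ e := by
        intro c
        rw [Polynomial.sylvester, Matrix.of_apply, Fin.addCases_left]
        split_ifs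
        · exact hG _
        · rw [degreeOf_zero]
          exact Nat.zero_le _
      refine (Finset.sum_le_card_nsmul _ _ e fun c _ => h2 c).trans ?_
      rw [Finset.card_univ, Fintype.card_fin, smul_eq_mul]
    · have h2 : ∀ c : Fin b, degreeOf i
          (Polynomial.sylvester F G a b (σ (Fin.natAdd a c)) (Fin.natAdd a c)) ≤ d := by
        intro c
        rw [Polynomial.sylvester, Matrix.of_apply, Fin.addCases_right]
        split_ifs
        · exact hF _
        · rw [degreeOf_zero]
          exact Nat.zero_le _
      refine (Finset.sum_le_card_nsmul _ _ d fun c _ => h2 c).trans ?_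
      rw [Finset.card_univ, Fintype.card_fin, smul_eq_mul]
  rcases Int.units_eq_one_or (Equiv.Perm.sign σ) with h | h
  · rw [h, one_smul]
    exact h1
  · rw [h, Units.neg_smul, one_smul, degreeOf_neg]
    exact h1

/-- The resultant of `f` and `g` with respect to the variable `0` (`finSuccEquiv`,
`Polynomial.resultant`).  By the Gauss lemma `f` is irreducible (primitive, positive degree) over
the field of fractions of the other variables and does not divide `g` there, so the two are
coprime and the resultant is not zero (`Polynomial.resultant_eq_zero_iff`).  It is in the ideal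
generated by `f` and `g` (`Polynomial.exists_mul_add_mul_eq_C_resultant`).  It is a determinant
with `deg_0 g ≤ e` rows of coefficients of `f` and `deg_0 f ≤ d` rows of coefficients of `g`, so the
degree in each variable is at most `e d + d e`. -/
theorem elim {m : ℕ} (f g : MvPolynomial (Fin (m + 1)) k) (d e : ℕ) (hf : ∀ i, degreeOf i f ≤ d)
    (hg : ∀ i, degreeOf i g ≤ e) (hirr : Irreducible f) (h0 : 0 < degreeOf 0 f) (hfg : ¬ f ∣ g) :
    ∃ R : MvPolynomial (Fin m) k, R ≠ 0 ∧ (∀ i, degreeOf i R ≤ 2 * d * e) ∧
      ∀ (Ω : Type u) [Field Ω] (j : k →+* Ω) (x : Fin (m + 1) → Ω),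
        eval₂ j x f = 0 → eval₂ j x g = 0 → eval₂ j (fun i : Fin m => x i.succ) R = 0 := by
  classical
  set F := finSuccEquiv k m f with hF
  set G := finSuccEquiv k m g with hG
  have hFirr : Irreducible F := (MulEquiv.irreducible_iff (finSuccEquiv k m)).2 hirr
  have hFdeg : F.natDegree ≠ 0 := by
    rw [hF, natDegree_finSuccEquiv]
    exact h0.ne'
  have hprim : F.IsPrimitive := hFirr.isPrimitive hFdeg
  have hnd : ¬ F ∣ G := by
    intro h
    exact hfg ((map_dvd_iff (finSuccEquiv k m)).1 h)
  let K := FractionRing (MvPolynomial (Fin m) k)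
  let φ : MvPolynomial (Fin m) k →+* K := algebraMap _ _
  have hφ : Function.Injective φ := IsFractionRing.injective (MvPolynomial (Fin m) k) K
  have hF' : Irreducible (F.map φ) :=
    (hprim.irreducible_iff_irreducible_map_fraction_map (K := K)).1 hFirr
  have hnd' : ¬ F.map φ ∣ G.map φ := by
    intro h
    exact hnd (hprim.dvd_of_fraction_map_dvd_fraction_map (K := K) h)
  have hcop : IsCoprime (F.map φ) (G.map φ) := (hF'.coprime_iff_not_dvd).2 hnd'
  have hres : Polynomial.resultant F G ≠ 0 := by
    intro h
    have h1 : Polynomial.resultant (F.map φ) (G.map φ) = 0 := by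
      have h2 := Polynomial.resultant_map_map F G F.natDegree G.natDegree φ
      rw [h, map_zero] at h2
      rwa [Polynomial.natDegree_map_eq_of_injective hφ, Polynomial.natDegree_map_eq_of_injective hφ]
    rw [Polynomial.resultant_eq_zero_iff] at h1
    exact h1.2 hcop
  refine ⟨Polynomial.resultant F G, hres, fun i => ?_, ?_⟩
  · have h1 : ∀ t, degreeOf i (F.coeff t) ≤ d := fun t =>
      (degreeOf_coeff_finSuccEquiv f i t).trans (hf _)
    have h2 : ∀ t, degreeOf i (G.coeff t) ≤ e := fun t =>
      (degreeOf_coeff_finSuccEquiv g i t).trans (hg _)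
    have h3 := ZEl_deg F G F.natDegree G.natDegree d e i h1 h2
    have h4 : F.natDegree ≤ d := by
      rw [hF, natDegree_finSuccEquiv]
      exact hf 0
    have h5 : G.natDegree ≤ e := by
      rw [hG, natDegree_finSuccEquiv]
      exact hg 0
    calc degreeOf i (Polynomial.resultant F G) ≤ F.natDegree * e + G.natDegree * d := h3
      _ ≤ d * e + e * d := Nat.add_le_add (Nat.mul_le_mul_right _ h4) (Nat.mul_le_mul_right _ h5)
      _ = 2 * d * e := by ring
  · intro Ω _ j x hx1 hx2
    obtain ⟨p, q, _, _, hpq⟩ := Polynomial.exists_mul_add_mul_eq_C_resultant F G le_rfl le_rfl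
      (Or.inl hFdeg)
    rw [ZEl_eval] at hx1 hx2
    have h1 := congrArg (Polynomial.eval₂ (eval₂Hom j fun i : Fin m => x i.succ) (x 0)) hpq
    rw [Polynomial.eval₂_add, Polynomial.eval₂_mul, Polynomial.eval₂_mul, hx1, hx2, zero_mul,
      zero_mul, add_zero, Polynomial.eval₂_C] at h1
    exact h1.symm

/-- A polynomial `f` which involves the variable `0` does not divide a nonzero polynomial in the
other variables. -/
theorem not_dvd_rename {m : ℕ} {f : MvPolynomial (Fin (m + 1)) k} (h0 : 0 < degreeOf 0 f)
    {g : MvPolynomial (Fin m) k} (hg : f ∣ rename Fin.succ g) : g = 0 := by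
  by_contra hg0
  obtain ⟨q, hq⟩ := hg
  have h1 : finSuccEquiv k m (rename Fin.succ g) = Polynomial.C g := by
    have h2 : (finSuccEquiv k m : MvPolynomial (Fin (m + 1)) k →+* _).comp
        (rename (Fin.succ : Fin m → Fin (m + 1)) : MvPolynomial (Fin m) k →ₐ[k] _).toRingHom =
        Polynomial.C := by
      apply MvPolynomial.ringHom_ext
      · intro r
        simp [finSuccEquiv_apply]
      · intro i
        simp [finSuccEquiv_X_succ]
    exact congrArg (fun φ : MvPolynomial (Fin m) k →+* _ => φ g) h2
  rw [hq, map_mul] at h1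
  have h3 : finSuccEquiv k m f * finSuccEquiv k m q ≠ 0 := by
    rw [h1]
    exact Polynomial.C_ne_zero.2 hg0
  have h4 := congrArg Polynomial.natDegree h1
  rw [Polynomial.natDegree_C, Polynomial.natDegree_mul (left_ne_zero_of_mul h3)
    (right_ne_zero_of_mul h3), natDegree_finSuccEquiv] at h4
  omega

end Pool.Agent.PTwistG
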