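import Pool.Agent.W_52423g_h30.ZDef

/-!
# Generic points of a hypersurface
-/

namespace Pool.Agent.PTwistG

open WeierstrassCurve WeierstrassCurve.Affine MvPolynomial Pool.Agent.PTwist

universe u

variable {k : Type u} [Field k] (V : WeierstrassCurve k)

/-- `ξ` is a tuple of affine points whose x-coordinates satisfy exactly the polynomial relations
over `k` which are divisible by `G`. -/
structure IsGen {Ω : Type u} [Field Ω] (j : k →+* Ω) {m : ℕ} (G : MvPolynomial (Fin m) k)
    (ξ : Fin m → (V.map j).toAffine.Point) : Prop where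
  ne : ∀ i, ξ i ≠ 0
  iff : ∀ h : MvPolynomial (Fin m) k, valX V j h ξ = 0 ↔ G ∣ h

/-- a quadratic polynomial has a root -/
theorem ZGen_quad {Ω : Type u} [Field Ω] [IsAlgClosed Ω] (b c : Ω) : ∃ y : Ω, y ^ 2 + b * y = c := by
  have hd : (Polynomial.X ^ 2 + Polynomial.C b * Polynomial.X - Polynomial.C c :
      Polynomial Ω).degree ≠ 0 := by
    have h1 : (Polynomial.X ^ 2 + Polynomial.C b * Polynomial.X - Polynomial.C c :
        Polynomial Ω).degree = 2 := by
      compute_degree!
    rw [h1]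
    decide
  obtain ⟨y, hy⟩ := IsAlgClosed.exists_root _ hd
  refine ⟨y, ?_⟩
  simp only [Polynomial.IsRoot.def, Polynomial.eval_add, Polynomial.eval_sub, Polynomial.eval_mul,
    Polynomial.eval_pow, Polynomial.eval_X, Polynomial.eval_C] at hy
  linear_combination hy

/-- extension of a homomorphism to an algebraic extension -/
theorem ZGen_lift {F Ω L : Type u} [Field F] [Field Ω] [Field L] [Algebra F Ω]
    [Algebra.IsAlgebraic F Ω] [IsAlgClosed L] (ψ : F →+* L) :
    ∃ φ : Ω →+* L, φ.comp (algebraMap F Ω) = ψ := by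
  let _ := ψ.toAlgebra
  exact ⟨(IsAlgClosed.lift : Ω →ₐ[F] L).toRingHom, (IsAlgClosed.lift : Ω →ₐ[F] L).comp_algebraMap⟩

/-- a homomorphism from polynomials is the evaluation at the images of the variables -/
theorem ZGen_eval {Ω : Type u} [Field Ω] {m : ℕ} (e : MvPolynomial (Fin m) k →+* Ω)
    (h : MvPolynomial (Fin m) k) : eval₂ (e.comp C) (fun i => e (X i)) h = e h := by
  have h1 := eval₂_comp_left e C X h
  rw [eval₂_eta] at h1
  exact h1.symm

/-- a generic tuple from a homomorphism with kernel `(G)` -/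
theorem ZGen_point [V.IsElliptic] {Ω : Type u} [Field Ω] [IsAlgClosed Ω] {m : ℕ}
    {G : MvPolynomial (Fin m) k} (e : MvPolynomial (Fin m) k →+* Ω) (he : ∀ h, e h = 0 ↔ G ∣ h) :
    ∃ ξ : Fin m → (V.map (e.comp C)).toAffine.Point, IsGen V (e.comp C) G ξ ∧
      ∀ i, xco (V.map (e.comp C)) (ξ i) = e (X i) := by
  have hy : ∀ x : Ω, ∃ y : Ω, (V.map (e.comp C)).toAffine.Nonsingular x y := by
    intro x
    obtain ⟨y, hy⟩ := ZGen_quad ((V.map (e.comp C)).a₁ * x + (V.map (e.comp C)).a₃)
      (x ^ 3 + (V.map (e.comp C)).a₂ * x ^ 2 + (V.map (e.comp C)).a₄ * x + (V.map (e.comp C)).a₆)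
    refine ⟨y, (WeierstrassCurve.Affine.equation_iff_nonsingular
      (W := (V.map (e.comp C)).toAffine)).1 ?_⟩
    rw [WeierstrassCurve.Affine.equation_iff]
    linear_combination hy
  choose y hy using hy
  refine ⟨fun i => .some (e (X i)) (y (e (X i))) (hy _), ⟨fun i => ?_, fun h => ?_⟩, fun i => rfl⟩
  · exact Point.some_ne_zero _
  · have h1 : valX V (e.comp C) h (fun i => .some (e (X i)) (y (e (X i))) (hy _)) = e h := by
      unfold valX
      exact ZGen_eval e h
    rw [h1, he]

/-- Generic points exist.  `Q = k[T] / (G)` is a domain (`G` is prime), `Ω` the algebraic closure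
of its field of fractions, `x i` the class of `T i`, and `y i` a root of the Weierstrass equation
(`IsAlgClosed.exists_eval₂_eq_zero` or a quadratic polynomial has a root); the point is nonsingular
since `V` is elliptic.  The last clause: by `IsGen.iff` the map `T i ↦ x(ξ' i)` induces an
injective homomorphism `Q → Ω`, which extends to the field of fractions and then to its algebraic
closure `Ω` (`IsAlgClosed.lift`). -/
theorem exists_gen [V.IsElliptic] {m : ℕ} (G : MvPolynomial (Fin m) k) (hG : Irreducible G) :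
    ∃ (Ω : Type u) (_ : Field Ω) (_ : IsAlgClosed Ω) (j : k →+* Ω)
      (ξ : Fin m → (V.map j).toAffine.Point), IsGen V j G ξ ∧
        ∀ ξ' : Fin m → (V.map j).toAffine.Point, IsGen V j G ξ' →
          ∃ φ : Ω →+* Ω, φ.comp j = j ∧ ∀ i, φ (xco (V.map j) (ξ i)) = xco (V.map j) (ξ' i) := by
  have hI : (Ideal.span {G}).IsPrime := (Ideal.span_singleton_prime hG.ne_zero).2 hG.prime
  obtain ⟨e, hed⟩ : ∃ e : MvPolynomial (Fin m) k →+*
      AlgebraicClosure (FractionRing (MvPolynomial (Fin m) k ⧸ Ideal.span {G})),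
      e = (algebraMap (FractionRing (MvPolynomial (Fin m) k ⧸ Ideal.span {G}))
        (AlgebraicClosure (FractionRing (MvPolynomial (Fin m) k ⧸ Ideal.span {G})))).comp
        ((algebraMap (MvPolynomial (Fin m) k ⧸ Ideal.span {G})
          (FractionRing (MvPolynomial (Fin m) k ⧸ Ideal.span {G}))).comp
          (Ideal.Quotient.mk (Ideal.span {G}))) := ⟨_, rfl⟩
  have he : ∀ h, e h = 0 ↔ G ∣ h := by
    intro h
    rw [hed, RingHom.comp_apply, RingHom.comp_apply, map_eq_zero,
      map_eq_zero_iff _ (IsFractionRing.injective _ _), Ideal.Quotient.eq_zero_iff_mem,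
      Ideal.mem_span_singleton]
  obtain ⟨ξ, hξ, hx⟩ := ZGen_point V e he
  refine ⟨_, inferInstance, inferInstance, e.comp C, ξ, hξ, fun ξ' hξ' => ?_⟩
  obtain ⟨e', he'd⟩ : ∃ e' : MvPolynomial (Fin m) k →+*
      AlgebraicClosure (FractionRing (MvPolynomial (Fin m) k ⧸ Ideal.span {G})),
      e' = eval₂Hom (e.comp C) (fun i => xco (V.map (e.comp C)) (ξ' i)) := ⟨_, rfl⟩
  have he' : ∀ h, e' h = 0 ↔ G ∣ h := by
    intro h
    rw [he'd]
    exact hξ'.iff h
  have hker : ∀ a ∈ Ideal.span {G}, e' a = 0 := fun a ha =>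
    (he' a).2 (Ideal.mem_span_singleton.1 ha)
  have hinj : Function.Injective (Ideal.Quotient.lift (Ideal.span {G}) e' hker) := by
    rw [injective_iff_map_eq_zero]
    intro a ha
    obtain ⟨b, rfl⟩ := Ideal.Quotient.mk_surjective a
    rw [Ideal.Quotient.lift_mk] at ha
    rw [Ideal.Quotient.eq_zero_iff_mem, Ideal.mem_span_singleton]
    exact (he' b).1 ha
  obtain ⟨φ, hφ⟩ := ZGen_lift
    (Ω := AlgebraicClosure (FractionRing (MvPolynomial (Fin m) k ⧸ Ideal.span {G})))
    (IsFractionRing.lift (K := FractionRing (MvPolynomial (Fin m) k ⧸ Ideal.span {G})) hinj)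
  have hφe : ∀ h, φ (e h) = e' h := by
    intro h
    have h1 := congrArg (fun f : _ →+* _ => f (algebraMap (MvPolynomial (Fin m) k ⧸ Ideal.span {G})
      (FractionRing (MvPolynomial (Fin m) k ⧸ Ideal.span {G}))
        (Ideal.Quotient.mk (Ideal.span {G}) h))) hφ
    simp only [RingHom.comp_apply, IsFractionRing.lift_algebraMap, Ideal.Quotient.lift_mk] at h1
    rw [hed]
    exact h1
  refine ⟨φ, ?_, fun i => ?_⟩
  · refine RingHom.ext fun a => ?_
    rw [RingHom.comp_apply, RingHom.comp_apply, hφe, he'd, coe_eval₂Hom, eval₂_C]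
    rfl
  · rw [hx i, hφe, he'd, coe_eval₂Hom, eval₂_X]

end Pool.Agent.PTwistG
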