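import Pool.Agent.W_52423g_h30.ZNn
import Pool.Agent.W_52423g_h30.ZGen
import Pool.Agent.W_52423g_h30.ZEq
import Pool.Agent.W_52423g_h30.ZEl

/-!
# A translate of a generic point which lies on the hypersurface is generic
-/

namespace Pool.Agent.PTwistG

open WeierstrassCurve WeierstrassCurve.Affine MvPolynomial Pool.Agent.PTwist

universe u

variable {k Ω : Type u} [Field k] [Field Ω] [DecidableEq k] [DecidableEq Ω]
  (V : WeierstrassCurve k) (j : k →+* Ω) {m : ℕ}

/-- Let `ξ` be generic on the hypersurface `G = 0`, where `G` is irreducible and involves `T 0`, and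
let `G` vanish at `ξ + c`.  Then `ξ + c` is generic.  `ξ + c` is a tuple of affine points
(`NK.add`, `NK.ne_zero`); multiples of `G` vanish at `ξ + c`.  Conversely let `h` vanish at `ξ + c`
and suppose that `G` does not divide `h`.  By `elim` there is `R ≠ 0` in the variables
`T 1, ..., T m` vanishing at (the tail of) `ξ + c`.  Let `N` be the norm of the translate of `R` by
the tail of `c` (`exists_normTr`).  One of its factors (`δ = 1`) is the value of `R` at `ξ + c`, so
`N` vanishes at the tail of `ξ` and `G` divides `rename succ N` (`IsGen.iff`).  By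
`not_dvd_rename` `N = 0`, which contradicts `normTr_ne_zero`. -/
theorem gen_add [Infinite V.toAffine.Point] {G : MvPolynomial (Fin (m + 1)) k}
    (hG : Irreducible G) (h0 : 0 < degreeOf 0 G) {ξ : Fin (m + 1) → (V.map j).toAffine.Point}
    (hξ : IsGen V j G ξ) (hk : NK V j ξ) (c : Fin (m + 1) → V.toAffine.Point)
    (hc : ∀ i, c i ≠ 0) (hv : valX V j G (fun i => ξ i + pmap V j (c i)) = 0) :
    IsGen V j G (fun i => ξ i + pmap V j (c i)) := by
  refine ⟨(hk.add c).ne_zero, fun h => ⟨fun hh => ?_, ?_⟩⟩
  · by_contra hdvd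
    obtain ⟨R, hR, -, hRv⟩ := elim G h (Finset.univ.sup fun i => degreeOf i G)
      (Finset.univ.sup fun i => degreeOf i h)
      (fun i => Finset.le_sup (f := fun i => degreeOf i G) (Finset.mem_univ i))
      (fun i => Finset.le_sup (f := fun i => degreeOf i h) (Finset.mem_univ i)) hG h0 hdvd
    have hR0 : valX V j R (fun i : Fin m => ξ i.succ + pmap V j (c i.succ)) = 0 :=
      hRv Ω j (fun i => xco (V.map j) (ξ i + pmap V j (c i))) hv hh
    obtain ⟨N, -, hN⟩ := exists_normTr V (fun i : Fin m => c i.succ) (fun i => hc i.succ) R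
      (Finset.univ.sup fun i => degreeOf i R)
      (fun i => Finset.le_sup (f := fun i => degreeOf i R) (Finset.mem_univ i))
    have hN0 : N ≠ 0 := normTr_ne_zero V R hR (fun i : Fin m => c i.succ) hN
    have h1 := hN Ω j (fun i : Fin m => ξ i.succ) (fun i => hk.ne_zero i.succ)
      (fun i => hk.xco_ne i.succ (hc i.succ))
    have h2 : ∏ δ : Fin m → ℤˣ, valX V j R
        (fun i => ξ i.succ + (δ i : ℤ) • pmap V j (c i.succ)) = 0 := by
      refine Finset.prod_eq_zero (Finset.mem_univ (1 : Fin m → ℤˣ)) ?_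
      rw [← hR0]
      have h3 : ∀ i : Fin m, ((((1 : Fin m → ℤˣ) i : ℤˣ) : ℤ)) • pmap V j (c i.succ) =
          pmap V j (c i.succ) := fun i => one_smul ℤ _
      simp only [h3]
    rw [h2, mul_zero] at h1
    have h3 : valX V j (rename Fin.succ N) ξ = 0 := by
      rw [← h1]
      unfold valX
      rw [eval₂_rename]
      rfl
    exact hN0 (not_dvd_rename h0 ((hξ.iff _).1 h3))
  · rintro ⟨q, rfl⟩
    unfold valX at hv ⊢
    rw [eval₂_mul, hv, zero_mul]

end Pool.Agent.PTwistG
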