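import Pool.Agent.W_52423g_h30.ZCl
import Pool.Agent.W_52423g_h30.ZSt

/-!
# The subgroup of translations preserving a component
-/

namespace Pool.Agent.PTwistG

open WeierstrassCurve WeierstrassCurve.Affine MvPolynomial Pool.Agent.PTwist

universe u

variable {k Ω : Type u} [Field k] [Field Ω] [DecidableEq k] [DecidableEq Ω]
  (V : WeierstrassCurve k) (j : k →+* Ω) {m n : ℕ}
  (γ : (Fin n → ℤ) →+ (Fin m → V.toAffine.Point))

/-- The elements `s` such that `ξ` and `ξ + ε γ_s` are equivalent form a subgroup: use `Eqv.add`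
(translation by `ε γ_t` and by `- ε γ_s`), `NK.add`, `pmap_add`, `pmap_zsmul`. -/
theorem ZH_subgroup {ξ : Fin m → (V.map j).toAffine.Point} (hk : NK V j ξ) (ε : Fin m → ℤˣ) :
    ∃ H : AddSubgroup (Fin n → ℤ), ∀ s, s ∈ H ↔
      Eqv V j ξ (fun i => ξ i + pmap V j ((ε i : ℤ) • γ s i)) := by
  sorry

/-- Let `S` be a finite set of `s` such that for some signs `ε` (depending on `s`) the point
`ξ + ε γ_s` is generic for `G`.  For every `s ∈ S` there are `ε` and `δ` with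
`Eqv ξ (δ (ξ + ε γ_s))` (`class_of_gen`; `hlift` is the last clause of `exists_gen`).  There are
`4 ^ m` pairs `(ε, δ)`, so one of them works for all `s` in a subset `S'` with
`card S ≤ 4 ^ m * card S'`.  For `s, t ∈ S'`: `δ (ξ + ε γ_s) ~ ξ ~ δ (ξ + ε γ_t)`, apply `δ`
(`Eqv.sign`) and translate by `- ε γ_s` (`Eqv.add`): `ξ ~ ξ + ε γ_(t - s)`. -/
theorem ZH_class {G : MvPolynomial (Fin m) k} {ξ : Fin m → (V.map j).toAffine.Point}
    (hξ : IsGen V j G ξ) (hk : NK V j ξ)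
    (hlift : ∀ ξ' : Fin m → (V.map j).toAffine.Point, IsGen V j G ξ' →
      ∃ φ : Ω →+* Ω, φ.comp j = j ∧ ∀ i, φ (xco (V.map j) (ξ i)) = xco (V.map j) (ξ' i))
    (S : Finset (Fin n → ℤ)) (hS : ∀ s ∈ S, ∃ ε : Fin m → ℤˣ,
      IsGen V j G (fun i => ξ i + pmap V j ((ε i : ℤ) • γ s i))) :
    ∃ ε : Fin m → ℤˣ, ∃ S' ⊆ S, S.card ≤ 4 ^ m * S'.card ∧ ∀ s ∈ S', ∀ t ∈ S',
      Eqv V j ξ (fun i => ξ i + pmap V j ((ε i : ℤ) • γ (t - s) i)) := by
  sorry

end Pool.Agent.PTwistG
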