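import Pool.Agent.W_52423g_h30.ZDef

/-!
# The zero estimate: definitions
-/

namespace Pool.Agent.PTwistG

open WeierstrassCurve WeierstrassCurve.Affine MvPolynomial Pool.Agent.PTwist

universe u

variable {k : Type u} [Field k] [DecidableEq k] (V : WeierstrassCurve k) {m n : ℕ}

/-- No nonzero polynomial vanishes at the x-coordinates of (almost) all points of a coset
`γ_s₀ + ε γ_H`, `H` of corank at most `κ`. -/
def NC (γ : (Fin n → ℤ) →+ (Fin m → V.toAffine.Point)) (κ : ℕ) : Prop :=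
  ∀ G : MvPolynomial (Fin m) k, G ≠ 0 → ∀ (s₀ : Fin n → ℤ) (ε : Fin m → ℤˣ)
    (H : AddSubgroup (Fin n → ℤ)), n ≤ Module.finrank ℤ H + κ →
    ∃ σ ∈ H, σ ≠ 0 ∧ σ ≠ s₀ ∧ σ ≠ -s₀ ∧
      eval (fun i => xco V (γ s₀ i + (ε i : ℤ) • γ σ i)) G ≠ 0

/-- The zero estimate for the family `γ` and the exponents `c`, `c'`. -/
def ZE (γ : (Fin n → ℤ) →+ (Fin m → V.toAffine.Point)) (c c' : ℕ) : Prop :=
  ∃ S₀ : ℕ, ∀ S : ℕ, S₀ ≤ S → ∀ G : MvPolynomial (Fin m) k, G ≠ 0 →
    (∀ i, degreeOf i G ≤ S ^ c) → ∀ A : Finset (Fin n → ℤ),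
    (∀ s ∈ A, s ≠ 0 ∧ (∀ j, |s j| ≤ S) ∧ eval (fun i => xco V (γ s i)) G = 0) →
    ¬ S ^ n ≤ A.card * S ^ c'

/-- omit the first coordinate -/
def tl (γ : (Fin n → ℤ) →+ (Fin (m + 1) → V.toAffine.Point)) :
    (Fin n → ℤ) →+ (Fin m → V.toAffine.Point) where
  toFun s i := γ s i.succ
  map_zero' := by
    funext i
    simp
  map_add' s t := by
    funext i
    simp

@[simp] theorem tl_apply (γ : (Fin n → ℤ) →+ (Fin (m + 1) → V.toAffine.Point)) (s : Fin n → ℤ)
    (i : Fin m) : tl V γ s i = γ s i.succ := rfl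

/-- the allowed corank -/
def kap : ℕ → ℕ → ℕ → ℕ
  | 0, _, _ => 0
  | m + 1, c, c' => max (max (kap m c (c + c' + 1)) (kap m (2 * c + 1) (2 * (c + c' + 1) + 2)))
      (c + c' + 2)

theorem kap_bound (m c c' : ℕ) : 2 * (kap m c c' + 1) ≤ 2 ^ m * (m * (c + 1) + c' + 2) := by
  induction m generalizing c c' with
  | zero =>
    simp only [kap]
    omega
  | succ m ih =>
    have h1 := ih c (c + c' + 1)
    have h2 := ih (2 * c + 1) (2 * (c + c' + 1) + 2)
    have h0 : 1 ≤ 2 ^ m := Nat.one_le_two_pow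
    have e1 : 2 ^ m * (m * (c + 1) + (c + c' + 1) + 2) ≤
        2 ^ (m + 1) * ((m + 1) * (c + 1) + c' + 2) := by
      have h3 : m * (c + 1) + (c + c' + 1) + 2 = (m + 1) * (c + 1) + c' + 2 := by ring
      rw [h3]
      exact Nat.mul_le_mul_right _ (Nat.pow_le_pow_right (by norm_num) (Nat.le_succ m))
    have e2 : 2 ^ m * (m * (2 * c + 1 + 1) + (2 * (c + c' + 1) + 2) + 2) =
        2 ^ (m + 1) * ((m + 1) * (c + 1) + c' + 2) := by
      ring
    have e3 : 2 * (c + c' + 2 + 1) ≤ 2 ^ (m + 1) * ((m + 1) * (c + 1) + c' + 2) := by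
      have h3 : 2 ^ 1 ≤ 2 ^ (m + 1) := Nat.pow_le_pow_right (by norm_num) (by omega)
      have h4 : c + c' + 2 + 1 ≤ (m + 1) * (c + 1) + c' + 2 := by nlinarith
      calc 2 * (c + c' + 2 + 1) ≤ 2 ^ (m + 1) * (c + c' + 2 + 1) :=
            Nat.mul_le_mul_right _ (by simpa using h3)
        _ ≤ _ := Nat.mul_le_mul_left _ h4
    simp only [kap]
    rcases le_total (max (kap m c (c + c' + 1)) (kap m (2 * c + 1) (2 * (c + c' + 1) + 2)))
      (c + c' + 2) with h | h
    · rw [max_eq_right h]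
      exact e3
    · rw [max_eq_left h]
      rcases le_total (kap m c (c + c' + 1)) (kap m (2 * c + 1) (2 * (c + c' + 1) + 2)) with h' | h'
      · rw [max_eq_right h', ← e2]
        exact h2
      · rw [max_eq_left h']
        exact h1.trans e1

/-- a polynomial in the last variables regarded as polynomial in all variables (take any sign
`ε 0`) -/
theorem NC.tl {γ : (Fin n → ℤ) →+ (Fin (m + 1) → V.toAffine.Point)} {κ : ℕ} (h : NC V γ κ) :
    NC V (tl V γ) κ := by
  intro G hG s₀ ε H hH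
  have hG' : rename Fin.succ G ≠ 0 := by
    intro h0
    exact hG (rename_injective Fin.succ (Fin.succ_injective m) (by rw [h0, map_zero]))
  obtain ⟨σ, h1, h2, h3, h4, h5⟩ := h (rename Fin.succ G) hG' s₀ (Fin.cons 1 ε) H hH
  refine ⟨σ, h1, h2, h3, h4, ?_⟩
  rw [eval_rename] at h5
  exact h5

/-- smaller corank is a weaker condition -/
theorem NC.mono {γ : (Fin n → ℤ) →+ (Fin m → V.toAffine.Point)} {κ κ' : ℕ} (h : NC V γ κ)
    (hκ : κ' ≤ κ) : NC V γ κ' := by
  intro G hG s₀ ε H hH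
  exact h G hG s₀ ε H (hH.trans (Nat.add_le_add_left hκ _))

/-- the trivial subgroup: take `G = 1`, `H = ⊥` -/
theorem NC.lt {γ : (Fin n → ℤ) →+ (Fin m → V.toAffine.Point)} {κ : ℕ} (h : NC V γ κ) : κ < n := by
  by_contra hle
  have hle' : n ≤ Module.finrank ℤ (⊥ : AddSubgroup (Fin n → ℤ)) + κ :=
    (not_lt.1 hle).trans (Nat.le_add_left _ _)
  obtain ⟨σ, h1, h2, _⟩ := h 1 one_ne_zero 0 1 ⊥ hle'
  exact h2 (AddSubgroup.mem_bot.1 h1)

/-- no variables: `G` is a nonzero constant and `A` is not empty -/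
theorem ZE_zero (γ : (Fin n → ℤ) →+ (Fin 0 → V.toAffine.Point)) (c c' : ℕ) : ZE V γ c c' := by
  refine ⟨1, fun S hS G hG _ A hA hle => ?_⟩
  rcases A.eq_empty_or_nonempty with rfl | ⟨s, hs⟩
  · rw [Finset.card_empty, zero_mul] at hle
    have h1 : 0 < S ^ n := pow_pos hS n
    omega
  · have h1 := (hA s hs).2.2
    rw [eq_C_of_isEmpty G, eval_C] at h1
    apply hG
    rw [eq_C_of_isEmpty G, h1, map_zero]

/-- A nonzero polynomial in one variable has at most `degreeOf 0` roots. -/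
theorem ZMDef_roots (G : MvPolynomial (Fin 1) k) (hG : G ≠ 0) (B : Finset k)
    (hB : ∀ x ∈ B, eval (fun _ => x) G = 0) : B.card ≤ degreeOf 0 G := by
  classical
  set P : Polynomial k := aeval (fun _ : Fin 1 => (Polynomial.X : Polynomial k)) G with hP
  have hback : Polynomial.aeval (X 0 : MvPolynomial (Fin 1) k) P = G := by
    have h1 : ((Polynomial.aeval (X 0 : MvPolynomial (Fin 1) k)).comp
        (aeval (fun _ : Fin 1 => (Polynomial.X : Polynomial k)))) = AlgHom.id k _ := by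
      apply MvPolynomial.algHom_ext
      intro i
      rw [AlgHom.comp_apply, aeval_X, Polynomial.aeval_X, AlgHom.id_apply,
        Subsingleton.elim i 0]
    exact congrArg (fun f => f G) h1
  have hP0 : P ≠ 0 := by
    intro h0
    apply hG
    rw [← hback, h0, map_zero]
  have hev : ∀ x : k, P.eval x = eval (fun _ => x) G := by
    intro x
    have h1 : ((Polynomial.aeval x).comp
        (aeval (fun _ : Fin 1 => (Polynomial.X : Polynomial k)))) =
        aeval (fun _ : Fin 1 => x) := by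
      apply MvPolynomial.algHom_ext
      intro i
      rw [AlgHom.comp_apply, aeval_X, Polynomial.aeval_X, aeval_X]
    have h2 := congrArg (fun f => f G) h1
    simp only [AlgHom.comp_apply] at h2
    rw [Polynomial.coe_aeval_eq_eval] at h2
    exact h2.trans (by rw [aeval_eq_eval])
  have hdeg : P.natDegree ≤ degreeOf 0 G := by
    have h1 : P = ∑ s ∈ G.support, Polynomial.C (coeff s G) * Polynomial.X ^ (s 0) := by
      have h2 : P = aeval (fun _ : Fin 1 => (Polynomial.X : Polynomial k))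
          (∑ s ∈ G.support, monomial s (coeff s G)) := by
        rw [support_sum_monomial_coeff]
      rw [h2, map_sum]
      refine Finset.sum_congr rfl fun s _ => ?_
      rw [aeval_monomial, Finsupp.prod_fintype _ _ (fun i => pow_zero _), Fin.prod_univ_one]
      rfl
    rw [h1]
    refine Polynomial.natDegree_sum_le_of_forall_le _ _ fun s hs => ?_
    exact (Polynomial.natDegree_C_mul_X_pow_le _ _).trans (monomial_le_degreeOf 0 hs)
  have hsub : B ⊆ P.roots.toFinset := by
    intro x hx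
    rw [Multiset.mem_toFinset, Polynomial.mem_roots hP0, Polynomial.IsRoot.def, hev]
    exact hB x hx
  calc B.card ≤ P.roots.toFinset.card := Finset.card_le_card hsub
    _ ≤ P.roots.card := Multiset.toFinset_card_le _
    _ ≤ P.natDegree := Polynomial.card_roots' P
    _ ≤ _ := hdeg

/-- One variable, direct: `G` has at most `S ^ c` roots, every x-coordinate belongs to at most two
`s` (`eq_or_eq_neg_of_xco`, injectivity of `s ↦ γ s 0`), so `card A ≤ 2 S ^ c`; but
`S ^ n ≥ S ^ (c + c' + 1)`. -/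
theorem ZE_one (γ : (Fin n → ℤ) →+ (Fin 1 → V.toAffine.Point))
    (hγ : ∀ s i, γ s i = 0 → s = 0) (c c' : ℕ) (hn : c + c' < n) : ZE V γ c c' := by
  classical
  refine ⟨3, fun S hS G hG hdeg A hA hle => ?_⟩
  have h1 : ∀ s ∈ A, γ s 0 ≠ 0 := fun s hs h0 => (hA s hs).1 (hγ s 0 h0)
  have hfib : ∀ x ∈ A.image (fun s => xco V (γ s 0)),
      (A.filter (fun s => xco V (γ s 0) = x)).card ≤ 2 := by
    intro x hx
    obtain ⟨t, ht, rfl⟩ := Finset.mem_image.1 hx
    have hsub : A.filter (fun s => xco V (γ s 0) = xco V (γ t 0)) ⊆ {t, -t} := by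
      intro s hs
      obtain ⟨hs1, hs2⟩ := Finset.mem_filter.1 hs
      rw [Finset.mem_insert, Finset.mem_singleton]
      rcases eq_or_eq_neg_of_xco V (h1 s hs1) (h1 t ht) hs2 with h | h
      · left
        have h2 : γ (s - t) 0 = 0 := by
          rw [map_sub, Pi.sub_apply, h, sub_self]
        exact sub_eq_zero.1 (hγ _ 0 h2)
      · right
        have h2 : γ (s + t) 0 = 0 := by
          rw [map_add, Pi.add_apply, h, neg_add_cancel]
        exact eq_neg_of_add_eq_zero_left (hγ _ 0 h2)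
    exact (Finset.card_le_card hsub).trans Finset.card_le_two
  have hcard : A.card ≤ 2 * (A.image fun s => xco V (γ s 0)).card :=
    Finset.card_le_mul_card_image A 2 hfib
  have hB : (A.image fun s => xco V (γ s 0)).card ≤ degreeOf 0 G := by
    refine ZMDef_roots G hG _ fun x hx => ?_
    obtain ⟨s, hs, rfl⟩ := Finset.mem_image.1 hx
    have h2 := (hA s hs).2.2
    have h3 : (fun i => xco V (γ s i)) = fun _ : Fin 1 => xco V (γ s 0) := by
      funext i
      rw [Subsingleton.elim i 0]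
    rw [h3] at h2
    exact h2
  have h2 : A.card ≤ 2 * S ^ c := hcard.trans (Nat.mul_le_mul_left 2 (hB.trans (hdeg 0)))
  have h3 : S ^ (c + c' + 1) ≤ S ^ n := Nat.pow_le_pow_right (by omega) hn
  have h4 : S ^ n ≤ 2 * S ^ c * S ^ c' := hle.trans (Nat.mul_le_mul_right _ h2)
  have h5 : 0 < S ^ (c + c') := pow_pos (by omega) _
  have h6 : S ^ (c + c') * S ≤ S ^ (c + c') * 2 := by
    calc S ^ (c + c') * S = S ^ (c + c' + 1) := by rw [pow_succ]
      _ ≤ S ^ n := h3
      _ ≤ 2 * S ^ c * S ^ c' := h4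
      _ = S ^ (c + c') * 2 := by rw [pow_add]; ring
  have h7 := Nat.le_of_mul_le_mul_left h6 h5
  omega

end Pool.Agent.PTwistG
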