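import Pool.Agent.W_52423g_h30.ZDef

/-!
# The norm over the signs
-/

namespace Pool.Agent.PTwistG

open WeierstrassCurve WeierstrassCurve.Affine MvPolynomial Pool.Agent.PTwist

universe u

/-- `y ^ a = P a + Q a * y` if `y ^ 2 = s * y + r` -/
noncomputable def ZNs_PQ {R : Type*} [CommRing R] (s r : R) : ℕ → R × R
  | 0 => (1, 0)
  | a + 1 => (r * (ZNs_PQ s r a).2, (ZNs_PQ s r a).1 + s * (ZNs_PQ s r a).2)

theorem ZNs_PQ_pow {R : Type*} [CommRing R] (s r y : R) (hy : y ^ 2 = s * y + r) (a : ℕ) :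
    y ^ a = (ZNs_PQ s r a).1 + (ZNs_PQ s r a).2 * y := by
  induction a with
  | zero => simp [ZNs_PQ]
  | succ a ih =>
    rw [pow_succ, ih]
    simp only [ZNs_PQ]
    linear_combination (ZNs_PQ s r a).2 * hy

theorem ZNs_PQ_map {R S : Type*} [CommRing R] [CommRing S] (φ : R →+* S) (s r : R) (a : ℕ) :
    φ (ZNs_PQ s r a).1 = (ZNs_PQ (φ s) (φ r) a).1 ∧
      φ (ZNs_PQ s r a).2 = (ZNs_PQ (φ s) (φ r) a).2 := by
  induction a with
  | zero => simp [ZNs_PQ]
  | succ a ih =>
    simp only [ZNs_PQ, map_mul, map_add, ih.1, ih.2, and_self]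

section deg

variable {τ : Type*} {k : Type u} [Field k]

theorem ZNs_deg_mul {w : τ} {f g : MvPolynomial τ k} {a b : ℕ} (hf : degreeOf w f ≤ a)
    (hg : degreeOf w g ≤ b) : degreeOf w (f * g) ≤ a + b :=
  (degreeOf_mul_le w f g).trans (add_le_add hf hg)

theorem ZNs_deg_add {w : τ} {f g : MvPolynomial τ k} {a : ℕ} (hf : degreeOf w f ≤ a)
    (hg : degreeOf w g ≤ a) : degreeOf w (f + g) ≤ a :=
  (degreeOf_add_le w f g).trans (max_le hf hg)

/-- degrees in a variable with `deg s ≤ 1`, `deg r ≤ 3` -/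
theorem ZNs_PQ_deg (s r : MvPolynomial τ k) (w : τ) (hs : degreeOf w s ≤ 1)
    (hr : degreeOf w r ≤ 3) (a : ℕ) :
    2 * degreeOf w (ZNs_PQ s r a).1 ≤ 3 * a ∧ (a = 0 → (ZNs_PQ s r a).2 = 0) ∧
      (1 ≤ a → 2 * degreeOf w (ZNs_PQ s r a).2 + 3 ≤ 3 * a) := by
  induction a with
  | zero =>
    refine ⟨?_, fun _ => rfl, fun h => by omega⟩
    simp [ZNs_PQ, degreeOf_one]
  | succ a ih =>
    obtain ⟨h1, h2, h3⟩ := ih
    refine ⟨?_, fun h => by omega, fun _ => ?_⟩
    · simp only [ZNs_PQ]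
      rcases Nat.eq_zero_or_pos a with h0 | h0
      · rw [h2 h0, mul_zero, degreeOf_zero]
        omega
      · have h4 := h3 h0
        have h5 := ZNs_deg_mul hr (le_refl (degreeOf w (ZNs_PQ s r a).2))
        omega
    · simp only [ZNs_PQ]
      rcases Nat.eq_zero_or_pos a with h0 | h0
      · rw [h2 h0, mul_zero, add_zero]
        omega
      · have h4 := h3 h0
        have h5 := ZNs_deg_mul hs (le_refl (degreeOf w (ZNs_PQ s r a).2))
        have h6 := degreeOf_add_le w (ZNs_PQ s r a).1 (s * (ZNs_PQ s r a).2)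
        omega

/-- degrees in the other variables -/
theorem ZNs_PQ_deg_zero (s r : MvPolynomial τ k) (w : τ) (hs : degreeOf w s = 0)
    (hr : degreeOf w r = 0) (a : ℕ) :
    degreeOf w (ZNs_PQ s r a).1 = 0 ∧ degreeOf w (ZNs_PQ s r a).2 = 0 := by
  induction a with
  | zero =>
    refine ⟨?_, ?_⟩
    · simp [ZNs_PQ, degreeOf_one]
    · simp [ZNs_PQ]
  | succ a ih =>
    obtain ⟨h1, h2⟩ := ih
    refine ⟨?_, ?_⟩
    · simp only [ZNs_PQ]
      have h5 := ZNs_deg_mul hr.le h2.le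
      omega
    · simp only [ZNs_PQ]
      have h5 := ZNs_deg_mul hs.le h2.le
      have h6 := degreeOf_add_le w (ZNs_PQ s r a).1 (s * (ZNs_PQ s r a).2)
      omega

/-- the part with the powers of `X t` replaced by `F` -/
noncomputable def ZNs_sub (t : τ) (F : ℕ → MvPolynomial τ k) (h : MvPolynomial τ k) :
    MvPolynomial τ k :=
  ∑ d ∈ h.support, monomial (d.erase t) (coeff d h) * F (d t)

theorem ZNs_sub_deg (t : τ) (F : ℕ → MvPolynomial τ k) (h : MvPolynomial τ k) (w : τ)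
    (e n : ℕ) (he : ∀ d ∈ h.support, (d.erase t) w ≤ e)
    (hF : ∀ d ∈ h.support, F (d t) ≠ 0 → degreeOf w (F (d t)) ≤ n) :
    degreeOf w (ZNs_sub t F h) ≤ e + n := by
  unfold ZNs_sub
  refine (degreeOf_sum_le w _ _).trans (Finset.sup_le fun d hd => ?_)
  by_cases h0 : F (d t) = 0
  · rw [h0, mul_zero, degreeOf_zero]
    exact Nat.zero_le _
  · refine ZNs_deg_mul ?_ (hF d hd h0)
    rw [degreeOf_monomial_eq _ _ (mem_support_iff.1 hd)]
    exact he d hd

theorem ZNs_sub_eval {Ω : Type*} [CommRing Ω] (j : k →+* Ω) (g : τ → Ω) (t : τ)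
    (s r h : MvPolynomial τ k) (hg : g t ^ 2 = eval₂ j g s * g t + eval₂ j g r) :
    eval₂ j g h = eval₂ j g (ZNs_sub t (fun a => (ZNs_PQ s r a).1) h) +
      eval₂ j g (ZNs_sub t (fun a => (ZNs_PQ s r a).2) h) * g t := by
  have hmon : ∀ d ∈ h.support, eval₂ j g (monomial d (coeff d h)) =
      eval₂ j g (monomial (d.erase t) (coeff d h)) * g t ^ (d t) := by
    intro d _
    have h1 : monomial d (coeff d h) =
        monomial (d.erase t) (coeff d h) * (X t : MvPolynomial τ k) ^ (d t) := by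
      rw [X_pow_eq_monomial, monomial_mul, mul_one, Finsupp.erase_add_single]
    rw [h1, eval₂_mul, eval₂_pow, eval₂_X]
  conv_lhs => rw [← support_sum_monomial_coeff h]
  unfold ZNs_sub
  rw [eval₂_sum, eval₂_sum, eval₂_sum, Finset.sum_mul, ← Finset.sum_add_distrib]
  refine Finset.sum_congr rfl fun d hd => ?_
  have h2 := ZNs_PQ_pow (eval₂ j g s) (eval₂ j g r) (g t) hg (d t)
  obtain ⟨h3, h4⟩ := ZNs_PQ_map (eval₂Hom j g) s r (d t)
  simp only [coe_eval₂Hom] at h3 h4
  rw [hmon d hd, h2, eval₂_mul, eval₂_mul, h3, h4]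
  ring

/-- the value does not depend on a variable of degree `0` -/
theorem ZNs_eval_congr {Ω : Type*} [CommRing Ω] (j : k →+* Ω) (g g' : τ → Ω) (t : τ)
    (F : MvPolynomial τ k) (hF : degreeOf t F = 0) (hg : ∀ i, i ≠ t → g i = g' i) :
    eval₂ j g F = eval₂ j g' F := by
  refine eval₂_congr _ _ _ fun {i c} hi hc => hg i ?_
  rintro rfl
  have h1 := monomial_le_degreeOf i (mem_support_iff.2 hc)
  rw [hF] at h1
  exact (Finsupp.mem_support_iff.1 hi) (Nat.le_zero.1 h1)

end deg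

variable {k : Type u} [Field k] (V : WeierstrassCurve k)

/-- the sum of the two roots -/
noncomputable def ZNs_s {m : ℕ} (i₀ : Fin m) : MvPolynomial (Fin m ⊕ Fin m) k :=
  C (-V.a₁) * X (Sum.inl i₀) + C (-V.a₃)

/-- minus the product of the two roots -/
noncomputable def ZNs_r {m : ℕ} (i₀ : Fin m) : MvPolynomial (Fin m ⊕ Fin m) k :=
  X (Sum.inl i₀) ^ 3 + C V.a₂ * X (Sum.inl i₀) ^ 2 + C V.a₄ * X (Sum.inl i₀) + C V.a₆

theorem ZNs_s_deg {m : ℕ} (i₀ : Fin m) (w : Fin m ⊕ Fin m) (n : ℕ)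
    (hn : degreeOf w (X (Sum.inl i₀) : MvPolynomial (Fin m ⊕ Fin m) k) ≤ n) :
    degreeOf w (ZNs_s V i₀) ≤ n := by
  unfold ZNs_s
  refine ZNs_deg_add ((degreeOf_C_mul_le _ _ _).trans hn) ?_
  rw [degreeOf_C]
  exact Nat.zero_le _

theorem ZNs_r_deg {m : ℕ} (i₀ : Fin m) (w : Fin m ⊕ Fin m) (n : ℕ)
    (hn : degreeOf w (X (Sum.inl i₀) : MvPolynomial (Fin m ⊕ Fin m) k) ≤ n) :
    degreeOf w (ZNs_r V i₀) ≤ 3 * n := by
  unfold ZNs_r
  refine ZNs_deg_add (ZNs_deg_add (ZNs_deg_add ?_ ?_) ?_) ?_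
  · exact (degreeOf_pow_le _ _ _).trans (Nat.mul_le_mul_left 3 hn)
  · refine (degreeOf_C_mul_le _ _ _).trans ((degreeOf_pow_le _ _ _).trans ?_)
    omega
  · refine (degreeOf_C_mul_le _ _ _).trans ?_
    omega
  · rw [degreeOf_C]
    exact Nat.zero_le _

/-- One step: elimination of the variable `y i₀ = X (inr i₀)`.  Write `h = ∑ a, H a * (y i₀) ^ a`,
`a ≤ e`; with `σ = -(a₁ x + a₃)` and `π = -(x³ + a₂ x² + a₄ x + a₆)` (`x = x i₀`), the two roots
`y, y'` of the Weierstrass equation satisfy `y + y' = σ`, `y y' = π`, and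
`h(y) h(y') = ∑ H a H b y ^ a y' ^ b`; the symmetric expressions
`y ^ a y' ^ b + y ^ b y' ^ a = (y y') ^ min * (y ^ l + y' ^ l)` are polynomials in `σ, π` and have
degree `≤ 3 e` in `x`. -/
theorem ZNs_step {m : ℕ} (i₀ : Fin m) (h : MvPolynomial (Fin m ⊕ Fin m) k) (e : ℕ)
    (hh : ∀ t, degreeOf t h ≤ e) :
    ∃ h' : MvPolynomial (Fin m ⊕ Fin m) k, (∀ t, degreeOf t h' ≤ 5 * e) ∧
      degreeOf (Sum.inr i₀) h' = 0 ∧
      (∀ i, degreeOf (Sum.inr i) h = 0 → degreeOf (Sum.inr i) h' = 0) ∧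
      ∀ (Ω : Type u) [Field Ω] (j : k →+* Ω) (x y : Fin m → Ω),
        y i₀ ^ 2 + j V.a₁ * x i₀ * y i₀ + j V.a₃ * y i₀ =
          x i₀ ^ 3 + j V.a₂ * x i₀ ^ 2 + j V.a₄ * x i₀ + j V.a₆ →
        eval₂ j (Sum.elim x y) h' = eval₂ j (Sum.elim x y) h *
          eval₂ j (Sum.elim x (Function.update y i₀ (-y i₀ - j V.a₁ * x i₀ - j V.a₃))) h := by
  classical
  set t : Fin m ⊕ Fin m := Sum.inr i₀ with ht
  set u : Fin m ⊕ Fin m := Sum.inl i₀ with hu
  set sg : MvPolynomial (Fin m ⊕ Fin m) k := ZNs_s V i₀ with hsg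
  set r : MvPolynomial (Fin m ⊕ Fin m) k := ZNs_r V i₀ with hr
  set A : MvPolynomial (Fin m ⊕ Fin m) k := ZNs_sub t (fun a => (ZNs_PQ sg r a).1) h with hA
  set B : MvPolynomial (Fin m ⊕ Fin m) k := ZNs_sub t (fun a => (ZNs_PQ sg r a).2) h with hB
  have hX1 : degreeOf u (X (Sum.inl i₀) : MvPolynomial (Fin m ⊕ Fin m) k) ≤ 1 := by
    rw [degreeOf_X]
    split_ifs <;> omega
  have hX0 : ∀ w, w ≠ u → degreeOf w (X (Sum.inl i₀) : MvPolynomial (Fin m ⊕ Fin m) k) ≤ 0 := by
    intro w hw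
    rw [degreeOf_X, if_neg hw]
  have htu : t ≠ u := by simp [ht, hu]
  have hd : ∀ w, ∀ d ∈ h.support, d w ≤ degreeOf w h := fun w d hd =>
    monomial_le_degreeOf w hd
  have her : ∀ w, ∀ d ∈ h.support, (d.erase t) w ≤ degreeOf w h := by
    intro w d hd'
    refine le_trans ?_ (hd w d hd')
    by_cases hw : w = t
    · rw [hw, Finsupp.erase_same]
      exact Nat.zero_le _
    · rw [Finsupp.erase_ne hw]
  -- degrees in the variables different from `u`
  have hAw : ∀ w, w ≠ u → degreeOf w A ≤ degreeOf w h := by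
    intro w hw
    have h1 : degreeOf w sg = 0 := Nat.le_zero.1 (ZNs_s_deg V i₀ w 0 (hX0 w hw))
    have h2 : degreeOf w r = 0 := Nat.le_zero.1 (ZNs_r_deg V i₀ w 0 (hX0 w hw))
    exact ZNs_sub_deg t _ h w (degreeOf w h) 0 (her w)
      (fun d _ _ => (ZNs_PQ_deg_zero sg r w h1 h2 (d t)).1.le)
  have hBw : ∀ w, w ≠ u → degreeOf w B ≤ degreeOf w h := by
    intro w hw
    have h1 : degreeOf w sg = 0 := Nat.le_zero.1 (ZNs_s_deg V i₀ w 0 (hX0 w hw))
    have h2 : degreeOf w r = 0 := Nat.le_zero.1 (ZNs_r_deg V i₀ w 0 (hX0 w hw))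
    exact ZNs_sub_deg t _ h w (degreeOf w h) 0 (her w)
      (fun d _ _ => (ZNs_PQ_deg_zero sg r w h1 h2 (d t)).2.le)
  -- degrees in `t`
  have hAt : degreeOf t A = 0 := by
    have h1 : degreeOf t sg = 0 := Nat.le_zero.1 (ZNs_s_deg V i₀ t 0 (hX0 t htu))
    have h2 : degreeOf t r = 0 := Nat.le_zero.1 (ZNs_r_deg V i₀ t 0 (hX0 t htu))
    refine Nat.le_zero.1 (ZNs_sub_deg t _ h t 0 0 (fun d _ => ?_)
      (fun d _ _ => (ZNs_PQ_deg_zero sg r t h1 h2 (d t)).1.le))
    rw [Finsupp.erase_same]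
  have hBt : degreeOf t B = 0 := by
    have h1 : degreeOf t sg = 0 := Nat.le_zero.1 (ZNs_s_deg V i₀ t 0 (hX0 t htu))
    have h2 : degreeOf t r = 0 := Nat.le_zero.1 (ZNs_r_deg V i₀ t 0 (hX0 t htu))
    refine Nat.le_zero.1 (ZNs_sub_deg t _ h t 0 0 (fun d _ => ?_)
      (fun d _ _ => (ZNs_PQ_deg_zero sg r t h1 h2 (d t)).2.le))
    rw [Finsupp.erase_same]
  have hst : degreeOf t sg = 0 := Nat.le_zero.1 (ZNs_s_deg V i₀ t 0 (hX0 t htu))
  have hrt : degreeOf t r = 0 := Nat.le_zero.1 (ZNs_r_deg V i₀ t 0 (hX0 t htu))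
  -- degrees in `u`
  have hsu : degreeOf u sg ≤ 1 := ZNs_s_deg V i₀ u 1 hX1
  have hru : degreeOf u r ≤ 3 := ZNs_r_deg V i₀ u 1 hX1
  have hAu : degreeOf u A ≤ e + 3 * e / 2 := by
    refine ZNs_sub_deg t _ h u e (3 * e / 2) (fun d hd' => (her u d hd').trans (hh u))
      (fun d hd' _ => ?_)
    have h1 := (ZNs_PQ_deg sg r u hsu hru (d t)).1
    have h2 := (hd t d hd').trans (hh t)
    omega
  have hBu : degreeOf u B ≤ e + (3 * e - 3) / 2 := by
    refine ZNs_sub_deg t _ h u e ((3 * e - 3) / 2) (fun d hd' => (her u d hd').trans (hh u))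
      (fun d hd' h0 => ?_)
    have h1 := (ZNs_PQ_deg sg r u hsu hru (d t)).2
    have h2 := (hd t d hd').trans (hh t)
    have h3 : 1 ≤ d t := by
      by_contra h4
      exact h0 (h1.1 (by omega))
    have h5 := h1.2 h3
    omega
  have hBe : e = 0 → B = 0 := by
    intro he
    rw [hB]
    unfold ZNs_sub
    refine Finset.sum_eq_zero fun d hd' => ?_
    have h2 := (hd t d hd').trans (hh t)
    show monomial (Finsupp.erase t d) (coeff d h) * (ZNs_PQ sg r (d t)).2 = 0
    rw [(ZNs_PQ_deg sg r u hsu hru (d t)).2.1 (by omega), mul_zero]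
  refine ⟨A * A + sg * A * B + C (-1) * (r * B * B), ?_, ?_, ?_, ?_⟩
  · intro w
    by_cases hw : w = u
    · rw [hw]
      rcases Nat.eq_zero_or_pos e with he | he
      · rw [hBe he, mul_zero, mul_zero, mul_zero, add_zero, add_zero]
        have h1 := ZNs_deg_mul hAu hAu
        omega
      · refine ZNs_deg_add (ZNs_deg_add ?_ ?_) ((degreeOf_C_mul_le _ _ _).trans ?_)
        · have h1 := ZNs_deg_mul hAu hAu
          omega
        · have h1 := ZNs_deg_mul (ZNs_deg_mul hsu hAu) hBu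
          omega
        · have h1 := ZNs_deg_mul (ZNs_deg_mul hru hBu) hBu
          omega
    · have h1 := (hAw w hw).trans (hh w)
      have h2 := (hBw w hw).trans (hh w)
      have h3 : degreeOf w sg ≤ 0 := ZNs_s_deg V i₀ w 0 (hX0 w hw)
      have h4 : degreeOf w r ≤ 0 := ZNs_r_deg V i₀ w 0 (hX0 w hw)
      refine ZNs_deg_add (ZNs_deg_add ?_ ?_) ((degreeOf_C_mul_le _ _ _).trans ?_)
      · have h5 := ZNs_deg_mul h1 h1
        omega
      · have h5 := ZNs_deg_mul (ZNs_deg_mul h3 h1) h2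
        omega
      · have h5 := ZNs_deg_mul (ZNs_deg_mul h4 h2) h2
        omega
  · refine Nat.le_zero.1 (ZNs_deg_add (ZNs_deg_add ?_ ?_) ((degreeOf_C_mul_le _ _ _).trans ?_))
    · exact ZNs_deg_mul hAt.le hAt.le
    · exact ZNs_deg_mul (ZNs_deg_mul hst.le hAt.le) hBt.le
    · exact ZNs_deg_mul (ZNs_deg_mul hrt.le hBt.le) hBt.le
  · intro i hi
    have hw : (Sum.inr i : Fin m ⊕ Fin m) ≠ u := by simp [hu]
    have h1 := (hAw _ hw).trans hi.le
    have h2 := (hBw _ hw).trans hi.le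
    have h3 := ZNs_s_deg V i₀ _ 0 (hX0 _ hw)
    have h4 := ZNs_r_deg V i₀ _ 0 (hX0 _ hw)
    refine Nat.le_zero.1 (ZNs_deg_add (ZNs_deg_add ?_ ?_) ((degreeOf_C_mul_le _ _ _).trans ?_))
    · exact ZNs_deg_mul h1 h1
    · exact ZNs_deg_mul (ZNs_deg_mul h3 h1) h2
    · exact ZNs_deg_mul (ZNs_deg_mul h4 h2) h2
  · intro Ω _ j x y hy
    set g : Fin m ⊕ Fin m → Ω := Sum.elim x y with hg
    set y' : Ω := -y i₀ - j V.a₁ * x i₀ - j V.a₃ with hy'
    set g' : Fin m ⊕ Fin m → Ω := Sum.elim x (Function.update y i₀ y') with hg'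
    have hgt : g t = y i₀ := rfl
    have hgt' : g' t = y' := by
      show Function.update y i₀ y' i₀ = y'
      rw [Function.update_self]
    have hgg : ∀ i, i ≠ t → g i = g' i := by
      rintro (i | i) hi
      · rfl
      · show y i = Function.update y i₀ y' i
        rw [Function.update_of_ne]
        rintro rfl
        exact hi rfl
    have es : eval₂ j g sg = -(j V.a₁ * x i₀) - j V.a₃ := by
      rw [hsg]
      simp only [ZNs_s, eval₂_add, eval₂_mul, eval₂_C, eval₂_X, hg, Sum.elim_inl]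
      rw [map_neg j, map_neg j]
      ring
    have er : eval₂ j g r = x i₀ ^ 3 + j V.a₂ * x i₀ ^ 2 + j V.a₄ * x i₀ + j V.a₆ := by
      rw [hr]
      simp only [ZNs_r, eval₂_add, eval₂_mul, eval₂_pow, eval₂_C, eval₂_X, hg, Sum.elim_inl]
    have h1 : eval₂ j g h = eval₂ j g A + eval₂ j g B * y i₀ := by
      refine ZNs_sub_eval j g t sg r h ?_
      rw [hgt, es, er]
      linear_combination hy
    have h2 : eval₂ j g' h = eval₂ j g A + eval₂ j g B * y' := by
      have h3 : g' t ^ 2 = eval₂ j g' sg * g' t + eval₂ j g' r := by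
        rw [hgt', ← ZNs_eval_congr j g g' t sg hst hgg, ← ZNs_eval_congr j g g' t r hrt hgg,
          es, er, hy']
        linear_combination hy
      have h4 := ZNs_sub_eval j g' t sg r h h3
      rw [hgt'] at h4
      rw [h4, ZNs_eval_congr j g g' t A hAt hgg, ZNs_eval_congr j g g' t B hBt hgg]
    rw [h1, h2]
    simp only [eval₂_add, eval₂_mul, eval₂_C]
    rw [map_neg j, map_one j, es, er, hy']
    linear_combination (eval₂ j g B) ^ 2 * hy

/-- Iterate `ZNs_step` over all `i₀`; the resulting polynomial does not involve the variables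
`inr i`, so it is `rename inl N` (`xco_zsmul_unit`, `yco_neg`, `xco_yco_eq`). -/
theorem exists_signNorm {m : ℕ} (h : MvPolynomial (Fin m ⊕ Fin m) k) (e : ℕ)
    (hh : ∀ t, degreeOf t h ≤ e) :
    ∃ N : MvPolynomial (Fin m) k, (∀ i, degreeOf i N ≤ 5 ^ m * e) ∧
      ∀ (Ω : Type u) [Field Ω] [DecidableEq Ω] (j : k →+* Ω)
        (ξ : Fin m → (V.map j).toAffine.Point), (∀ i, ξ i ≠ 0) →
        valX V j N ξ = ∏ δ : Fin m → ℤˣ, valXY V j h (fun i => (δ i : ℤ) • ξ i) := by
  classical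
  -- elimination of the variables in a finite set of indices
  have key : ∀ s : Finset (Fin m), ∃ h' : MvPolynomial (Fin m ⊕ Fin m) k,
      (∀ t, degreeOf t h' ≤ 5 ^ s.card * e) ∧ (∀ i ∈ s, degreeOf (Sum.inr i) h' = 0) ∧
      ∀ (Ω : Type u) [Field Ω] [DecidableEq Ω] (j : k →+* Ω)
        (ξ : Fin m → (V.map j).toAffine.Point), (∀ i, ξ i ≠ 0) →
        valXY V j h' ξ = ∏ T ∈ s.powerset,
          valXY V j h (fun i => if i ∈ T then -ξ i else ξ i) := by
    intro s
    induction s using Finset.induction_on with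
    | empty =>
      refine ⟨h, fun t => by simpa using hh t, fun i hi => by simp at hi, ?_⟩
      intro Ω _ _ j ξ _
      simp
    | insert i₀ s hi₀ ih =>
      obtain ⟨h₁, hd₁, hz₁, hv₁⟩ := ih
      obtain ⟨h', hd', hz', hz'', hv'⟩ := ZNs_step V i₀ h₁ _ hd₁
      refine ⟨h', fun t => ?_, fun i hi => ?_, ?_⟩
      · rw [Finset.card_insert_of_notMem hi₀, pow_succ']
        calc degreeOf t h' ≤ 5 * (5 ^ s.card * e) := hd' t
          _ = 5 * 5 ^ s.card * e := by ring
      · rcases Finset.mem_insert.1 hi with rfl | hi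
        · exact hz'
        · exact hz'' i (hz₁ i hi)
      · intro Ω _ _ j ξ hξ
        rw [Finset.prod_powerset_insert hi₀]
        have heq := xco_yco_eq (V.map j) (hξ i₀)
        simp only [WeierstrassCurve.map_a₁, WeierstrassCurve.map_a₂, WeierstrassCurve.map_a₃,
          WeierstrassCurve.map_a₄, WeierstrassCurve.map_a₆] at heq
        have h1 := hv' Ω j (fun i => xco (V.map j) (ξ i)) (fun i => yco (V.map j) (ξ i)) heq
        have h2 : valXY V j h' ξ = valXY V j h₁ ξ *
            valXY V j h₁ (Function.update ξ i₀ (-ξ i₀)) := by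
          have h3 : (fun i => xco (V.map j) (Function.update ξ i₀ (-ξ i₀) i)) =
              fun i => xco (V.map j) (ξ i) := by
            funext i
            by_cases hi : i = i₀
            · rw [hi, Function.update_self, xco_neg]
            · rw [Function.update_of_ne hi]
          have h4 : (fun i => yco (V.map j) (Function.update ξ i₀ (-ξ i₀) i)) =
              Function.update (fun i => yco (V.map j) (ξ i)) i₀ (-yco (V.map j) (ξ i₀) -
                j V.a₁ * xco (V.map j) (ξ i₀) - j V.a₃) := by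
            funext i
            by_cases hi : i = i₀
            · rw [hi, Function.update_self, Function.update_self, yco_neg _ (hξ i₀)]
              simp only [WeierstrassCurve.map_a₁, WeierstrassCurve.map_a₃]
            · rw [Function.update_of_ne hi, Function.update_of_ne hi]
          unfold valXY
          rw [h3, h4]
          exact h1
        rw [h2, hv₁ Ω j ξ hξ]
        have hξ' : ∀ i, Function.update ξ i₀ (-ξ i₀) i ≠ 0 := by
          intro i
          by_cases hi : i = i₀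
          · rw [hi, Function.update_self]
            exact neg_ne_zero.2 (hξ i₀)
          · rw [Function.update_of_ne hi]
            exact hξ i
        rw [hv₁ Ω j _ hξ']
        congr 1
        refine Finset.prod_congr rfl fun T hT => ?_
        have hiT : i₀ ∉ T := fun h5 => hi₀ (Finset.mem_powerset.1 hT h5)
        congr 1
        funext i
        by_cases hi : i = i₀
        · rw [hi, if_neg hiT, if_pos (Finset.mem_insert_self _ _), Function.update_self]
        · rw [Function.update_of_ne hi]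
          simp only [Finset.mem_insert, hi, false_or]
  obtain ⟨h', hd', hz', hv'⟩ := key Finset.univ
  have hvars : (↑h'.vars : Set (Fin m ⊕ Fin m)) ⊆ Set.range (Sum.inl : Fin m → Fin m ⊕ Fin m) := by
    rintro (i | i) hi
    · exact ⟨i, rfl⟩
    · exfalso
      rw [Finset.mem_coe, mem_vars_iff_mem_support] at hi
      obtain ⟨d, hd, hid⟩ := hi
      have h1 := monomial_le_degreeOf (Sum.inr i) hd
      rw [hz' i (Finset.mem_univ i)] at h1
      exact (Finsupp.mem_support_iff.1 hid) (Nat.le_zero.1 h1)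
  obtain ⟨N, hN⟩ := exists_rename_eq_of_vars_subset_range h' Sum.inl Sum.inl_injective hvars
  refine ⟨N, fun i => ?_, ?_⟩
  · have h1 := hd' (Sum.inl i)
    rw [← hN, degreeOf_rename_of_injective Sum.inl_injective, Finset.card_univ,
      Fintype.card_fin] at h1
    exact h1
  · intro Ω _ _ j ξ hξ
    rw [← valXY_rename, hN, hv' Ω j ξ hξ]
    refine Finset.prod_nbij' (fun T => fun i => if i ∈ T then (-1 : ℤˣ) else 1)
      (fun δ => Finset.univ.filter fun i => δ i = -1) ?_ ?_ ?_ ?_ ?_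
    · intro T _
      exact Finset.mem_univ _
    · intro δ _
      rw [Finset.powerset_univ]
      exact Finset.mem_univ _
    · intro T _
      ext i
      by_cases hi : i ∈ T
      · simp [hi]
      · simp only [Finset.mem_filter, Finset.mem_univ, true_and, hi, if_false, iff_false]
        decide
    · intro δ _
      funext i
      rcases Int.units_eq_one_or (δ i) with h1 | h1
      · simp only [Finset.mem_filter, Finset.mem_univ, true_and, h1]
        decide
      · simp [h1]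
    · intro T _
      congr 1
      funext i
      by_cases hi : i ∈ T
      · simp [hi]
      · simp [hi]

end Pool.Agent.PTwistG
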