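import Pool.Agent.W_52423g_h30.ZTr
import Pool.Agent.W_52423g_h30.ZNs

/-!
# The norm of a translate
-/

namespace Pool.Agent.PTwistG

open WeierstrassCurve WeierstrassCurve.Affine MvPolynomial Pool.Agent.PTwist

universe u

variable {k : Type u} [Field k] (V : WeierstrassCurve k)

/-- `exists_signNorm` for the translation polynomial `A` of `exists_trPoly`:
`valX N ξ = ∏ δ, valXY A (δ ξ)`, and `x(δ ξ + c) = x(ξ + δ c)`, `x(δ ξ) = x(ξ)`; there are `2 ^ m`
signs `δ`. -/
theorem exists_normTr {m : ℕ} (c : Fin m → V.toAffine.Point) (hc : ∀ i, c i ≠ 0)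
    (G : MvPolynomial (Fin m) k) (d : ℕ) (hG : ∀ i, degreeOf i G ≤ d) :
    ∃ N : MvPolynomial (Fin m) k, (∀ i, degreeOf i N ≤ 5 ^ m * (3 * d)) ∧
      ∀ (Ω : Type u) [Field Ω] [DecidableEq Ω] (j : k →+* Ω)
        (ξ : Fin m → (V.map j).toAffine.Point), (∀ i, ξ i ≠ 0) →
        (∀ i, xco (V.map j) (ξ i) ≠ j (xco V (c i))) →
        valX V j N ξ = (∏ i, (xco (V.map j) (ξ i) - j (xco V (c i))) ^ (2 * d * 2 ^ m)) *
          ∏ δ : Fin m → ℤˣ, valX V j G (fun i => ξ i + (δ i : ℤ) • pmap V j (c i)) := by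
  obtain ⟨A, hA, hA'⟩ := exists_trPoly V c hc G d hG
  obtain ⟨N, hN, hN'⟩ := exists_signNorm V A (3 * d) hA
  refine ⟨N, hN, fun Ω _ _ j ξ h0 hx => ?_⟩
  rw [hN' Ω j ξ h0]
  have key : ∀ δ : Fin m → ℤˣ, valXY V j A (fun i => (δ i : ℤ) • ξ i) =
      (∏ i, (xco (V.map j) (ξ i) - j (xco V (c i))) ^ (2 * d)) *
        valX V j G (fun i => ξ i + (δ i : ℤ) • pmap V j (c i)) := by
    intro δ
    rw [hA' Ω j (fun i => (δ i : ℤ) • ξ i) (fun i => zsmul_unit_ne_zero (V.map j) (h0 i) (δ i))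
      (fun i => by rw [xco_zsmul_unit]; exact hx i)]
    congr 1
    · refine Finset.prod_congr rfl fun i _ => ?_
      rw [xco_zsmul_unit]
    · unfold valX
      congr 1
      funext i
      rw [← xco_zsmul_unit (V.map j) _ (δ i), smul_add, smul_smul, ← Units.val_mul,
        Int.units_mul_self, Units.val_one, one_smul]
  rw [Finset.prod_congr rfl fun δ _ => key δ, Finset.prod_mul_distrib, Finset.prod_const,
    Finset.card_univ, Fintype.card_fun, Fintype.card_units_int, Fintype.card_fin,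
    ← Finset.prod_pow]
  congr 1
  refine Finset.prod_congr rfl fun i _ => ?_
  rw [← pow_mul]

end Pool.Agent.PTwistG
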