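import Pool.Agent.W_52423g_h30.ZMDef
import Pool.Agent.W_52423g_h30.ZNt
import Pool.Agent.W_52423g_h30.ZGen
import Pool.Agent.W_52423g_h30.ZEq
import Pool.Agent.W_52423g_h30.ZEl

/-!
# The zero estimate: elimination or divisibility
-/

namespace Pool.Agent.PTwistG

open WeierstrassCurve WeierstrassCurve.Affine MvPolynomial Pool.Agent.PTwist

universe u

variable {k : Type u} [Field k] [DecidableEq k] (V : WeierstrassCurve k) {m n : ℕ}

/-- The conclusion of the second alternative: every generic point of `G = 0` stays on `G = 0` after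
translation by `ε γ_u` for some signs `ε`. -/
def Moves (G : MvPolynomial (Fin m) k) (c : Fin m → V.toAffine.Point) : Prop :=
  ∀ (Ω : Type u) [Field Ω] [DecidableEq Ω] (j : k →+* Ω) (ξ : Fin m → (V.map j).toAffine.Point),
    IsGen V j G ξ → NK V j ξ →
      ∃ ε : Fin m → ℤˣ, valX V j G (fun i => ξ i + pmap V j ((ε i : ℤ) • c i)) = 0

theorem ZMa_pmap_zsmul {Ω : Type u} [Field Ω] [DecidableEq Ω] (j : k →+* Ω) (e : ℤˣ)
    (P : V.toAffine.Point) : pmap V j ((e : ℤ) • P) = (e : ℤ) • pmap V j P := by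
  rcases Int.units_eq_one_or e with rfl | rfl
  · rw [Units.val_one, one_smul, one_smul]
  · rw [Units.val_neg, Units.val_one, neg_smul, one_smul, neg_smul, one_smul, pmap_neg]

/-- Let `N` be the norm of the translate of `G` by `γ_u` (`exists_normTr`).  It vanishes at
`x(γ_s)`, `s ∈ A` (evaluate the formula at the point `γ_s`; one of the factors is the value of `G`
at `γ_s + γ_u = γ_(s + u)`; `x(γ_s i) ≠ x(γ_u i)` because `s ≠ ± u`).  If `G` does not divide `N`
then `elim` gives `R`.  If `G` divides `N` then `N` vanishes at every generic point `ξ`, so one of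
the factors does (`NK.xco_ne`), that is `Moves`. -/
theorem elim_or_moves (γ : (Fin n → ℤ) →+ (Fin (m + 1) → V.toAffine.Point))
    (hγ : ∀ s i, γ s i = 0 → s = 0) {G : MvPolynomial (Fin (m + 1)) k} (hG : Irreducible G)
    (h0 : 0 < degreeOf 0 G) {d : ℕ} (hd : ∀ i, degreeOf i G ≤ d) {u : Fin n → ℤ} (hu : u ≠ 0)
    (A : Finset (Fin n → ℤ)) (hA : ∀ s ∈ A, s ≠ 0 ∧ s ≠ u ∧ s ≠ -u ∧
      eval (fun i => xco V (γ s i)) G = 0 ∧ eval (fun i => xco V (γ (s + u) i)) G = 0) :
    (∃ R : MvPolynomial (Fin m) k, R ≠ 0 ∧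
      (∀ i, degreeOf i R ≤ 2 * d * (5 ^ (m + 1) * (3 * d))) ∧
      ∀ s ∈ A, eval (fun i => xco V (tl V γ s i)) R = 0) ∨ Moves V G (γ u) := by
  have hc : ∀ i, γ u i ≠ 0 := fun i h => hu (hγ u i h)
  obtain ⟨N, hN, hN'⟩ := exists_normTr V (γ u) hc G d hd
  by_cases hdvd : G ∣ N
  · right
    intro Ω _ _ j ξ hgen hnk
    have h1 : valX V j N ξ = 0 := (hgen.iff N).mpr hdvd
    rw [hN' Ω j ξ hgen.ne (fun i => hnk.xco_ne i (hc i)), mul_eq_zero] at h1
    rcases h1 with h1 | h1
    · exfalso
      rw [Finset.prod_eq_zero_iff] at h1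
      obtain ⟨i, -, hi⟩ := h1
      exact hnk.xco_ne i (hc i) (sub_eq_zero.mp ((IsReduced.eq_zero _ ⟨_, hi⟩)))
    · rw [Finset.prod_eq_zero_iff] at h1
      obtain ⟨δ, -, hδ⟩ := h1
      refine ⟨δ, ?_⟩
      rw [← hδ]
      congr 1
      funext i
      rw [ZMa_pmap_zsmul]
  · left
    obtain ⟨R, hR0, hRd, hR⟩ := elim G N d (5 ^ (m + 1) * (3 * d)) hd hN hG h0 hdvd
    refine ⟨R, hR0, hRd, fun s hs => ?_⟩
    obtain ⟨hs0, hsu, hsu', hs1, hs2⟩ := hA s hs
    have hG0 : eval₂ (RingHom.id k) (fun i => xco V (γ s i)) G = 0 := hs1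
    have hN0 : eval₂ (RingHom.id k) (fun i => xco V (γ s i)) N = 0 := by
      have h1 := hN' k (RingHom.id k) (fun i => pmap V (RingHom.id k) (γ s i))
        (fun i h => hs0 (hγ s i (pmap_injective V (RingHom.id k) (h.trans (pmap_zero V _).symm))))
        (fun i h => ?_)
      · have h2 : ∏ δ : Fin (m + 1) → ℤˣ, valX V (RingHom.id k) G (fun i =>
            pmap V (RingHom.id k) (γ s i) + (δ i : ℤ) • pmap V (RingHom.id k) (γ u i)) = 0 := by
          refine Finset.prod_eq_zero (Finset.mem_univ 1) ?_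
          have h3 : (fun i => pmap V (RingHom.id k) (γ s i) +
              (((1 : Fin (m + 1) → ℤˣ) i : ℤˣ) : ℤ) • pmap V (RingHom.id k) (γ u i)) =
              fun i => pmap V (RingHom.id k) (γ (s + u) i) := by
            funext i
            rw [Pi.one_apply, Units.val_one, one_smul, map_add, Pi.add_apply, pmap_add]
          rw [h3, valX_pmap, hs2, map_zero]
        rw [h2, mul_zero, valX_pmap, RingHom.id_apply] at h1
        exact h1
      · rw [xco_pmap, RingHom.id_apply, RingHom.id_apply] at h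
        rcases eq_or_eq_neg_of_xco V (fun h => hs0 (hγ s i h)) (hc i) h with h | h
        · apply hsu
          have h4 : γ (s - u) i = 0 := by
            rw [map_sub, Pi.sub_apply, h, sub_self]
          exact sub_eq_zero.mp (hγ _ i h4)
        · apply hsu'
          have h4 : γ (s + u) i = 0 := by
            rw [map_add, Pi.add_apply, h, neg_add_cancel]
          exact eq_neg_of_add_eq_zero_left (hγ _ i h4)
    exact hR k (RingHom.id k) (fun i => xco V (γ s i)) hG0 hN0

end Pool.Agent.PTwistG
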