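import Pool.Agent.W_52423g_h30.ZNt
import Pool.Agent.W_52423g_h30.ZGen
import Pool.Agent.W_52423g_h30.ZEq

/-!
# Specialization of a generic point
-/

namespace Pool.Agent.PTwistG

open WeierstrassCurve WeierstrassCurve.Affine MvPolynomial Pool.Agent.PTwist

universe u

variable {k Ω : Type u} [Field k] [Field Ω] [DecidableEq k] [DecidableEq Ω]
  (V : WeierstrassCurve k) (j : k →+* Ω) {m : ℕ}

/-- Finitely many linear functionals.  Let `L a` (`a` in a finite set) be `k`-linear maps with
`L a (h a) ≠ 0`.  Then some linear combination `h = ∑ t ^ i h_i` has `L a h ≠ 0` for all `a` (the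
field is infinite).  Here: the functionals `valXY h ↦ value at δ c`. -/
theorem ZSp_avoid [Infinite k] {A : Type*} [Finite A] {U : Type*} [AddCommGroup U] [Module k U]
    (I : Submodule k U) (L : A → U →ₗ[k] k) (h : ∀ a, ∃ x ∈ I, L a x ≠ 0) :
    ∃ x ∈ I, ∀ a, L a x ≠ 0 := by
  by_contra hcon
  push Not at hcon
  have hcov : ⋃ a, ((LinearMap.ker ((L a).comp I.subtype) : Submodule k I) : Set I) =
      Set.univ := by
    apply Set.eq_univ_of_forall
    rintro ⟨x, hx⟩
    obtain ⟨a, ha⟩ := hcon x hx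
    rw [Set.mem_iUnion]
    exact ⟨a, ha⟩
  obtain ⟨a, ha⟩ := Subspace.exists_eq_top_of_iUnion_eq_univ hcov
  obtain ⟨x, hx, hxa⟩ := h a
  have h1 : (⟨x, hx⟩ : I) ∈ LinearMap.ker ((L a).comp I.subtype) := by
    rw [ha]
    exact Submodule.mem_top
  exact hxa h1

omit [DecidableEq k] [DecidableEq Ω] in
theorem ZSp_pmap_ne {P : V.toAffine.Point} (hP : P ≠ 0) : pmap V j P ≠ 0 := by
  intro h
  apply hP
  apply pmap_injective V j
  rw [h, pmap_zero]

omit [DecidableEq k] [DecidableEq Ω] in
theorem ZSp_valXY (h : MvPolynomial (Fin m ⊕ Fin m) k) (c : Fin m → V.toAffine.Point) :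
    valXY V j h (fun i => pmap V j (c i)) =
      j (eval (Sum.elim (fun i => xco V (c i)) fun i => yco V (c i)) h) := by
  have h1 := MvPolynomial.eval₂_comp_left j (RingHom.id k)
    (Sum.elim (fun i => xco V (c i)) fun i => yco V (c i)) h
  rw [RingHom.comp_id] at h1
  change _ = j (eval₂ (RingHom.id k) _ h)
  rw [h1]
  unfold valXY
  congr 1
  · funext t
    rcases t with i | i
    · exact xco_pmap V j (c i)
    · exact yco_pmap V j (c i)

/-- Let `G` vanish at the point `c` over `k`.  For some signs `δ` every polynomial relation of the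
generic point `ξ` holds for `δ c`.  Otherwise (`ZSp_avoid` for the linear space of the `h` with
`valXY h ξ = 0`) there is `h` with `valXY h ξ = 0` and nonzero value at all `δ c`.  Let `N` be the
norm of `h` over the signs (`exists_signNorm`).  `valX N ξ = 0`, so `G` divides `N` and `N` vanishes
at `c`; but the value of `N` at `c` is the product of the values of `h` at the `δ c`. -/
theorem exists_special [Infinite k] {G : MvPolynomial (Fin m) k}
    {ξ : Fin m → (V.map j).toAffine.Point} (hξ : IsGen V j G ξ) (c : Fin m → V.toAffine.Point)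
    (hc : ∀ i, c i ≠ 0) (hv : valX V j G (fun i => pmap V j (c i)) = 0) :
    ∃ δ : Fin m → ℤˣ, ∀ h : MvPolynomial (Fin m ⊕ Fin m) k, valXY V j h ξ = 0 →
      valXY V j h (fun i => pmap V j ((δ i : ℤ) • c i)) = 0 := by
  by_contra hcon
  push Not at hcon
  let I : Submodule k (MvPolynomial (Fin m ⊕ Fin m) k) :=
    { carrier := {h | valXY V j h ξ = 0}
      add_mem' := by
        intro a b ha hb
        have ha' : valXY V j a ξ = 0 := ha
        have hb' : valXY V j b ξ = 0 := hb
        change valXY V j (a + b) ξ = 0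
        unfold valXY at ha' hb' ⊢
        rw [eval₂_add, ha', hb', add_zero]
      zero_mem' := by
        change valXY V j 0 ξ = 0
        unfold valXY
        rw [eval₂_zero]
      smul_mem' := by
        intro a b hb
        have hb' : valXY V j b ξ = 0 := hb
        change valXY V j (a • b) ξ = 0
        unfold valXY at hb' ⊢
        rw [MvPolynomial.smul_eq_C_mul, eval₂_mul, hb', mul_zero] }
  let L : (Fin m → ℤˣ) → MvPolynomial (Fin m ⊕ Fin m) k →ₗ[k] k := fun δ =>
    (aeval (R := k) (Sum.elim (fun i => xco V ((δ i : ℤ) • c i))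
      fun i => yco V ((δ i : ℤ) • c i))).toLinearMap
  have hL : ∀ (δ : Fin m → ℤˣ) (h : MvPolynomial (Fin m ⊕ Fin m) k),
      valXY V j h (fun i => pmap V j ((δ i : ℤ) • c i)) = j (L δ h) := by
    intro δ h
    rw [ZSp_valXY]
    rfl
  obtain ⟨h, hI, hh⟩ := ZSp_avoid I L (fun δ => by
    obtain ⟨h, h1, h2⟩ := hcon δ
    refine ⟨h, h1, fun h3 => h2 ?_⟩
    rw [hL, h3, map_zero])
  obtain ⟨N, -, hN⟩ := exists_signNorm V h h.totalDegree (fun t => degreeOf_le_totalDegree h t)
  have hNξ : valX V j N ξ = 0 := by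
    rw [hN Ω j ξ hξ.ne]
    refine Finset.prod_eq_zero (Finset.mem_univ (1 : Fin m → ℤˣ)) ?_
    have h1 : (fun i => (((1 : Fin m → ℤˣ) i : ℤˣ) : ℤ) • ξ i) = ξ := by
      funext i
      rw [Pi.one_apply, Units.val_one, one_smul]
    rw [h1]
    exact hI
  obtain ⟨N', hN'⟩ := (hξ.iff N).1 hNξ
  have hNc : valX V j N (fun i => pmap V j (c i)) = 0 := by
    rw [hN']
    unfold valX at hv ⊢
    rw [eval₂_mul, hv, zero_mul]
  rw [hN Ω j (fun i => pmap V j (c i)) (fun i => ZSp_pmap_ne V j (hc i)),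
    Finset.prod_eq_zero_iff] at hNc
  obtain ⟨δ, -, hδ⟩ := hNc
  have h1 : (fun i => (δ i : ℤ) • pmap V j (c i)) = fun i => pmap V j ((δ i : ℤ) • c i) := by
    funext i
    rw [pmap_zsmul]
  rw [h1, hL] at hδ
  exact hh δ (j.injective (by rw [hδ, map_zero]))

/-- Let `c` be as in `exists_special` and let `ξ ~ ξ + b`.  Then `G` vanishes at `ξ + b`, so the
translation polynomial `A` of `G` and `b` (`exists_trPoly`) vanishes at `ξ`, hence at `δ c`; if
`x(c i) ≠ x(b i)` for all `i` this says that `G` vanishes at `δ c + b`. -/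
theorem special_add {G : MvPolynomial (Fin m) k}
    {ξ : Fin m → (V.map j).toAffine.Point} (hξ : IsGen V j G ξ) (hk : NK V j ξ)
    {c : Fin m → V.toAffine.Point} (hc : ∀ i, c i ≠ 0) {δ : Fin m → ℤˣ}
    (hδ : ∀ h : MvPolynomial (Fin m ⊕ Fin m) k, valXY V j h ξ = 0 →
      valXY V j h (fun i => pmap V j ((δ i : ℤ) • c i)) = 0)
    {b : Fin m → V.toAffine.Point} (hb : ∀ i, b i ≠ 0) (hcb : ∀ i, xco V (c i) ≠ xco V (b i))
    (hE : Eqv V j ξ (fun i => ξ i + pmap V j (b i))) :
    eval (fun i => xco V ((δ i : ℤ) • c i + b i)) G = 0 := by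
  have h1 : valX V j G (fun i => ξ i + pmap V j (b i)) = 0 := by
    rw [← valXY_rename, ← hE, valXY_rename]
    exact (hξ.iff G).2 dvd_rfl
  obtain ⟨A, -, hA⟩ := exists_trPoly V b hb G G.totalDegree
    (fun i => degreeOf_le_totalDegree G i)
  have h2 : valXY V j A ξ = 0 := by
    rw [hA Ω j ξ hξ.ne (fun i => hk.xco_ne i (hb i)), h1, mul_zero]
  have h3 := hδ A h2
  have hx : ∀ i, xco (V.map j) (pmap V j ((δ i : ℤ) • c i)) ≠ j (xco V (b i)) := by
    intro i h
    rw [xco_pmap, xco_zsmul_unit] at h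
    exact hcb i (j.injective h)
  rw [hA Ω j _ (fun i => ZSp_pmap_ne V j (zsmul_unit_ne_zero V (hc i) (δ i))) hx] at h3
  have h4 : ∏ i, (xco (V.map j) (pmap V j ((δ i : ℤ) • c i)) - j (xco V (b i))) ^
      (2 * G.totalDegree) ≠ 0 :=
    Finset.prod_ne_zero_iff.2 fun i _ => pow_ne_zero _ (sub_ne_zero.2 (hx i))
  have h5 := (mul_eq_zero.1 h3).resolve_left h4
  have h6 : (fun i => pmap V j ((δ i : ℤ) • c i) + pmap V j (b i)) =
      fun i => pmap V j ((δ i : ℤ) • c i + b i) := by
    funext i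
    rw [pmap_add]
  rw [h6, valX_pmap] at h5
  exact j.injective (by rw [h5, map_zero])

end Pool.Agent.PTwistG
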