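import Pool.Agent.W_52423g_h30.ZMa
import Pool.Agent.W_52423g_h30.ZH
import Pool.Agent.W_52423g_h30.ZSp

/-!
# The zero estimate: a coset on which the polynomial vanishes
-/

namespace Pool.Agent.PTwistG

open WeierstrassCurve WeierstrassCurve.Affine MvPolynomial Pool.Agent.PTwist

universe u

variable {k : Type u} [Field k] [DecidableEq k] (V : WeierstrassCurve k) {m n : ℕ}

omit [DecidableEq k] in
theorem ZMb_X_sub_C_ne {κ : Type*} (i : κ) (a : k) :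
    (X i - C a : MvPolynomial κ k) ≠ 0 := by
  intro h
  have h1 := congrArg (eval fun _ => a + 1) h
  rw [map_sub, eval_X, eval_C, map_zero, add_sub_cancel_left] at h1
  exact one_ne_zero h1

theorem ZMb_inj (γ : (Fin n → ℤ) →+ (Fin (m + 1) → V.toAffine.Point))
    (hγ : ∀ s i, γ s i = 0 → s = 0) {s t : Fin n → ℤ} {i : Fin (m + 1)} (h : γ s i = γ t i) :
    s = t := by
  have h1 : γ (s - t) i = 0 := by
    rw [map_sub, Pi.sub_apply, h, sub_self]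
  exact sub_eq_zero.mp (hγ _ i h1)

theorem ZMb_inj_neg (γ : (Fin n → ℤ) →+ (Fin (m + 1) → V.toAffine.Point))
    (hγ : ∀ s i, γ s i = 0 → s = 0) {s t : Fin n → ℤ} {i : Fin (m + 1)} (h : γ s i = -γ t i) :
    s = -t := by
  refine ZMb_inj V γ hγ (i := i) ?_
  rw [map_neg, Pi.neg_apply, h]

theorem ZMb_infinite (γ : (Fin n → ℤ) →+ (Fin (m + 1) → V.toAffine.Point))
    (hγ : ∀ s i, γ s i = 0 → s = 0) {s : Fin n → ℤ} (hs : s ≠ 0) :
    Infinite V.toAffine.Point := by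
  refine Infinite.of_injective (fun a : ℤ => γ (a • s) 0) fun a b hab => ?_
  have h1 : a • s = b • s := ZMb_inj V γ hγ hab
  obtain ⟨j, hj⟩ := Function.ne_iff.mp hs
  have h2 := congrFun h1 j
  simp only [Pi.smul_apply, smul_eq_mul] at h2
  exact mul_right_cancel₀ hj h2

/-- A generic point of `G = 0` has no coordinate over `k`.  If `ξ i = c` then `G` divides
`T i - x(c)`.  For `i ≥ 1` this contradicts `not_dvd_rename`.  For `i = 0` all `s ∈ A` have the same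
`x(γ_s 0)`, so there are at most two of them. -/
theorem nk_of_gen (γ : (Fin n → ℤ) →+ (Fin (m + 1) → V.toAffine.Point))
    (hγ : ∀ s i, γ s i = 0 → s = 0) {G : MvPolynomial (Fin (m + 1)) k}
    (h0 : 0 < degreeOf 0 G) (A : Finset (Fin n → ℤ)) (h3 : 3 ≤ A.card)
    (hA : ∀ s ∈ A, s ≠ 0 ∧ eval (fun i => xco V (γ s i)) G = 0)
    {Ω : Type u} [Field Ω] (j : k →+* Ω) {ξ : Fin (m + 1) → (V.map j).toAffine.Point}
    (hξ : IsGen V j G ξ) : NK V j ξ := by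
  intro i c hc
  have hc0 : xco (V.map j) (ξ i) = j (xco V c) := by rw [hc, xco_pmap]
  have hdvd : G ∣ (X i - C (xco V c)) := by
    rw [← hξ.iff]
    unfold valX
    rw [eval₂_sub, eval₂_X, eval₂_C, hc0, sub_self]
  induction i using Fin.cases with
  | zero =>
    have hx : ∀ s ∈ A, xco V (γ s 0) = xco V c := by
      intro s hs
      obtain ⟨q, hq⟩ := hdvd
      have h1 := congrArg (eval fun i => xco V (γ s i)) hq
      rw [map_mul, (hA s hs).2, zero_mul, map_sub, eval_X, eval_C] at h1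
      exact sub_eq_zero.mp h1
    obtain ⟨s₁, h1, s₂, h2, s₃, h3', h12, h13, h23⟩ := Finset.two_lt_card.mp h3
    have hn : ∀ s ∈ A, γ s 0 ≠ 0 := fun s hs h => (hA s hs).1 (hγ s 0 h)
    have hpair : ∀ s ∈ A, ∀ t ∈ A, s ≠ t → γ s 0 = -γ t 0 := by
      intro s hs t ht hst
      rcases eq_or_eq_neg_of_xco V (hn s hs) (hn t ht) ((hx s hs).trans (hx t ht).symm) with h | h
      · exact absurd (ZMb_inj V γ hγ h) hst
      · exact h
    have e1 := hpair s₁ h1 s₂ h2 h12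
    have e2 := hpair s₃ h3' s₂ h2 h23.symm
    exact h13 (ZMb_inj V γ hγ (e1.trans e2.symm))
  | succ i =>
    have h1 : (X i.succ - C (xco V c) : MvPolynomial (Fin (m + 1)) k) =
        rename Fin.succ (X i - C (xco V c)) := by
      rw [map_sub, rename_X, rename_C]
    rw [h1] at hdvd
    exact ZMb_X_sub_C_ne i (xco V c) (not_dvd_rename h0 hdvd)

/-- Take a generic point `ξ` (`exists_gen`), `nk_of_gen`.  For `u ∈ D` the point `ξ + ε γ_u` is on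
`G = 0` (`Moves`), hence generic (`gen_add`).  `ZH_class` gives `ε` and `D'`, `ZH_subgroup` the
subgroup `H`.  For any `s₀ ∈ A` take `δ` from `exists_special` (`c = γ_s₀`) and apply `special_add`
with `b = ε γ_σ`, `σ ∈ H`: `G` vanishes at `δ γ_s₀ + ε γ_σ`, that is at `γ_s₀ + (δ ε) γ_σ`. -/
theorem exists_coset [V.IsElliptic] [Infinite k]
    (γ : (Fin n → ℤ) →+ (Fin (m + 1) → V.toAffine.Point))
    (hγ : ∀ s i, γ s i = 0 → s = 0) {G : MvPolynomial (Fin (m + 1)) k} (hG : Irreducible G)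
    (h0 : 0 < degreeOf 0 G) (A : Finset (Fin n → ℤ)) (h3 : 3 ≤ A.card)
    (hA : ∀ s ∈ A, s ≠ 0 ∧ eval (fun i => xco V (γ s i)) G = 0)
    (D : Finset (Fin n → ℤ)) (hD : ∀ u ∈ D, u ≠ 0 ∧ Moves V G (γ u)) :
    ∃ (s₀ : Fin n → ℤ) (ε : Fin (m + 1) → ℤˣ) (H : AddSubgroup (Fin n → ℤ)),
      (∃ D' ⊆ D, D.card ≤ 4 ^ (m + 1) * D'.card ∧ ∀ s ∈ D', ∀ t ∈ D', t - s ∈ H) ∧
      ∀ σ ∈ H, σ ≠ 0 → σ ≠ s₀ → σ ≠ -s₀ →
        eval (fun i => xco V (γ s₀ i + (ε i : ℤ) • γ σ i)) G = 0 := by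
  classical
  obtain ⟨Ω, hΩ, hΩ', j, ξ, hgen, hlift⟩ := exists_gen V G hG
  have hk : NK V j ξ := nk_of_gen V γ hγ h0 A h3 hA j hgen
  obtain ⟨s₀, hs₀⟩ : A.Nonempty := Finset.card_pos.mp (by omega)
  have hinf : Infinite V.toAffine.Point := ZMb_infinite V γ hγ (hA s₀ hs₀).1
  have hn : ∀ s : Fin n → ℤ, s ≠ 0 → ∀ i, γ s i ≠ 0 := fun s hs i h => hs (hγ s i h)
  obtain ⟨ε, D', hD'D, hcard, hD'⟩ := ZH_class V j γ hgen hk hlift D fun u hu => by
    obtain ⟨ε, hε⟩ := (hD u hu).2 Ω j ξ hgen hk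
    exact ⟨ε, gen_add V j hG h0 hgen hk (fun i => (ε i : ℤ) • γ u i)
      (fun i => zsmul_unit_ne_zero V (hn u (hD u hu).1 i) (ε i)) hε⟩
  obtain ⟨H, hH⟩ := ZH_subgroup V j γ hk ε
  have hs₀0 := (hA s₀ hs₀).1
  obtain ⟨δ, hδ⟩ := exists_special V j hgen (γ s₀) (hn s₀ hs₀0) (by
    rw [valX_pmap, (hA s₀ hs₀).2, map_zero])
  refine ⟨s₀, fun i => δ i * ε i, H, ⟨D', hD'D, hcard, fun s hs t ht =>
    (hH _).mpr (hD' s hs t ht)⟩, fun σ hσ hσ0 hσ1 hσ2 => ?_⟩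
  have hb : ∀ i, (ε i : ℤ) • γ σ i ≠ 0 := fun i => zsmul_unit_ne_zero V (hn σ hσ0 i) (ε i)
  have hcb : ∀ i, xco V (γ s₀ i) ≠ xco V ((ε i : ℤ) • γ σ i) := by
    intro i h
    rw [xco_zsmul_unit] at h
    rcases eq_or_eq_neg_of_xco V (hn s₀ hs₀0 i) (hn σ hσ0 i) h with h | h
    · exact hσ1 (ZMb_inj V γ hγ h).symm
    · exact hσ2 (by rw [ZMb_inj_neg V γ hγ h, neg_neg])
  have h1 := special_add V j hgen hk (hn s₀ hs₀0) hδ hb hcb ((hH σ).mp hσ)
  have h2 : ∀ i, xco V (γ s₀ i + ((δ i * ε i : ℤˣ) : ℤ) • γ σ i) =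
      xco V ((δ i : ℤ) • γ s₀ i + (ε i : ℤ) • γ σ i) := by
    intro i
    rw [← xco_zsmul_unit V (γ s₀ i + ((δ i * ε i : ℤˣ) : ℤ) • γ σ i) (δ i), smul_add, smul_smul]
    congr 3
    rw [Units.val_mul, ← mul_assoc, Int.units_coe_mul_self, one_mul]
  simp only [h2]
  exact h1

end Pool.Agent.PTwistG
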