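import Pool.Agent.W_52423g_h30.ZNt

/-!
# The norm of a translate is not zero
-/

namespace Pool.Agent.PTwistG

open WeierstrassCurve WeierstrassCurve.Affine MvPolynomial Pool.Agent.PTwist

universe u

variable {k : Type u} [Field k] [DecidableEq k] (V : WeierstrassCurve k)

theorem ZNn_fiber (b : k) : {P : V.toAffine.Point | xco V P = b}.Finite := by
  by_cases h : ∃ P : V.toAffine.Point, P ≠ 0 ∧ xco V P = b
  · obtain ⟨P, hP, hPb⟩ := h
    refine ((Set.finite_singleton (0 : V.toAffine.Point)).union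
      ((Set.finite_singleton P).union (Set.finite_singleton (-P)))).subset ?_
    intro Q hQ
    by_cases hQ0 : Q = 0
    · exact Or.inl hQ0
    · rcases eq_or_eq_neg_of_xco V hQ0 hP ((show xco V Q = b from hQ).trans hPb.symm) with h | h
      · exact Or.inr (Or.inl h)
      · exact Or.inr (Or.inr h)
  · refine (Set.finite_singleton (0 : V.toAffine.Point)).subset ?_
    intro Q hQ
    by_contra hQ0
    exact h ⟨Q, hQ0, hQ⟩

theorem ZNn_preimage {S : Set k} (hS : S.Finite) :
    {P : V.toAffine.Point | xco V P ∈ S}.Finite := by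
  have : {P : V.toAffine.Point | xco V P ∈ S} = ⋃ b ∈ S, {P : V.toAffine.Point | xco V P = b} := by
    ext P
    simp
  rw [this]
  exact hS.biUnion fun b _ => ZNn_fiber V b

theorem ZNn_point [Infinite V.toAffine.Point] {S : Set k} (hS : S.Finite)
    (c : V.toAffine.Point) :
    ∃ ζ : V.toAffine.Point, ζ ≠ 0 ∧ xco V ζ ≠ xco V c ∧
      ∀ δ : ℤˣ, xco V (ζ + (δ : ℤ) • c) ∉ S := by
  have h1 : (⋃ δ : ℤˣ, {P : V.toAffine.Point | xco V (P + (δ : ℤ) • c) ∈ S}).Finite := by
    refine Set.finite_iUnion fun δ => ?_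
    have := (ZNn_preimage V hS).preimage
      (f := fun P : V.toAffine.Point => P + (δ : ℤ) • c)
      (Set.injOn_of_injective (add_left_injective ((δ : ℤ) • c)))
    exact this
  have h2 : (({0} : Set V.toAffine.Point) ∪ {P | xco V P = xco V c} ∪
      ⋃ δ : ℤˣ, {P : V.toAffine.Point | xco V (P + (δ : ℤ) • c) ∈ S}).Finite :=
    ((Set.finite_singleton _).union (ZNn_fiber V _)).union h1
  obtain ⟨ζ, hζ⟩ := h2.infinite_compl.nonempty
  refine ⟨ζ, ?_, ?_, ?_⟩
  · intro h
    exact hζ (Or.inl (Or.inl h))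
  · intro h
    exact hζ (Or.inl (Or.inr h))
  · intro δ h
    exact hζ (Or.inr (Set.mem_iUnion.2 ⟨δ, h⟩))

/-- Avoidance.  By induction on the number `m` of variables: write `R = ∑ a, R a * (T 0) ^ a`
(`finSuccEquiv`) with some `R a₀ ≠ 0`; by induction there are `ζ 1, ..., ζ m` with
`R a₀ (x(ζ i + δ i c i)) ≠ 0` for all signs `δ` of the other coordinates; for each of these signs
the polynomial `R(T 0, x(ζ i + δ i c i))` in one variable is not zero and has finitely many roots;
there are infinitely many points `ζ 0` (each x-coordinate belongs to at most two points), so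
`ζ 0` can be chosen with `ζ 0 ≠ 0`, `x(ζ 0) ≠ x(c 0)` and `x(ζ 0 ± c 0)` not one of the roots. -/
theorem ZNn_avoid [Infinite V.toAffine.Point] {m : ℕ} (R : MvPolynomial (Fin m) k) (hR : R ≠ 0)
    (c : Fin m → V.toAffine.Point) :
    ∃ ζ : Fin m → V.toAffine.Point, (∀ i, ζ i ≠ 0) ∧ (∀ i, xco V (ζ i) ≠ xco V (c i)) ∧
      ∀ δ : Fin m → ℤˣ, eval (fun i => xco V (ζ i + (δ i : ℤ) • c i)) R ≠ 0 := by
  classical
  induction m with
  | zero =>
    refine ⟨fun i => i.elim0, fun i => i.elim0, fun i => i.elim0, fun δ h => hR ?_⟩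
    rw [MvPolynomial.eq_C_of_isEmpty R] at h ⊢
    rw [eval_C] at h
    rw [h, C_0]
  | succ m ih =>
    have hF : finSuccEquiv k m R ≠ 0 := by
      intro h
      exact hR ((finSuccEquiv k m).injective (by rw [h, map_zero]))
    obtain ⟨a, ha⟩ : ∃ a, (finSuccEquiv k m R).coeff a ≠ 0 := by
      by_contra hcon
      push Not at hcon
      exact hF (Polynomial.ext fun a => by rw [hcon a, Polynomial.coeff_zero])
    obtain ⟨ζ, hζ0, hζc, hζ⟩ := ih ((finSuccEquiv k m R).coeff a) ha (fun i => c i.succ)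
    have hp : ∀ δ : Fin m → ℤˣ, (finSuccEquiv k m R).map
        (eval (fun i => xco V (ζ i + (δ i : ℤ) • c i.succ))) ≠ 0 := by
      intro δ h
      have := congrArg (fun q => Polynomial.coeff q a) h
      simp only [Polynomial.coeff_map, Polynomial.coeff_zero] at this
      exact hζ δ this
    obtain ⟨ζ0, h0, hx, hS⟩ := ZNn_point V (S := ⋃ δ : Fin m → ℤˣ, {x : k | Polynomial.eval x
      ((finSuccEquiv k m R).map (eval (fun i => xco V (ζ i + (δ i : ℤ) • c i.succ)))) = 0})
      (Set.finite_iUnion fun δ => Polynomial.finite_setOf_isRoot (hp δ)) (c 0)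
    refine ⟨Fin.cons ζ0 ζ, ?_, ?_, ?_⟩
    · intro i
      refine Fin.cases ?_ (fun i => ?_) i
      · rw [Fin.cons_zero]
        exact h0
      · rw [Fin.cons_succ]
        exact hζ0 i
    · intro i
      refine Fin.cases ?_ (fun i => ?_) i
      · rw [Fin.cons_zero]
        exact hx
      · rw [Fin.cons_succ]
        exact hζc i
    · intro δ h
      have hcons : (fun i => xco V ((Fin.cons ζ0 ζ : Fin (m + 1) → V.toAffine.Point) i +
          (δ i : ℤ) • c i)) = (Fin.cons (xco V (ζ0 + (δ 0 : ℤ) • c 0))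
            (fun i => xco V (ζ i + (δ i.succ : ℤ) • c i.succ)) : Fin (m + 1) → k) := by
        funext i
        refine Fin.cases ?_ (fun i => ?_) i
        · rw [Fin.cons_zero, Fin.cons_zero]
        · rw [Fin.cons_succ, Fin.cons_succ]
      rw [hcons, MvPolynomial.eval_eq_eval_mv_eval'] at h
      exact hS (δ 0) (Set.mem_iUnion.2 ⟨fun i => δ i.succ, h⟩)

/-- If `N` satisfies the formula of `exists_normTr` (for the points over `k` itself, embedded in
some field `Ω` by `pmap`) and `R ≠ 0` then `N ≠ 0`: evaluate at the point of `ZNn_avoid`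
(`valX_pmap`, `pmap_add`, `pmap_zsmul`). -/
theorem normTr_ne_zero [Infinite V.toAffine.Point] {m : ℕ} (R : MvPolynomial (Fin m) k)
    (hR : R ≠ 0) (c : Fin m → V.toAffine.Point) {N : MvPolynomial (Fin m) k} {D : ℕ}
    (hN : ∀ (Ω : Type u) [Field Ω] [DecidableEq Ω] (j : k →+* Ω)
        (ξ : Fin m → (V.map j).toAffine.Point), (∀ i, ξ i ≠ 0) →
        (∀ i, xco (V.map j) (ξ i) ≠ j (xco V (c i))) →
        valX V j N ξ = (∏ i, (xco (V.map j) (ξ i) - j (xco V (c i))) ^ D) *
          ∏ δ : Fin m → ℤˣ, valX V j R (fun i => ξ i + (δ i : ℤ) • pmap V j (c i))) : N ≠ 0 := by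
  obtain ⟨ζ, h0, hc, hR'⟩ := ZNn_avoid V R hR c
  intro hN0
  have h := hN k (RingHom.id k) (fun i => pmap V (RingHom.id k) (ζ i)) ?_ ?_
  · have hprod : valX V (RingHom.id k) N (fun i => pmap V (RingHom.id k) (ζ i)) = 0 := by
      rw [hN0]
      exact eval₂_zero _ _
    rw [hprod] at h
    refine absurd h.symm (mul_ne_zero (Finset.prod_ne_zero_iff.2 fun i _ => pow_ne_zero _ ?_)
      (Finset.prod_ne_zero_iff.2 fun δ _ => ?_))
    · rw [xco_pmap]
      exact sub_ne_zero.2 (hc i)
    · have e : (fun i => pmap V (RingHom.id k) (ζ i) + (δ i : ℤ) • pmap V (RingHom.id k) (c i)) =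
          fun i => pmap V (RingHom.id k) (ζ i + (δ i : ℤ) • c i) := by
        funext i
        rw [pmap_add, pmap_zsmul]
      rw [e, valX_pmap]
      exact hR' δ
  · intro i h
    refine h0 i (pmap_injective V (RingHom.id k) ?_)
    rw [h, pmap_zero]
  · intro i
    rw [xco_pmap]
    exact hc i

end Pool.Agent.PTwistG
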