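import Pool.Agent.W_52423g_h30.ZDef

/-!
# Translation of a polynomial in the x-coordinates
-/

namespace Pool.Agent.PTwistG

open WeierstrassCurve WeierstrassCurve.Affine MvPolynomial Pool.Agent.PTwist

universe u

variable {k : Type u} [Field k] (V : WeierstrassCurve k)

/-- x-coordinate of a sum: `add_of_X_ne`, `slope_of_X_ne`, `addX`. -/
theorem ZTr_one [DecidableEq k] {P Q : V.toAffine.Point} (hP : P ≠ 0) (hQ : Q ≠ 0)
    (h : xco V P ≠ xco V Q) :
    P + Q ≠ 0 ∧ xco V (P + Q) * (xco V P - xco V Q) ^ 2 =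
      (yco V P - yco V Q) ^ 2 + V.a₁ * (yco V P - yco V Q) * (xco V P - xco V Q) -
        (V.a₂ + xco V P + xco V Q) * (xco V P - xco V Q) ^ 2 := by
  rcases P with _ | ⟨x₁, y₁, h₁⟩
  · exact absurd rfl hP
  rcases Q with _ | ⟨x₂, y₂, h₂⟩
  · exact absurd rfl hQ
  have hx : x₁ ≠ x₂ := h
  have hd : x₁ - x₂ ≠ 0 := sub_ne_zero.2 hx
  rw [Point.add_of_X_ne hx]
  refine ⟨Point.some_ne_zero _, ?_⟩
  simp only [xco_some, yco_some, slope_of_X_ne hx, WeierstrassCurve.Affine.addX]
  field_simp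
  ring

/-- the numerator of the x-coordinate of the sum -/
noncomputable def ZTr_N {m : ℕ} (c : Fin m → V.toAffine.Point) (i : Fin m) :
    MvPolynomial (Fin m ⊕ Fin m) k :=
  (X (Sum.inr i) - C (yco V (c i))) ^ 2 +
    C V.a₁ * (X (Sum.inr i) - C (yco V (c i))) * (X (Sum.inl i) - C (xco V (c i))) -
      (C V.a₂ + X (Sum.inl i) + C (xco V (c i))) * (X (Sum.inl i) - C (xco V (c i))) ^ 2

/-- the root of the denominator of the x-coordinate of the sum -/
noncomputable def ZTr_D {m : ℕ} (c : Fin m → V.toAffine.Point) (i : Fin m) :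
    MvPolynomial (Fin m ⊕ Fin m) k :=
  X (Sum.inl i) - C (xco V (c i))

theorem ZTr_degD {m : ℕ} (c : Fin m → V.toAffine.Point) (i : Fin m) (t : Fin m ⊕ Fin m) :
    degreeOf t (ZTr_D V c i) ≤ if t = Sum.inl i then 1 else 0 := by
  classical
  unfold ZTr_D
  refine (degreeOf_sub_le _ _ _).trans ?_
  rw [degreeOf_C, degreeOf_X]
  simp

theorem ZTr_degN {m : ℕ} (c : Fin m → V.toAffine.Point) (i : Fin m) (t : Fin m ⊕ Fin m) :
    degreeOf t (ZTr_N V c i) ≤ if t = Sum.inl i ∨ t = Sum.inr i then 3 else 0 := by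
  classical
  have hX : ∀ s : Fin m ⊕ Fin m, degreeOf t (X s : MvPolynomial (Fin m ⊕ Fin m) k) ≤
      if t = s then 1 else 0 := fun s => by rw [degreeOf_X]
  have h1 : degreeOf t (X (Sum.inr i) - C (yco V (c i)) : MvPolynomial (Fin m ⊕ Fin m) k) ≤
      if t = Sum.inr i then 1 else 0 := by
    refine (degreeOf_sub_le _ _ _).trans ?_
    rw [degreeOf_C, degreeOf_X]
    simp
  have h2 : degreeOf t (X (Sum.inl i) - C (xco V (c i)) : MvPolynomial (Fin m ⊕ Fin m) k) ≤
      if t = Sum.inl i then 1 else 0 := by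
    refine (degreeOf_sub_le _ _ _).trans ?_
    rw [degreeOf_C, degreeOf_X]
    simp
  have h3 : degreeOf t (C V.a₂ + X (Sum.inl i) + C (xco V (c i)) :
      MvPolynomial (Fin m ⊕ Fin m) k) ≤ if t = Sum.inl i then 1 else 0 := by
    refine (degreeOf_add_le _ _ _).trans (max_le ((degreeOf_add_le _ _ _).trans ?_) ?_)
    · rw [degreeOf_C, degreeOf_X]
      simp
    · rw [degreeOf_C]
      simp
  have h4 := degreeOf_pow_le t
    (X (Sum.inr i) - C (yco V (c i)) : MvPolynomial (Fin m ⊕ Fin m) k) 2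
  have h5 := degreeOf_pow_le t
    (X (Sum.inl i) - C (xco V (c i)) : MvPolynomial (Fin m ⊕ Fin m) k) 2
  have h6 := degreeOf_mul_le t
    (C V.a₁ * (X (Sum.inr i) - C (yco V (c i))) : MvPolynomial (Fin m ⊕ Fin m) k)
    (X (Sum.inl i) - C (xco V (c i)))
  have h7 := degreeOf_mul_le t (C V.a₁ : MvPolynomial (Fin m ⊕ Fin m) k)
    (X (Sum.inr i) - C (yco V (c i)))
  have h8 := degreeOf_mul_le t
    (C V.a₂ + X (Sum.inl i) + C (xco V (c i)) : MvPolynomial (Fin m ⊕ Fin m) k)
    ((X (Sum.inl i) - C (xco V (c i))) ^ 2)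
  rw [degreeOf_C] at h7
  unfold ZTr_N
  refine (degreeOf_sub_le _ _ _).trans (max_le ((degreeOf_add_le _ _ _).trans (max_le ?_ ?_)) ?_)
  · split_ifs at h1 h2 h3 ⊢ <;> first | omega | simp_all
  · split_ifs at h1 h2 h3 ⊢ <;> first | omega | simp_all
  · split_ifs at h1 h2 h3 ⊢ <;> first | omega | simp_all

/-- The translation polynomial.  With
`N i = (y i - yc i)² + a₁ (y i - yc i) (x i - xc i) - (a₂ + x i + xc i) (x i - xc i)²` replace every
monomial `∏ T i ^ a i` of `G` by `∏ N i ^ a i * (x i - xc i) ^ (2 (d - a i))`; then apply `ZTr_one`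
over `Ω` (`xco_pmap`, `yco_pmap`). -/
theorem exists_trPoly {m : ℕ} (c : Fin m → V.toAffine.Point) (hc : ∀ i, c i ≠ 0)
    (G : MvPolynomial (Fin m) k) (d : ℕ) (hG : ∀ i, degreeOf i G ≤ d) :
    ∃ A : MvPolynomial (Fin m ⊕ Fin m) k, (∀ t, degreeOf t A ≤ 3 * d) ∧
      ∀ (Ω : Type u) [Field Ω] [DecidableEq Ω] (j : k →+* Ω)
        (ξ : Fin m → (V.map j).toAffine.Point), (∀ i, ξ i ≠ 0) →
        (∀ i, xco (V.map j) (ξ i) ≠ j (xco V (c i))) →
        valXY V j A ξ = (∏ i, (xco (V.map j) (ξ i) - j (xco V (c i))) ^ (2 * d)) *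
          valX V j G (fun i => ξ i + pmap V j (c i)) := by
  classical
  refine ⟨∑ a ∈ G.support, C (coeff a G) * ∏ i, (ZTr_N V c i ^ a i * ZTr_D V c i ^ (2 * (d - a i))),
    fun t => ?_, ?_⟩
  · refine (degreeOf_sum_le _ _ _).trans (Finset.sup_le fun a ha => ?_)
    refine (degreeOf_mul_le _ _ _).trans ?_
    rw [degreeOf_C, zero_add]
    refine (degreeOf_prod_le _ _ _).trans ?_
    have hb : ∀ i, degreeOf t (ZTr_N V c i ^ a i * ZTr_D V c i ^ (2 * (d - a i))) ≤
        if t = Sum.inl i ∨ t = Sum.inr i then 3 * d else 0 := fun i => by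
      have hai : a i ≤ d := (le_degreeOf_of_mem_support i ha).trans (hG i)
      refine (degreeOf_mul_le _ _ _).trans ?_
      have h1 := degreeOf_pow_le t (ZTr_N V c i) (a i)
      have h2 := degreeOf_pow_le t (ZTr_D V c i) (2 * (d - a i))
      have h3 := ZTr_degN V c i t
      have h4 := ZTr_degD V c i t
      by_cases h5 : t = Sum.inl i
      · rw [if_pos (Or.inl h5)] at h3 ⊢
        rw [if_pos h5] at h4
        have h6 := Nat.mul_le_mul_left (a i) h3
        have h7 := Nat.mul_le_mul_left (2 * (d - a i)) h4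
        omega
      · rw [if_neg h5] at h4
        by_cases h8 : t = Sum.inr i
        · rw [if_pos (Or.inr h8)] at h3 ⊢
          have h6 := Nat.mul_le_mul_left (a i) h3
          have h7 := Nat.mul_le_mul_left (2 * (d - a i)) h4
          omega
        · rw [if_neg (not_or.2 ⟨h5, h8⟩)] at h3 ⊢
          have h6 := Nat.mul_le_mul_left (a i) h3
          have h7 := Nat.mul_le_mul_left (2 * (d - a i)) h4
          omega
    refine (Finset.sum_le_sum fun i _ => hb i).trans ?_
    rcases t with i₀ | i₀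
    · rw [Finset.sum_eq_single i₀ (fun i _ hi => ?_) (fun h => absurd (Finset.mem_univ _) h)]
      · split_ifs <;> omega
      · rw [if_neg]
        rintro (h | h)
        · exact hi (Sum.inl.inj h).symm
        · exact absurd h (by simp)
    · rw [Finset.sum_eq_single i₀ (fun i _ hi => ?_) (fun h => absurd (Finset.mem_univ _) h)]
      · split_ifs <;> omega
      · rw [if_neg]
        rintro (h | h)
        · exact absurd h (by simp)
        · exact hi (Sum.inr.inj h).symm
  · intro Ω _ _ j ξ hξ hne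
    have hD : ∀ i, valXY V j (ZTr_D V c i) ξ = xco (V.map j) (ξ i) - j (xco V (c i)) := fun i => by
      simp [valXY, ZTr_D, eval₂_sub]
    have hN : ∀ i, valXY V j (ZTr_N V c i) ξ = xco (V.map j) (ξ i + pmap V j (c i)) *
        (xco (V.map j) (ξ i) - j (xco V (c i))) ^ 2 := fun i => by
      have hc0 : pmap V j (c i) ≠ 0 := fun h => hc i (pmap_injective V j (h.trans (pmap_zero V j).symm))
      have h := (ZTr_one (V.map j) (hξ i) hc0 (by rw [xco_pmap]; exact hne i)).2
      rw [xco_pmap, yco_pmap] at h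
      rw [h]
      simp [valXY, ZTr_N, eval₂_sub, eval₂_add, eval₂_mul, eval₂_pow]
    have hG' : valX V j G (fun i => ξ i + pmap V j (c i)) =
        ∑ a ∈ G.support, j (coeff a G) * ∏ i, xco (V.map j) (ξ i + pmap V j (c i)) ^ a i := by
      unfold valX
      rw [eval₂_eq']
    rw [hG', Finset.mul_sum]
    have hA : valXY V j (∑ a ∈ G.support,
        C (coeff a G) * ∏ i, (ZTr_N V c i ^ a i * ZTr_D V c i ^ (2 * (d - a i)))) ξ =
        ∑ a ∈ G.support, j (coeff a G) * ∏ i, ((valXY V j (ZTr_N V c i) ξ) ^ a i *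
          (valXY V j (ZTr_D V c i) ξ) ^ (2 * (d - a i))) := by
      unfold valXY
      rw [eval₂_sum]
      refine Finset.sum_congr rfl fun a _ => ?_
      rw [eval₂_mul, eval₂_C, eval₂_prod]
      refine congrArg _ (Finset.prod_congr rfl fun i _ => ?_)
      rw [eval₂_mul, eval₂_pow, eval₂_pow]
    rw [hA]
    refine Finset.sum_congr rfl fun a ha => ?_
    rw [mul_left_comm, ← Finset.prod_mul_distrib]
    refine congrArg _ (Finset.prod_congr rfl fun i _ => ?_)
    have hai : a i ≤ d := (le_degreeOf_of_mem_support i ha).trans (hG i)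
    obtain ⟨e, he⟩ := Nat.exists_eq_add_of_le hai
    have he' : d - a i = e := by omega
    rw [hN, hD, he', he]
    generalize xco (V.map j) (ξ i) - j (xco V (c i)) = D
    ring

end Pool.Agent.PTwistG
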